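import Mathlib
import Pool.Agent.TH607.Fx.Act
import Pool.Agent.Helper186.ParamInt

/-! Averages of functions over circles and rational subtori. -/

open scoped Topology ContDiff Manifold
open Set Metric Bundle Pool.Agent.Helper186 Pool.Agent.H826R2.Wein

noncomputable section

namespace Pool.Agent.TH607

set_option linter.unusedSectionVars false

universe u

variable {E : Type u} [NormedAddCommGroup E] [NormedSpace ℝ E] [FiniteDimensional ℝ E]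
  {P : Type*} [TopologicalSpace P] [ChartedSpace E P] [IsManifold 𝓘(ℝ, E) ∞ P]

namespace TS

variable {β : (x : P) → TangentSpace 𝓘(ℝ, E) x →L[ℝ] ℝ} {m : ℕ} (A : TS β m)

/-- real vector of an integer vector -/
def rv (k : Fin m → ℤ) : Fin m → ℝ := fun i => (k i : ℝ)

/-- average of a function over a one-parameter group of period one -/
def avg (κ : Fin m → ℝ) (f : P → ℝ) (x : P) : ℝ := ∫ s in (0:ℝ)..1, f (A.fam κ (s, x))

lemma smooth_avg (κ : Fin m → ℝ) {f : P → ℝ} (hf : ContMDiff 𝓘(ℝ, E) 𝓘(ℝ, ℝ) ∞ f) :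
    ContMDiff 𝓘(ℝ, E) 𝓘(ℝ, ℝ) ∞ (A.avg κ f) :=
  contMDiff_paramInt (k := fun p : ℝ × P => f (A.fam κ p)) (hf.comp (A.smooth_fam κ)) 1

lemma fam_one (k : Fin m → ℤ) (x : P) : A.fam (rv k) (1, x) = x := by
  have h := A.period k x
  simp only [fam, one_smul]
  exact h

lemma avg_fam (k : Fin m → ℤ) (f : P → ℝ) (t : ℝ) (x : P) :
    A.avg (rv k) f (A.fam (rv k) (t, x)) = A.avg (rv k) f x := by
  unfold avg
  have hper : Function.Periodic (fun s : ℝ => f (A.fam (rv k) (s, x))) 1 := by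
    intro s
    show f (A.fam (rv k) (s + 1, x)) = f (A.fam (rv k) (s, x))
    rw [A.fam_add, A.fam_one]
  have h1 : (fun s : ℝ => f (A.fam (rv k) (s, A.fam (rv k) (t, x)))) =
      fun s : ℝ => (fun s : ℝ => f (A.fam (rv k) (s, x))) (s + t) := by
    ext1 s
    show f (A.fam (rv k) (s, A.fam (rv k) (t, x))) = f (A.fam (rv k) (s + t, x))
    rw [← A.fam_add]
  rw [h1, intervalIntegral.integral_comp_add_right (fun s : ℝ => f (A.fam (rv k) (s, x))) t]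
  have h2 := hper.intervalIntegral_add_eq (0 + t) 0
  rw [zero_add, zero_add] at h2
  rw [zero_add, add_comm 1 t]
  exact h2

lemma avg_act (κ θ : Fin m → ℝ) {f : P → ℝ} (hf : ∀ x, f (A.act θ x) = f x) (x : P) :
    A.avg κ f (A.act θ x) = A.avg κ f x := by
  unfold avg
  congr 1
  ext1 s
  rw [← A.act_fam, hf]

lemma avg_fixed {κ : Fin m → ℝ} (f : P → ℝ) {y : P} (hy : ∀ s : ℝ, A.fam κ (s, y) = y) :
    A.avg κ f y = f y := by
  unfold avg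
  simp_rw [hy]
  simp

lemma dForm_avg {κ : Fin m → ℝ} {f : P → ℝ} (hf : ContMDiff 𝓘(ℝ, E) 𝓘(ℝ, ℝ) ∞ f) {y : P}
    (hy : ∀ s : ℝ, A.fam κ (s, y) = y) (u : E)
    (h : ∀ s : ℝ, dForm 𝓘(ℝ, E) f y (mfderiv 𝓘(ℝ, E) 𝓘(ℝ, E) (A.act (s • κ)) y u : E) =
      dForm 𝓘(ℝ, E) f y u) :
    dForm 𝓘(ℝ, E) (A.avg κ f) y u = dForm 𝓘(ℝ, E) f y u := by
  have h1 := mfderiv_paramInt (I := 𝓘(ℝ, E)) (k := fun p : ℝ × P => f (A.fam κ p))
    (hf.comp (A.smooth_fam κ)) 1 y u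
  have h2 : ∀ s : ℝ, (show ℝ from mfderiv 𝓘(ℝ, E) 𝓘(ℝ, ℝ) (fun x => f (A.fam κ (s, x))) y u) =
      dForm 𝓘(ℝ, E) f y u := by
    intro s
    have h3 : mfderiv 𝓘(ℝ, E) 𝓘(ℝ, ℝ) (f ∘ A.act (s • κ)) y =
        (mfderiv 𝓘(ℝ, E) 𝓘(ℝ, ℝ) f (A.act (s • κ) y)).comp
        (mfderiv 𝓘(ℝ, E) 𝓘(ℝ, E) (A.act (s • κ)) y) :=
      mfderiv_comp _ (hf.mdifferentiableAt (by simp))
        ((A.smooth_right (s • κ)).mdifferentiableAt (by simp))
    have h4 : (show ℝ from mfderiv 𝓘(ℝ, E) 𝓘(ℝ, ℝ) (fun x => f (A.fam κ (s, x))) y u) =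
        dForm 𝓘(ℝ, E) f (A.act (s • κ) y)
          (mfderiv 𝓘(ℝ, E) 𝓘(ℝ, E) (A.act (s • κ)) y u : E) := by
      show mfderiv 𝓘(ℝ, E) 𝓘(ℝ, ℝ) (f ∘ A.act (s • κ)) y u = _
      rw [h3]
      rfl
    rw [h4]
    have h5 : ∀ (z : P), z = y → ∀ w : E, dForm 𝓘(ℝ, E) f z w = dForm 𝓘(ℝ, E) f y w := by
      rintro _ rfl w; rfl
    exact (h5 _ (hy s) _).trans (h s)
  show mfderiv 𝓘(ℝ, E) 𝓘(ℝ, ℝ) (A.avg κ f) y u = _
  have h6 : (A.avg κ f) = fun x => ∫ s in (0:ℝ)..1, (fun p : ℝ × P => f (A.fam κ p)) (s, x) := rfl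
  rw [h6, h1]
  have h7 : (fun s : ℝ => (show ℝ from mfderiv 𝓘(ℝ, E) 𝓘(ℝ, ℝ)
      (fun x => (fun p : ℝ × P => f (A.fam κ p)) (s, x)) y u)) =
      fun _ => dForm 𝓘(ℝ, E) f y u := by
    ext1 s
    exact h2 s
  calc (∫ s in (0:ℝ)..1, (show ℝ from mfderiv 𝓘(ℝ, E) 𝓘(ℝ, ℝ)
      (fun x => (fun p : ℝ × P => f (A.fam κ p)) (s, x)) y u))
      = ∫ s in (0:ℝ)..1, (dForm 𝓘(ℝ, E) f y u : ℝ) := by
        rw [h7]
    _ = dForm 𝓘(ℝ, E) f y u := by simp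

/-- Averaging over finitely many circles. -/
lemma exists_inv_list (L : List (Fin m → ℤ)) {f : P → ℝ}
    (hf : ContMDiff 𝓘(ℝ, E) 𝓘(ℝ, ℝ) ∞ f) {y : P}
    (hy : ∀ k ∈ L, ∀ s : ℝ, A.fam (rv k) (s, y) = y) (C : Set E)
    (hC : ∀ k ∈ L, ∀ s : ℝ, ∀ u ∈ C,
      (mfderiv 𝓘(ℝ, E) 𝓘(ℝ, E) (A.act (s • rv k)) y u : E) ∈ C ∧
      dForm 𝓘(ℝ, E) f y (mfderiv 𝓘(ℝ, E) 𝓘(ℝ, E) (A.act (s • rv k)) y u : E) =
        dForm 𝓘(ℝ, E) f y u) :
    ∃ g : P → ℝ, ContMDiff 𝓘(ℝ, E) 𝓘(ℝ, ℝ) ∞ g ∧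
      (∀ k ∈ L, ∀ (s : ℝ) (x : P), g (A.fam (rv k) (s, x)) = g x) ∧ g y = f y ∧
      (∀ u ∈ C, dForm 𝓘(ℝ, E) g y u = dForm 𝓘(ℝ, E) f y u) := by
  induction L with
  | nil => exact ⟨f, hf, by simp, rfl, fun _ _ => rfl⟩
  | cons k L ih =>
    obtain ⟨g, hg, hgL, hgy, hgC⟩ := ih (fun k' hk' => hy k' (List.mem_cons_of_mem _ hk'))
      (fun k' hk' => hC k' (List.mem_cons_of_mem _ hk'))
    have hyk := hy k List.mem_cons_self
    refine ⟨A.avg (rv k) g, A.smooth_avg _ hg, ?_, ?_, ?_⟩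
    · intro k' hk' s x
      rcases List.mem_cons.1 hk' with rfl | hk'
      · exact A.avg_fam k' g s x
      · exact A.avg_act (rv k) (s • rv k') (fun z => hgL k' hk' s z) x
    · rw [A.avg_fixed g hyk, hgy]
    · intro u hu
      rw [A.dForm_avg hg hyk u, hgC u hu]
      intro s
      obtain ⟨h1, h2⟩ := hC k List.mem_cons_self s u hu
      rw [hgC _ h1, hgC u hu, h2]

/-- the points fixed by a subspace of the Lie algebra -/
def Fix (S : Submodule ℝ (Fin m → ℝ)) : Set P := {x | ∀ θ ∈ S, A.act θ x = x}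

/-- subspaces spanned by integer vectors -/
def Rational (S : Submodule ℝ (Fin m → ℝ)) : Prop :=
  ∃ L : List (Fin m → ℤ), S = Submodule.span ℝ {v | ∃ k ∈ L, rv k = v}

lemma isClosed_Fix [T2Space P] (S : Submodule ℝ (Fin m → ℝ)) : IsClosed (A.Fix S) := by
  have : A.Fix S = ⋂ θ ∈ S, {x | A.act θ x = x} := by
    ext x; simp [Fix]
  rw [this]
  refine isClosed_biInter fun θ _ => ?_
  exact isClosed_eq (A.smooth_right θ).continuous continuous_id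

/-- invariance under a spanning set gives invariance under the span -/
lemma inv_of_span {L : List (Fin m → ℤ)} {g : P → ℝ}
    (h : ∀ k ∈ L, ∀ (s : ℝ) (x : P), g (A.fam (rv k) (s, x)) = g x) {θ : Fin m → ℝ}
    (hθ : θ ∈ Submodule.span ℝ {v | ∃ k ∈ L, rv k = v}) (x : P) : g (A.act θ x) = g x := by
  suffices H : ∀ (s : ℝ) (x : P), g (A.act (s • θ) x) = g x by
    have := H 1 x
    rwa [one_smul] at this
  induction hθ using Submodule.span_induction with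
  | mem v hv =>
    obtain ⟨k, hk, rfl⟩ := hv
    exact fun s x => h k hk s x
  | zero =>
    intro s x
    rw [smul_zero, A.zero]
  | add a b _ _ ha hb =>
    intro s x
    rw [smul_add, A.add, ha, hb]
  | smul a b _ hb =>
    intro s x
    rw [smul_smul]
    exact hb _ x

lemma fam_of_mem {S : Submodule ℝ (Fin m → ℝ)} {y : P} (hy : y ∈ A.Fix S) {κ : Fin m → ℝ}
    (hκ : κ ∈ S) (s : ℝ) : A.fam κ (s, y) = y := hy _ (S.smul_mem s hκ)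

/-- Averaging over a rational subtorus. -/
lemma exists_inv {S : Submodule ℝ (Fin m → ℝ)} (hS : Rational S) {f : P → ℝ}
    (hf : ContMDiff 𝓘(ℝ, E) 𝓘(ℝ, ℝ) ∞ f) {y : P} (hy : y ∈ A.Fix S) (C : Set E)
    (hC : ∀ θ ∈ S, ∀ u ∈ C, (mfderiv 𝓘(ℝ, E) 𝓘(ℝ, E) (A.act θ) y u : E) ∈ C ∧
      dForm 𝓘(ℝ, E) f y (mfderiv 𝓘(ℝ, E) 𝓘(ℝ, E) (A.act θ) y u : E) =
        dForm 𝓘(ℝ, E) f y u) :
    ∃ g : P → ℝ, ContMDiff 𝓘(ℝ, E) 𝓘(ℝ, ℝ) ∞ g ∧
      (∀ θ ∈ S, ∀ (x : P), g (A.act θ x) = g x) ∧ g y = f y ∧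
      (∀ u ∈ C, dForm 𝓘(ℝ, E) g y u = dForm 𝓘(ℝ, E) f y u) := by
  obtain ⟨L, rfl⟩ := hS
  have hmem : ∀ k ∈ L, rv k ∈ Submodule.span ℝ {v : Fin m → ℝ | ∃ k ∈ L, rv k = v} :=
    fun k hk => Submodule.subset_span ⟨k, hk, rfl⟩
  obtain ⟨g, h1, h2, h3, h4⟩ := A.exists_inv_list L hf
    (fun k hk s => A.fam_of_mem hy (hmem k hk) s) C
    (fun k hk s u hu => hC _ (Submodule.smul_mem _ s (hmem k hk)) u hu)
  exact ⟨g, h1, fun θ hθ x => A.inv_of_span h2 hθ x, h3, h4⟩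

end TS

end Pool.Agent.TH607
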