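import Mathlib
import Pool.Agent.TH607.Fx.Avg

/-! Curves in the fixed point set of a subtorus. -/

open scoped Topology ContDiff Manifold
open Set Metric Bundle Pool.Agent.Helper186 Pool.Agent.H826R2.Wein

noncomputable section

namespace Pool.Agent.TH607

set_option linter.unusedSectionVars false

universe u

variable {E : Type u} [NormedAddCommGroup E] [NormedSpace ℝ E] [FiniteDimensional ℝ E]
  {P : Type*} [TopologicalSpace P] [ChartedSpace E P] [IsManifold 𝓘(ℝ, E) ∞ P]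
  {β : (x : P) → TangentSpace 𝓘(ℝ, E) x →L[ℝ] ℝ} {R : (x : P) → TangentSpace 𝓘(ℝ, E) x}

lemma HB_R (hR : IsReeb β R) (x : P) (v : TangentSpace 𝓘(ℝ, E) x) :
    HB β x (R x) v = β x v := by
  rw [HB_apply, hR.unit, hR.kernel, one_mul, add_zero]

/-- naturality of the Reeb field -/
lemma push_R {g g' : P → P} (hg : Cto β g g') (c : CD β R) (x : P) :
    (mfderiv 𝓘(ℝ, E) 𝓘(ℝ, E) g x (R x) : E) = R (g x) := by
  rw [← sub_eq_zero]
  apply HB_nondeg c.contact c.reeb (g x)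
  intro w
  obtain ⟨v, rfl⟩ := hg.surjD x w
  have h1 : HB β (g x) ((mfderiv 𝓘(ℝ, E) 𝓘(ℝ, E) g x (R x) : E) - R (g x))
      (mfderiv 𝓘(ℝ, E) 𝓘(ℝ, E) g x v) =
      HB β (g x) (mfderiv 𝓘(ℝ, E) 𝓘(ℝ, E) g x (R x)) (mfderiv 𝓘(ℝ, E) 𝓘(ℝ, E) g x v) -
      HB β (g x) (R (g x)) (mfderiv 𝓘(ℝ, E) 𝓘(ℝ, E) g x v) := by
    have := map_sub (HB β (g x)) (mfderiv 𝓘(ℝ, E) 𝓘(ℝ, E) g x (R x)) (R (g x))
    have h2 := DFunLike.congr_fun this (mfderiv 𝓘(ℝ, E) 𝓘(ℝ, E) g x v)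
    exact h2
  rw [h1, hg.HB_push c.contact.smooth, HB_R c.reeb, HB_R c.reeb, hg.strict, sub_self]

/-- derivative of a contact Hamiltonian along a contact vector field -/
lemma CD.β_X' (c : CD β R) (f : P → ℝ) (x : P) :
    β x (c.X f x) = f x - dForm 𝓘(ℝ, E) f x (R x) := by
  have h1 := c.X_spec f x (R x)
  rw [HB_apply, c.reeb.unit, mul_one, extDer_antisymm, c.reeb.kernel, neg_zero, add_zero,
    mul_one] at h1
  exact h1

namespace TS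

variable {m : ℕ} (A : TS β m)

lemma cto (θ : Fin m → ℝ) : Cto β (A.act θ) (A.act (-θ)) where
  smooth := A.smooth_right θ
  smooth' := A.smooth_right (-θ)
  right := fun x => by rw [← A.add, add_neg_cancel, A.zero]
  left := fun x => by rw [← A.add, neg_add_cancel, A.zero]
  strict := A.strict θ

/-- the derivative of `H κ` along the contact field of `f` -/
lemma dH_X (c : CD β R) (κ : Fin m → ℝ) (f : P → ℝ) (y : P) :
    dForm 𝓘(ℝ, E) (A.H κ) y (c.X f y) =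
      dForm 𝓘(ℝ, E) f y (R y) * A.H κ y - dForm 𝓘(ℝ, E) f y (A.X κ y) := by
  have h1 := A.dH c.contact.smooth κ y (c.X f y)
  have h2 := c.X_spec f y (A.X κ y)
  rw [HB_apply, CD.β_X' c, extDer_antisymm] at h2
  rw [h1]
  have h3 : β y (A.X κ y) = A.H κ y := rfl
  rw [h3] at h2
  linarith

/-- A local integral curve of an equivariant vector field starting at a fixed point of a subtorus
stays in the fixed point set. -/
lemma exists_curve_fix [T2Space P] {W : (x : P) → TangentSpace 𝓘(ℝ, E) x}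
    (hW : ContMDiff 𝓘(ℝ, E) 𝓘(ℝ, E).tangent ∞ (fun x => (⟨x, W x⟩ : TangentBundle 𝓘(ℝ, E) P)))
    {S : Submodule ℝ (Fin m → ℝ)}
    (hWS : ∀ θ ∈ S, ∀ x, (mfderiv 𝓘(ℝ, E) 𝓘(ℝ, E) (A.act θ) x (W x) : E) = W (A.act θ x))
    {y : P} (hy : y ∈ A.Fix S) :
    ∃ ε > (0:ℝ), ∃ c : ℝ → P, c 0 = y ∧ (∀ t ∈ Ioo (-ε) ε, c t ∈ A.Fix S) ∧
      ∀ t ∈ Ioo (-ε) ε, HasMFDerivAt 𝓘(ℝ, ℝ) 𝓘(ℝ, E) c t
        ((1 : ℝ →L[ℝ] ℝ).smulRight (W (c t))) := by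
  have : IsManifold 𝓘(ℝ, E) 1 P := IsManifold.of_le (n := ∞) (by simp)
  have hW1 : ContMDiff 𝓘(ℝ, E) 𝓘(ℝ, E).tangent 1
      (fun x => (⟨x, W x⟩ : TangentBundle 𝓘(ℝ, E) P)) := hW.of_le (by simp)
  obtain ⟨c, hc0, hc⟩ := exists_isMIntegralCurveAt_of_contMDiffAt_boundaryless (t₀ := 0)
    (hW1 y)
  obtain ⟨ε, hε, hcε⟩ := isMIntegralCurveAt_iff'.1 hc
  rw [Real.ball_eq_Ioo, zero_sub, zero_add] at hcε
  have hder : ∀ t ∈ Ioo (-ε) ε, HasMFDerivAt 𝓘(ℝ, ℝ) 𝓘(ℝ, E) c t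
        ((1 : ℝ →L[ℝ] ℝ).smulRight (W (c t))) :=
    fun t ht => (hcε t ht).hasMFDerivAt (Ioo_mem_nhds ht.1 ht.2)
  refine ⟨ε, hε, c, hc0, ?_, hder⟩
  intro t ht θ hθ
  have h1 : IsMIntegralCurveOn (I := 𝓘(ℝ, E)) (fun t => A.act θ (c t)) W (Ioo (-ε) ε) := by
    intro s hs
    have h2 := HasMFDerivAt.comp s (g := A.act θ) (f := c)
      ((A.smooth_right θ).mdifferentiableAt (by simp)).hasMFDerivAt (hder s hs)
    refine (h2.congr_mfderiv ?_).hasMFDerivWithinAt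
    refine ContinuousLinearMap.ext fun (r : ℝ) => ?_
    show (mfderiv 𝓘(ℝ, E) 𝓘(ℝ, E) (A.act θ) (c s)) ((r • W (c s) : E)) = r • W (A.act θ (c s))
    have h4 : (mfderiv 𝓘(ℝ, E) 𝓘(ℝ, E) (A.act θ) (c s)) ((r • W (c s) : E)) =
      (r • (mfderiv 𝓘(ℝ, E) 𝓘(ℝ, E) (A.act θ) (c s) (W (c s)) : E) : E) :=
      map_smul (mfderiv 𝓘(ℝ, E) 𝓘(ℝ, E) (A.act θ) (c s)) _ _
    rw [h4]
    exact congrArg (fun w : E => r • w) (hWS θ hθ (c s))
  have h3 := isMIntegralCurveOn_Ioo_eqOn_of_contMDiff_boundaryless (t₀ := 0)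
    ⟨by linarith, hε⟩ hW1 h1 hcε (by
      show A.act θ (c 0) = c 0
      rw [hc0]
      exact hy θ hθ)
  exact h3 ht

/-- contact field of an invariant function is equivariant -/
lemma push_cX (c : CD β R) {g : P → ℝ} (hg : ContMDiff 𝓘(ℝ, E) 𝓘(ℝ, ℝ) ∞ g)
    {θ : Fin m → ℝ} (h : ∀ x, g (A.act θ x) = g x) (x : P) :
    (mfderiv 𝓘(ℝ, E) 𝓘(ℝ, E) (A.act θ) x (c.X g x) : E) = c.X g (A.act θ x) :=
  (A.cto θ).push_X c hg h x

/-- fixed vectors -/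
lemma push_fixed_X {θ : Fin m → ℝ} {y : P} (hy : A.act θ y = y) (κ : Fin m → ℝ) :
    (mfderiv 𝓘(ℝ, E) 𝓘(ℝ, E) (A.act θ) y (A.X κ y) : E) = A.X κ y := by
  have h1 := A.push_X (A.smooth_right θ) (A.act_fam κ θ) y
  have h2 : ∀ z : P, z = y → (A.X κ z : E) = A.X κ y := by rintro _ rfl; rfl
  exact h1.trans (h2 _ hy)

lemma push_fixed_R (c : CD β R) {θ : Fin m → ℝ} {y : P} (hy : A.act θ y = y) :
    (mfderiv 𝓘(ℝ, E) 𝓘(ℝ, E) (A.act θ) y (R y) : E) = R y := by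
  have h1 := push_R (A.cto θ) c y
  have h2 : ∀ z : P, z = y → (R z : E) = R y := by rintro _ rfl; rfl
  exact h1.trans (h2 _ hy)

/-- smooth functions with prescribed value and differential -/
lemma _root_.Pool.Agent.TH607.exists_fun {n : ℕ} (ι : Imm (E := E) P n) (y : P) (a : ℝ)
    (l : E →L[ℝ] ℝ) : ∃ f : P → ℝ, ContMDiff 𝓘(ℝ, E) 𝓘(ℝ, ℝ) ∞ f ∧ f y = a ∧
      ∀ u : E, dForm 𝓘(ℝ, E) f y u = l u := by
  let D : E →ₗ[ℝ] EuclideanSpace ℝ (Fin n) :=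
    (show E →L[ℝ] EuclideanSpace ℝ (Fin n) from ι.D y : E →L[ℝ] EuclideanSpace ℝ (Fin n))
  have hD : LinearMap.ker D = ⊥ := LinearMap.ker_eq_bot.2 (ι.inj y)
  obtain ⟨g, hg⟩ := LinearMap.exists_leftInverse_of_injective D hD
  let L : EuclideanSpace ℝ (Fin n) →L[ℝ] ℝ := LinearMap.toContinuousLinearMap
    ((l : E →ₗ[ℝ] ℝ).comp g)
  have hL : ∀ u : E, L (ι.D y u) = l u := by
    intro u
    show (l : E →ₗ[ℝ] ℝ) (g (D u)) = l u
    have := DFunLike.congr_fun hg u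
    simp only [LinearMap.comp_apply, LinearMap.id_apply] at this
    rw [this]
    rfl
  refine ⟨fun x => a + (L (ι.F x) - L (ι.F y)), ?_, by simp, ?_⟩
  · have h1 : ContMDiff 𝓘(ℝ, E) 𝓘(ℝ, ℝ) ∞ (fun x => L (ι.F x)) :=
      L.contMDiff.comp ι.smooth
    exact contMDiff_const.add (h1.sub contMDiff_const)
  · intro u
    have h1 : HasMFDerivAt 𝓘(ℝ, E) 𝓘(ℝ, EuclideanSpace ℝ (Fin n)) ι.F y (ι.D y) :=
      (ι.smooth.mdifferentiableAt (by simp)).hasMFDerivAt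
    have h2 : HasMFDerivAt 𝓘(ℝ, EuclideanSpace ℝ (Fin n)) 𝓘(ℝ, ℝ)
        (fun z => a + (L z - L (ι.F y))) (ι.F y) L := by
      have : HasFDerivAt (fun z => a + (L z - L (ι.F y))) L (ι.F y) :=
        ((L.hasFDerivAt).sub_const _).const_add a
      exact this.hasMFDerivAt
    have h3 := (HasMFDerivAt.comp y h2 h1).mfderiv
    have h4 : dForm 𝓘(ℝ, E) (fun x => a + (L (ι.F x) - L (ι.F y))) y u = L (ι.D y u) :=
      DFunLike.congr_fun h3 u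
    rw [h4, hL]

/-- **Relative critical points.** If `X κ` is not proportional to the Reeb field at a point of the
fixed point set of a rational subtorus then `H κ` has nonzero derivative along a curve in this
set. -/
lemma exists_curve_dH [T2Space P] (c : CD β R) {n : ℕ} (ι : Imm (E := E) P n)
    {S : Submodule ℝ (Fin m → ℝ)}
    (hS : Rational S) {y : P} (hy : y ∈ A.Fix S) {κ : Fin m → ℝ}
    (hne : A.X κ y ≠ A.H κ y • R y) :
    ∃ ε > (0:ℝ), ∃ γ : ℝ → P, γ 0 = y ∧ (∀ t ∈ Ioo (-ε) ε, γ t ∈ A.Fix S) ∧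
      ∃ a : ℝ, a ≠ 0 ∧ HasDerivAt (fun t => A.H κ (γ t)) a 0 := by
  obtain ⟨r, hr⟩ : ∃ r : E, (R y : E) = r := ⟨_, rfl⟩
  obtain ⟨z, hz⟩ : ∃ z : E, (A.X κ y : E) = z := ⟨_, rfl⟩
  obtain ⟨w, hw⟩ : ∃ w : E, w = A.H κ y • r - z := ⟨_, rfl⟩
  have hw0 : w ≠ 0 := by
    rw [hw, sub_ne_zero, ← hr, ← hz]
    exact fun h => hne h.symm
  obtain ⟨l, hl⟩ : ∃ l : E →L[ℝ] ℝ, l w ≠ 0 := by
    obtain ⟨l, -, hl⟩ := exists_dual_vector'' ℝ w
    refine ⟨l, ?_⟩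
    rw [hl]
    simpa using hw0
  obtain ⟨f, hf, hfy, hfl⟩ := exists_fun ι y 0 l
  have hRX : ∀ θ ∈ S, ∀ u ∈ ({r, z} : Set E),
      (mfderiv 𝓘(ℝ, E) 𝓘(ℝ, E) (A.act θ) y u : E) = u := by
    intro θ hθ u hu
    rcases hu with rfl | hu
    · rw [← hr]; exact A.push_fixed_R c (hy θ hθ)
    · have hu' : u = z := hu
      rw [hu', ← hz]
      exact A.push_fixed_X (hy θ hθ) κ
  obtain ⟨g, hg, hgS, hgy, hgC⟩ := A.exists_inv hS hf hy ({r, z} : Set E)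
    (fun θ hθ u hu => by
      have h1 := hRX θ hθ u hu
      constructor
      · rw [h1]; exact hu
      · exact congrArg (fun w : E => dForm 𝓘(ℝ, E) f y w) h1)
  obtain ⟨ε, hε, γ, hγ0, hγS, hγ⟩ := A.exists_curve_fix (c.smooth_X hg)
    (fun θ hθ x => A.push_cX c hg (hgS θ hθ) x) hy
  refine ⟨ε, hε, γ, hγ0, hγS, l w, hl, ?_⟩
  have h1 := hasDerivAt_along (hγ 0 ⟨by linarith, hε⟩) (A.smooth_H c.contact.smooth κ)
  refine h1.congr_deriv ?_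
  have h2 : ∀ z : P, z = y → dForm 𝓘(ℝ, E) (A.H κ) z (c.X g z) =
      dForm 𝓘(ℝ, E) (A.H κ) y (c.X g y) := by rintro _ rfl; rfl
  rw [h2 _ hγ0, A.dH_X c κ g y]
  have h3 : dForm 𝓘(ℝ, E) g y (R y) = l r :=
    (congrArg (fun w : E => dForm 𝓘(ℝ, E) g y w) hr).trans
      ((hgC r (by simp)).trans (hfl r))
  have h4 : dForm 𝓘(ℝ, E) g y (A.X κ y) = l z :=
    (congrArg (fun w : E => dForm 𝓘(ℝ, E) g y w) hz).trans
      ((hgC z (by simp)).trans (hfl z))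
  rw [h3, h4, hw, map_sub, map_smul, smul_eq_mul]
  ring

end TS

end Pool.Agent.TH607
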