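import Mathlib
import Pool.Agent.TH607.Fx.Tan

/-! Closed orbits from one-dimensional torus orbits. -/

open scoped Topology ContDiff Manifold
open Set Metric Bundle Pool.Agent.Helper186 Pool.Agent.H826R2.Wein

noncomputable section

namespace Pool.Agent.TH607

set_option linter.unusedSectionVars false

universe u

variable {E : Type u} [NormedAddCommGroup E] [NormedSpace ℝ E] [FiniteDimensional ℝ E]
  {P : Type*} [TopologicalSpace P] [ChartedSpace E P] [IsManifold 𝓘(ℝ, E) ∞ P]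
  {β : (x : P) → TangentSpace 𝓘(ℝ, E) x →L[ℝ] ℝ} {R : (x : P) → TangentSpace 𝓘(ℝ, E) x}

namespace TS

variable {m : ℕ} (A : TS β m)

/-- the pairing of an integer covector with a real vector -/
def dot (σ : Fin m → ℤ) (θ : Fin m → ℝ) : ℝ := ∑ i, (σ i : ℝ) * θ i

lemma dot_add (σ : Fin m → ℤ) (θ θ' : Fin m → ℝ) : dot σ (θ + θ') = dot σ θ + dot σ θ' := by
  simp [dot, mul_add, Finset.sum_add_distrib]

lemma dot_smul (σ : Fin m → ℤ) (a : ℝ) (θ : Fin m → ℝ) : dot σ (a • θ) = a * dot σ θ := by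
  simp only [dot, Pi.smul_apply, smul_eq_mul, Finset.mul_sum]
  exact Finset.sum_congr rfl fun i _ => by ring

lemma dot_sub (σ : Fin m → ℤ) (θ θ' : Fin m → ℝ) : dot σ (θ - θ') = dot σ θ - dot σ θ' := by
  simp [dot, mul_sub, Finset.sum_sub_distrib]

/-- the annihilator of a covector -/
def kerS (σ : Fin m → ℤ) : Submodule ℝ (Fin m → ℝ) where
  carrier := {θ | dot σ θ = 0}
  add_mem' := by
    intro a b ha hb
    show dot σ (a + b) = 0
    rw [dot_add, ha, hb, add_zero]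
  zero_mem' := by simp [dot]
  smul_mem' := by
    intro c a ha
    show dot σ (c • a) = 0
    rw [dot_smul, ha, mul_zero]

lemma mem_kerS {σ : Fin m → ℤ} {θ : Fin m → ℝ} : θ ∈ kerS σ ↔ dot σ θ = 0 := Iff.rfl

lemma dot_self_pos {σ : Fin m → ℤ} (hσ : σ ≠ 0) : 0 < dot σ (rv σ) := by
  obtain ⟨i, hi⟩ := Function.ne_iff.1 hσ
  have h1 : ∀ j ∈ Finset.univ, 0 ≤ (σ j : ℝ) * rv σ j := fun j _ => mul_self_nonneg _
  have h2 : 0 < (σ i : ℝ) * rv σ i := by
    have : (σ i : ℝ) ≠ 0 := by exact_mod_cast hi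
    exact mul_self_pos.2 this
  exact Finset.sum_pos' h1 ⟨i, Finset.mem_univ i, h2⟩

lemma rational_kerS {σ : Fin m → ℤ} (hσ : σ ≠ 0) : Rational (kerS σ) := by
  obtain ⟨i, hi⟩ := Function.ne_iff.1 hσ
  have hi' : (σ i : ℝ) ≠ 0 := by exact_mod_cast hi
  let k : Fin m → Fin m → ℤ := fun j => σ i • Pi.single j 1 - σ j • Pi.single i 1
  refine ⟨(List.finRange m).map k, ?_⟩
  have hk : ∀ j, (rv (k j) : Fin m → ℝ) =
      (σ i : ℝ) • Pi.single j 1 - (σ j : ℝ) • Pi.single i 1 := by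
    intro j
    ext l
    simp only [rv, k, Pi.sub_apply, Pi.smul_apply, smul_eq_mul, Pi.single_apply]
    push_cast
    split_ifs <;> simp
  have hdot : ∀ j, dot σ (Pi.single j 1 : Fin m → ℝ) = σ j := by
    intro j
    simp [dot, Pi.single_apply]
  apply le_antisymm
  · intro θ hθ
    have h1 : θ = ∑ j, (θ j / σ i) • (rv (k j) : Fin m → ℝ) := by
      have h2 : ∑ j, (θ j / σ i) • (rv (k j) : Fin m → ℝ) =
          (∑ j, θ j • (Pi.single j 1 : Fin m → ℝ)) -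
            (dot σ θ / σ i) • (Pi.single i 1 : Fin m → ℝ) := by
        simp_rw [hk, smul_sub, smul_smul]
        rw [Finset.sum_sub_distrib]
        congr 1
        · refine Finset.sum_congr rfl fun j _ => ?_
          congr 1
          field_simp
        · rw [← Finset.sum_smul, dot, Finset.sum_div]
          congr 1
          refine Finset.sum_congr rfl fun j _ => ?_
          ring
      rw [h2, mem_kerS.1 hθ, zero_div, zero_smul, sub_zero]
      ext l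
      simp [Finset.sum_apply, Pi.single_apply]
    rw [h1]
    refine Submodule.sum_mem _ fun j _ => Submodule.smul_mem _ _ (Submodule.subset_span ?_)
    exact ⟨k j, by simp, rfl⟩
  · rw [Submodule.span_le]
    rintro v ⟨k', hk', rfl⟩
    obtain ⟨j, -, rfl⟩ := List.mem_map.1 hk'
    show dot σ (rv (k j)) = 0
    rw [hk, dot_sub, dot_smul, dot_smul, hdot, hdot]
    ring

/-- the generators in the Lie algebra of the isotropy group vanish -/
lemma X_eq_zero_of_fix {S : Submodule ℝ (Fin m → ℝ)} {y : P} (hy : y ∈ A.Fix S)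
    {κ : Fin m → ℝ} (hκ : κ ∈ S) : A.X κ y = 0 := by
  have h1 := A.hasMFDerivAt_fam_zero κ y
  have h2 : (fun t : ℝ => A.fam κ (t, y)) = fun _ => y := by
    ext1 t
    exact A.fam_of_mem hy hκ t
  rw [h2] at h1
  have h3 := hasMFDerivAt_unique h1 (hasMFDerivAt_const y (0:ℝ))
  have h4 := DFunLike.congr_fun h3 (1:ℝ)
  have h5 : ((1 : ℝ →L[ℝ] ℝ) 1 • (A.X κ y : E) : E) = 0 := h4
  have h6 : ((1 : ℝ →L[ℝ] ℝ) 1 • (A.X κ y : E) : E) = A.X κ y := by
    show (1:ℝ) • (A.X κ y : E) = _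
    rw [one_smul]
  exact h6.symm.trans h5

lemma fam_eq_of_X_eq_zero [T2Space P] {κ : Fin m → ℝ} {y : P} (h : A.X κ y = 0) (t : ℝ) :
    A.fam κ (t, y) = y := by
  have : IsManifold 𝓘(ℝ, E) 1 P := IsManifold.of_le (n := ∞) (by simp)
  have h1 : IsMIntegralCurve (I := 𝓘(ℝ, E)) (fun _ : ℝ => y) (A.X κ) := by
    intro s
    have h2 : HasMFDerivAt 𝓘(ℝ, ℝ) 𝓘(ℝ, E) (fun _ : ℝ => y) s (0 : ℝ →L[ℝ] E) :=
      hasMFDerivAt_const y s
    refine h2.congr_mfderiv ?_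
    rw [h]
    refine ContinuousLinearMap.ext fun (r : ℝ) => ?_
    show (0:E) = r • (0:E)
    rw [smul_zero]
  have h2 : (fun t : ℝ => A.fam κ (t, y)) = fun _ => y :=
    isMIntegralCurve_Ioo_eq_of_contMDiff_boundaryless (t₀ := 0)
      ((A.smooth_X κ).of_le (by simp)) (A.integral κ y) h1 (A.fam_zero κ y)
  exact congrFun h2 t

lemma X_on_fix {σ : Fin m → ℤ} (hσ : σ ≠ 0) {y : P} (hy : y ∈ A.Fix (kerS σ))
    (κ : Fin m → ℝ) : A.X κ y = (dot σ κ / dot σ (rv σ)) • A.X (rv σ) y := by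
  have hp := dot_self_pos hσ
  have h1 : κ - (dot σ κ / dot σ (rv σ)) • rv σ ∈ kerS σ := by
    rw [mem_kerS, dot_sub, dot_smul]
    field_simp
    ring
  have h2 := A.X_eq_zero_of_fix hy h1
  have h3 : A.X κ y = A.X (κ - (dot σ κ / dot σ (rv σ)) • rv σ) y +
      A.X ((dot σ κ / dot σ (rv σ)) • rv σ) y := by
    rw [← A.X_add, sub_add_cancel]
  rw [h3, h2, zero_add, A.X_smul]

lemma H_on_fix {σ : Fin m → ℤ} (hσ : σ ≠ 0) {y : P} (hy : y ∈ A.Fix (kerS σ))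
    (κ : Fin m → ℝ) : A.H κ y = dot σ κ * (A.H (rv σ) y / dot σ (rv σ)) := by
  unfold H
  rw [A.X_on_fix hσ hy κ, map_smul, smul_eq_mul]
  ring

/-- The group normalises the torus and preserves the form. -/
structure Norm (A : TS β m) (Γ : Type*) [Group Γ] [MulAction Γ P] : Prop where
  strict : ∀ (γ : Γ) (x : P) (u : TangentSpace 𝓘(ℝ, E) x),
    β (γ • x) (mfderiv 𝓘(ℝ, E) 𝓘(ℝ, E) (fun x : P => γ • x) x u) = β x u
  norm : ∀ γ : Γ, ∃ B : Matrix (Fin m) (Fin m) ℤ, ∀ (θ : Fin m → ℝ) (x : P),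
    γ • A.act θ x = A.act ((B.map (Int.cast : ℤ → ℝ)).mulVec θ) (γ • x)

variable {Γ : Type*} [Group Γ] [MulAction Γ P]

lemma H_equiv {n : ℕ} {ι : Imm (E := E) P n} (𝒟 : Deck ι Γ) (hN : A.Norm Γ) (γ : Γ) :
    ∃ B : Matrix (Fin m) (Fin m) ℤ, (∀ (θ : Fin m → ℝ) (x : P),
      γ • A.act θ x = A.act ((B.map (Int.cast : ℤ → ℝ)).mulVec θ) (γ • x)) ∧
      ∀ (κ : Fin m → ℝ) (x : P),
      A.H ((B.map (Int.cast : ℤ → ℝ)).mulVec κ) (γ • x) = A.H κ x := by
  obtain ⟨B, hB⟩ := hN.norm γ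
  refine ⟨B, hB, fun κ x => ?_⟩
  refine A.H_push (𝒟.smooth γ) ?_ (hN.strict γ) x
  intro t y
  unfold fam
  show γ • A.act (t • κ) y = _
  rw [hB, Matrix.mulVec_smul]

/-- transport of a fixed covector -/
lemma transport {n : ℕ} {ι : Imm (E := E) P n} (𝒟 : Deck ι Γ) (hN : A.Norm Γ) (γ : Γ)
    {σ : Fin m → ℤ} (hσ : σ ≠ 0) {y : P} (hy : y ∈ A.Fix (kerS σ))
    (hH : A.H (rv σ) y ≠ 0) :
    ∃ σ' : Fin m → ℤ, σ' ≠ 0 ∧ γ • y ∈ A.Fix (kerS σ') ∧
      A.H (rv σ') (γ • y) / dot σ' (rv σ') = A.H (rv σ) y / dot σ (rv σ) := by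
  obtain ⟨B, hB, hBH⟩ := A.H_equiv 𝒟 hN γ⁻¹
  set σ' : Fin m → ℤ := fun j => ∑ i, σ i * B i j with hσ'
  have hdot : ∀ θ : Fin m → ℝ, dot σ' θ = dot σ ((B.map (Int.cast : ℤ → ℝ)).mulVec θ) := by
    intro θ
    simp only [dot, hσ', Matrix.mulVec, dotProduct, Matrix.map_apply]
    push_cast
    simp_rw [Finset.sum_mul, Finset.mul_sum]
    rw [Finset.sum_comm]
    refine Finset.sum_congr rfl fun i _ => Finset.sum_congr rfl fun j _ => by ring
  have hHγ : ∀ κ : Fin m → ℝ, A.H κ (γ • y) = dot σ' κ * (A.H (rv σ) y / dot σ (rv σ)) := by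
    intro κ
    have h1 := hBH κ (γ • y)
    rw [inv_smul_smul] at h1
    rw [← h1, A.H_on_fix hσ hy, hdot]
  have hfix : γ • y ∈ A.Fix (kerS σ') := by
    intro θ hθ
    rw [mem_kerS, hdot] at hθ
    have h1 := hB θ (γ • y)
    rw [inv_smul_smul, hy _ (mem_kerS.2 hθ)] at h1
    have h2 := congrArg (fun z => γ • z) h1
    simpa using h2
  have hσ0 : σ' ≠ 0 := by
    intro h0
    apply hH
    obtain ⟨B', -, hB'H⟩ := A.H_equiv 𝒟 hN γ
    rw [← hB'H (rv σ) y, hHγ, h0]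
    simp [dot]
  refine ⟨σ', hσ0, hfix, ?_⟩
  rw [hHγ (rv σ')]
  have := dot_self_pos hσ0
  field_simp

/-- the maximum of the absolute momentum over all points with one-dimensional orbits -/
lemma exists_max {n : ℕ} {ι : Imm (E := E) P n} [T2Space P] (c : CD β R)
    (𝒟 : Deck ι Γ) (hN : A.Norm Γ)
    {ρ : Fin m → ℤ} (hρ : ρ ≠ 0) {x : P} (hx : x ∈ A.Fix (kerS ρ)) (hH : A.H (rv ρ) x ≠ 0) :
    ∃ (σ : Fin m → ℤ) (y : P), σ ≠ 0 ∧ y ∈ A.Fix (kerS σ) ∧ A.H (rv σ) y ≠ 0 ∧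
      ∀ z ∈ A.Fix (kerS σ), |A.H (rv σ) z| ≤ |A.H (rv σ) y| := by
  have hcont : ∀ κ, Continuous (A.H κ) := fun κ => (A.smooth_H c.contact.smooth κ).continuous
  -- a bound for the momentum on the fundamental domain
  obtain ⟨C, hC⟩ : ∃ C : ℝ, ∀ y ∈ 𝒟.D, ∀ i, |A.H (Pi.single i 1) y| ≤ C := by
    have h1 : ∀ i : Fin m, ∃ C : ℝ, ∀ y ∈ 𝒟.D, |A.H (Pi.single i 1) y| ≤ C := by
      intro i
      obtain ⟨C, hC⟩ := 𝒟.compact.exists_bound_of_continuousOn (hcont (Pi.single i 1)).continuousOn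
      exact ⟨C, fun y hy => by simpa using hC y hy⟩
    choose C hC using h1
    refine ⟨∑ i, |C i|, fun y hy i => (hC i y hy).trans ?_⟩
    exact (le_abs_self _).trans (Finset.single_le_sum (fun j _ => abs_nonneg (C j))
      (Finset.mem_univ i))
  set tt : (Fin m → ℤ) → P → ℝ := fun σ y => A.H (rv σ) y / dot σ (rv σ) with htt
  have hbd : ∀ σ : Fin m → ℤ, σ ≠ 0 → ∀ y ∈ 𝒟.D, y ∈ A.Fix (kerS σ) → ∀ i,
      |(σ i : ℝ)| * |tt σ y| ≤ C := by
    intro σ hσ y hy hyS i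
    rw [← abs_mul]
    have h1 := A.H_on_fix hσ hyS (Pi.single i 1)
    have h2 : dot σ (Pi.single i 1 : Fin m → ℝ) = σ i := by simp [dot, Pi.single_apply]
    rw [h2] at h1
    rw [← h1]
    exact hC y hy i
  set τ : ℝ := |tt ρ x| with hτ
  have hτ0 : 0 < τ := by
    rw [hτ, htt, abs_pos]
    exact div_ne_zero hH (dot_self_pos hρ).ne'
  obtain ⟨N, hN'⟩ := exists_nat_ge (C / τ)
  set F : Set (Fin m → ℤ) := {σ | σ ≠ 0 ∧ ∀ i, |(σ i : ℝ)| ≤ N} with hF
  have hFfin : F.Finite := by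
    refine (Set.finite_Icc (fun _ => -(N:ℤ)) (fun _ : Fin m => (N:ℤ))).subset ?_
    rintro k' ⟨-, h3⟩
    constructor
    · intro i
      have := (abs_le.1 (h3 i)).1
      exact_mod_cast this
    · intro i
      have := (abs_le.1 (h3 i)).2
      exact_mod_cast this
  have hmove : ∀ (σ : Fin m → ℤ) (z : P), σ ≠ 0 → z ∈ A.Fix (kerS σ) → τ ≤ |tt σ z| →
      ∃ σ' ∈ F, ∃ z' ∈ 𝒟.D ∩ A.Fix (kerS σ'), tt σ' z' = tt σ z := by
    intro σ z hσ hz hle
    obtain ⟨γ, hγ⟩ := 𝒟.cover z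
    have hHz : A.H (rv σ) z ≠ 0 := by
      intro h0
      have h1 : tt σ z = 0 := by rw [htt]; simp [h0]
      rw [h1, abs_zero] at hle
      exact absurd hle (not_le.2 hτ0)
    obtain ⟨σ', h1, h2, h3⟩ := A.transport 𝒟 hN γ hσ hz hHz
    refine ⟨σ', ⟨h1, fun i => ?_⟩, γ • z, ⟨hγ, h2⟩, h3⟩
    have h4 := hbd σ' h1 _ hγ h2 i
    have h5 : tt σ' (γ • z) = tt σ z := h3
    rw [h5] at h4
    refine le_trans ?_ hN'
    rw [le_div_iff₀ hτ0]
    exact (mul_le_mul_of_nonneg_left hle (abs_nonneg _)).trans h4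
  have hcomp : IsCompact (⋃ σ ∈ F, (fun y => |tt σ y|) '' (𝒟.D ∩ A.Fix (kerS σ))) := by
    refine hFfin.isCompact_biUnion fun σ _ => ?_
    refine (𝒟.compact.inter_right (A.isClosed_Fix _)).image ?_
    exact ((hcont (rv σ)).div_const _).abs
  have hne : (⋃ σ ∈ F, (fun y => |tt σ y|) '' (𝒟.D ∩ A.Fix (kerS σ))).Nonempty := by
    obtain ⟨σ', h1, z', h2, h3⟩ := hmove ρ x hρ hx le_rfl
    exact ⟨|tt σ' z'|, mem_biUnion h1 (mem_image_of_mem _ h2)⟩
  obtain ⟨s, hs, hmax⟩ := hcomp.exists_isGreatest hne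
  have hτs : τ ≤ s := by
    obtain ⟨σ', h1, z', h2, h3⟩ := hmove ρ x hρ hx le_rfl
    have := hmax (mem_biUnion h1 (mem_image_of_mem (fun y => |tt σ' y|) h2))
    simp only [h3] at this
    exact this
  simp only [mem_iUnion, mem_image] at hs
  obtain ⟨σ, hσF, y, ⟨hyD, hyS⟩, hys⟩ := hs
  have hσ := hσF.1
  have hp := dot_self_pos hσ
  refine ⟨σ, y, hσ, hyS, ?_, ?_⟩
  · intro h0
    have h1 : tt σ y = 0 := by rw [htt]; simp [h0]
    rw [h1, abs_zero] at hys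
    linarith
  · intro z hz
    have hle : |tt σ z| ≤ s := by
      by_contra hlt
      push Not at hlt
      obtain ⟨σ', h1, z', h2, h3⟩ := hmove σ z hσ hz (hτs.trans hlt.le)
      have := hmax (mem_biUnion h1 (mem_image_of_mem (fun y => |tt σ' y|) h2))
      simp only [h3] at this
      linarith
    rw [← hys] at hle
    simp only [htt, abs_div, abs_of_pos hp] at hle
    exact (div_le_div_iff_of_pos_right hp).1 hle

/-- **Closed orbits from one-dimensional torus orbits.** -/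
theorem closed_of_circle {n : ℕ} {ι : Imm (E := E) P n} [T2Space P] (c : CD β R)
    (𝒟 : Deck ι Γ) (hN : A.Norm Γ)
    {ρ : Fin m → ℤ} (hρ : ρ ≠ 0) {x : P} (hx : x ∈ A.Fix (kerS ρ))
    (hX : A.X (rv ρ) x ≠ 0) :
    ∃ (c : ℝ → P) (T : ℝ), 0 < T ∧ IsMIntegralCurve (I := 𝓘(ℝ, E)) c R ∧
      ∀ t, c (t + T) = c t := by
  obtain ⟨x', hx', hH⟩ : ∃ x' ∈ A.Fix (kerS ρ), A.H (rv ρ) x' ≠ 0 := by
    by_cases h0 : A.H (rv ρ) x = 0
    · obtain ⟨ε, hε, γ, hγ0, hγS, a, ha, hder⟩ := A.exists_curve_dH c ι (rational_kerS hρ) hx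
        (κ := rv ρ) (by rw [h0, zero_smul]; exact hX)
      by_contra hno
      push Not at hno
      apply ha
      have h1 : (fun t => A.H (rv ρ) (γ t)) =ᶠ[𝓝 0] fun _ => 0 := by
        filter_upwards [Ioo_mem_nhds (show -ε < 0 by linarith) hε] with t ht
        exact hno _ (hγS t ht)
      exact hder.unique ((hasDerivAt_const (0:ℝ) (0:ℝ)).congr_of_eventuallyEq h1)
    · exact ⟨x, hx, h0⟩
  obtain ⟨σ, y, hσ, hy, hHy, hmax⟩ := A.exists_max c 𝒟 hN hρ hx' hH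
  have hXy : A.X (rv σ) y = A.H (rv σ) y • R y := by
    by_contra hne
    obtain ⟨ε, hε, γ, hγ0, hγS, a, ha, hder⟩ := A.exists_curve_dH c ι (rational_kerS hσ) hy hne
    apply ha
    have hle : ∀ᶠ t in 𝓝 (0:ℝ), |A.H (rv σ) (γ t)| ≤ |A.H (rv σ) (γ 0)| := by
      filter_upwards [Ioo_mem_nhds (show -ε < 0 by linarith) hε] with t ht
      rw [hγ0]
      exact hmax _ (hγS t ht)
    have hγ0' : A.H (rv σ) (γ 0) = A.H (rv σ) y := by rw [hγ0]
    rcases lt_or_gt_of_ne hHy with h0 | h0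
    · have h1 : IsLocalMin (fun t => A.H (rv σ) (γ t)) 0 := by
        filter_upwards [hle] with t ht
        rw [hγ0', abs_of_neg h0] at ht
        rw [hγ0']
        have := neg_abs_le (A.H (rv σ) (γ t))
        linarith
      exact h1.hasDerivAt_eq_zero hder
    · have h1 : IsLocalMax (fun t => A.H (rv σ) (γ t)) 0 := by
        filter_upwards [hle] with t ht
        rw [hγ0', abs_of_pos h0] at ht
        rw [hγ0']
        exact (le_abs_self _).trans ht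
      exact h1.hasDerivAt_eq_zero hder
  have hcrit : dForm 𝓘(ℝ, E) (A.H (fun i => (σ i : ℝ))) y = 0 := by
    refine ContinuousLinearMap.ext fun u => ?_
    rw [A.dH c.contact.smooth]
    have h1 : extDerL 𝓘(ℝ, E) β y (A.X (rv σ) y) u = A.H (rv σ) y * extDerL 𝓘(ℝ, E) β y (R y) u := by
      rw [hXy, map_smul]; rfl
    rw [extDerL_apply, extDerL_apply, c.reeb.kernel, mul_zero] at h1
    show - extDer 𝓘(ℝ, E) β y (A.X (rv σ) y) u = _
    rw [h1, neg_zero]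
    rfl
  exact A.closed_of_crit c.contact c.reeb hHy hcrit

end TS

end Pool.Agent.TH607
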