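import Mathlib
import Pool.Agent.TH607.Fx.Circle

/-! Rationality of the isotropy algebra of a one-dimensional torus orbit. -/

open scoped Topology ContDiff Manifold
open Set Metric Bundle Pool.Agent.Helper186 Pool.Agent.H826R2.Wein

noncomputable section

namespace Pool.Agent.TH607

set_option linter.unusedSectionVars false

universe u

variable {E : Type u} [NormedAddCommGroup E] [NormedSpace ℝ E] [FiniteDimensional ℝ E]
  {P : Type*} [TopologicalSpace P] [ChartedSpace E P] [IsManifold 𝓘(ℝ, E) ∞ P]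
  {β : (x : P) → TangentSpace 𝓘(ℝ, E) x →L[ℝ] ℝ} {R : (x : P) → TangentSpace 𝓘(ℝ, E) x}

namespace TS

variable {m : ℕ} (A : TS β m)

/-- the infinitesimal action as a linear map -/
def XL (x : P) : (Fin m → ℝ) →ₗ[ℝ] E where
  toFun κ := A.X κ x
  map_add' κ κ' := A.X_add κ κ' x
  map_smul' c κ := A.X_smul c κ x

lemma XL_apply (x : P) (κ : Fin m → ℝ) : A.XL x κ = A.X κ x := rfl

/-- the stabiliser -/
def stab (x : P) : AddSubgroup (Fin m → ℝ) where
  carrier := {θ | A.act θ x = x}
  add_mem' := by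
    intro a b ha hb
    show A.act (a + b) x = x
    rw [A.add, show A.act b x = x from hb, show A.act a x = x from ha]
  zero_mem' := A.zero x
  neg_mem' := by
    intro a ha
    show A.act (-a) x = x
    have h1 : A.act a x = x := ha
    conv_lhs => rw [← h1]
    rw [← A.add, neg_add_cancel, A.zero]

lemma mem_stab {x : P} {θ : Fin m → ℝ} : θ ∈ A.stab x ↔ A.act θ x = x := Iff.rfl

lemma ker_le_stab [T2Space P] (x : P) {θ : Fin m → ℝ} (h : A.XL x θ = 0) : θ ∈ A.stab x := by
  have h1 := A.fam_eq_of_X_eq_zero (κ := θ) (y := x) h 1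
  simp only [fam, one_smul] at h1
  exact h1

lemma isClosed_stab [T2Space P] (x : P) : IsClosed (A.stab x : Set (Fin m → ℝ)) :=
  isClosed_eq (A.smooth_left x).continuous continuous_const

lemma int_mem_stab (x : P) (k : Fin m → ℤ) : rv k ∈ A.stab x := A.period k x

lemma XL_eq_zero_of_stab {x : P} (h : ∀ θ, θ ∈ A.stab x) : A.XL x = 0 := by
  refine LinearMap.ext fun κ => ?_
  have h1 : x ∈ A.Fix ⊤ := fun θ _ => h θ
  exact A.X_eq_zero_of_fix h1 Submodule.mem_top

/-- **Rationality.** A one-dimensional torus orbit has a rational isotropy algebra. -/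
lemma exists_covector [T2Space P] (x : P) (hr : Module.finrank ℝ (LinearMap.range (A.XL x)) = 1) :
    ∃ ρ : Fin m → ℤ, ρ ≠ 0 ∧ x ∈ A.Fix (kerS ρ) ∧ A.X (rv ρ) x ≠ 0 := by
  have e : LinearMap.range (A.XL x) ≃ₗ[ℝ] ℝ :=
    LinearEquiv.ofFinrankEq _ _ (by rw [hr, Module.finrank_self])
  let l : (Fin m → ℝ) →ₗ[ℝ] ℝ := (e : LinearMap.range (A.XL x) →ₗ[ℝ] ℝ).comp
    (LinearMap.rangeRestrict (A.XL x))
  have hl : ∀ θ, l θ = 0 ↔ A.XL x θ = 0 := by
    intro θ
    show e (LinearMap.rangeRestrict (A.XL x) θ) = 0 ↔ _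
    rw [LinearEquiv.map_eq_zero_iff, ← Subtype.coe_inj]
    rfl
  have hlc : Continuous l := LinearMap.continuous_of_finiteDimensional l
  obtain ⟨v₀, hv₀⟩ : ∃ v₀, l v₀ = 1 := by
    obtain ⟨v, hv⟩ := LinearMap.surjective_rangeRestrict (A.XL x) (e.symm 1)
    refine ⟨v, ?_⟩
    show e (LinearMap.rangeRestrict (A.XL x) v) = 1
    rw [hv, LinearEquiv.apply_symm_apply]
  have hker : ∀ θ, l θ = 0 → θ ∈ A.stab x := fun θ h => A.ker_le_stab x ((hl θ).1 h)
  have hmem : ∀ θ, θ ∈ A.stab x ↔ l θ • v₀ ∈ A.stab x := by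
    intro θ
    have h1 : θ - l θ • v₀ ∈ A.stab x := hker _ (by rw [map_sub, map_smul, hv₀]; simp)
    constructor
    · intro h
      have := (A.stab x).sub_mem h h1
      simpa using this
    · intro h
      have := (A.stab x).add_mem h1 h
      simpa using this
  let Λ : AddSubgroup ℝ := (A.stab x).map (l : (Fin m → ℝ) →+ ℝ)
  have hΛ : ∀ r : ℝ, r ∈ Λ ↔ r • v₀ ∈ A.stab x := by
    intro r
    constructor
    · rintro ⟨θ, hθ, rfl⟩
      exact (hmem θ).1 hθ
    · intro h
      refine ⟨r • v₀, h, ?_⟩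
      show l (r • v₀) = r
      rw [map_smul, hv₀]
      simp
  have hclosed : IsClosed (Λ : Set ℝ) := by
    have h1 : (Λ : Set ℝ) = (fun r : ℝ => r • v₀) ⁻¹' (A.stab x : Set (Fin m → ℝ)) := by
      ext r; exact hΛ r
    rw [h1]
    exact (A.isClosed_stab x).preimage (by fun_prop)
  rcases AddSubgroup.dense_or_cyclic Λ with hd | ⟨a, ha⟩
  · exfalso
    have h1 : (Λ : Set ℝ) = univ := by
      rw [← hclosed.closure_eq]
      exact hd.closure_eq
    have h2 : ∀ θ, θ ∈ A.stab x := by
      intro θ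
      rw [hmem, ← hΛ]
      have : l θ ∈ (Λ : Set ℝ) := by rw [h1]; exact mem_univ _
      exact this
    have h3 := A.XL_eq_zero_of_stab h2
    have h4 := (hl v₀).2 (by rw [h3]; rfl)
    rw [hv₀] at h4
    exact one_ne_zero h4
  · have h1 : ∀ i : Fin m, ∃ n : ℤ, l (Pi.single i 1) = n * a := by
      intro i
      have h2 : (Pi.single i 1 : Fin m → ℝ) ∈ A.stab x := by
        have := A.int_mem_stab x (Pi.single i 1)
        have e1 : (rv (Pi.single i 1 : Fin m → ℤ) : Fin m → ℝ) = Pi.single i 1 := by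
          ext j
          simp only [rv, Pi.single_apply]
          split_ifs <;> simp
        rwa [e1] at this
      have h3 : l (Pi.single i 1) ∈ Λ := ⟨_, h2, rfl⟩
      rw [ha, AddSubgroup.mem_closure_singleton] at h3
      obtain ⟨n, hn⟩ := h3
      exact ⟨n, by rw [← hn]; simp⟩
    choose ρ hρ using h1
    have hlθ : ∀ θ, l θ = a * dot ρ θ := by
      intro θ
      have h2 : θ = ∑ i, θ i • (Pi.single i 1 : Fin m → ℝ) := by
        ext j
        simp [Finset.sum_apply, Pi.single_apply]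
      conv_lhs => rw [h2]
      rw [map_sum, dot, Finset.mul_sum]
      refine Finset.sum_congr rfl fun i _ => ?_
      rw [map_smul, hρ, smul_eq_mul]
      ring
    have hρ0 : ρ ≠ 0 := by
      intro h0
      have := hlθ v₀
      rw [hv₀, h0] at this
      simp [dot] at this
    have ha0 : a ≠ 0 := by
      intro h0
      have := hlθ v₀
      rw [hv₀, h0, zero_mul] at this
      exact one_ne_zero this
    refine ⟨ρ, hρ0, ?_, ?_⟩
    · intro θ hθ
      apply hker
      rw [hlθ, mem_kerS.1 hθ, mul_zero]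
    · intro h0
      have h2 := (hl (rv ρ)).2 h0
      rw [hlθ] at h2
      rcases mul_eq_zero.1 h2 with h | h
      · exact ha0 h
      · exact (dot_self_pos hρ0).ne' h

end TS

end Pool.Agent.TH607
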