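import Mathlib
import Pool.Agent.TH607.Fx.Cov

/-! Curves in the fixed point set of a subtorus with a given invariant velocity. -/

open scoped Topology ContDiff Manifold
open Set Metric Bundle Pool.Agent.Helper186 Pool.Agent.H826R2.Wein

noncomputable section

namespace Pool.Agent.TH607

set_option linter.unusedSectionVars false

universe u

variable {E : Type u} [NormedAddCommGroup E] [NormedSpace ℝ E] [FiniteDimensional ℝ E]
  {P : Type*} [TopologicalSpace P] [ChartedSpace E P] [IsManifold 𝓘(ℝ, E) ∞ P]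
  {β : (x : P) → TangentSpace 𝓘(ℝ, E) x →L[ℝ] ℝ} {R : (x : P) → TangentSpace 𝓘(ℝ, E) x}

namespace TS

variable {m : ℕ} (A : TS β m)

/-- the isotropy representation preserves the nondegenerate form -/
lemma HB_isotropy (hβ : SmoothForm β) {θ : Fin m → ℝ} {y : P} (hy : A.act θ y = y) (u v : E) :
    HB β y (mfderiv 𝓘(ℝ, E) 𝓘(ℝ, E) (A.act θ) y u : E)
      (mfderiv 𝓘(ℝ, E) 𝓘(ℝ, E) (A.act θ) y v : E) = HB β y u v := by
  have h1 := (A.cto θ).HB_push hβ y u v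
  have h2 : ∀ z : P, z = y → ∀ a b : E, HB β z a b = HB β y a b := by rintro _ rfl a b; rfl
  exact (h2 _ hy _ _).symm.trans h1

/-- A nonfixed vector of the isotropy representation gives nonfixed points. -/
lemma exists_moved [T2Space P] (c : CD β R) {n : ℕ} (ι : Imm (E := E) P n)
    {S : Submodule ℝ (Fin m → ℝ)} (hS : Rational S) {y : P} (hy : y ∈ A.Fix S) {v : E}
    (hv : ∀ θ ∈ S, (mfderiv 𝓘(ℝ, E) 𝓘(ℝ, E) (A.act θ) y v : E) = v)
    {θ' : Fin m → ℝ} (hθ' : (mfderiv 𝓘(ℝ, E) 𝓘(ℝ, E) (A.act θ') y v : E) ≠ v) :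
    ∃ z ∈ A.Fix S, A.act θ' z ≠ z := by
  let l : E →L[ℝ] ℝ := (β y v) • (show E →L[ℝ] ℝ from β y) - (show E →L[ℝ] ℝ from HB β y v)
  have hl : ∀ u : E, l u = β y v * β y u - HB β y v u := fun u => rfl
  obtain ⟨f, hf, hfy, hfl⟩ := exists_fun ι y (β y v) l
  obtain ⟨g, hg, hgS, hgy, hgC⟩ := A.exists_inv hS hf hy (univ : Set E)
    (fun θ hθ u _ => by
      refine ⟨mem_univ _, ?_⟩
      rw [hfl, hfl, hl, hl]
      have h1 : HB β y v (mfderiv 𝓘(ℝ, E) 𝓘(ℝ, E) (A.act θ) y u : E) = HB β y v u := by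
        have h2 := A.HB_isotropy c.contact.smooth (hy θ hθ) v u
        have h3 : HB β y (mfderiv 𝓘(ℝ, E) 𝓘(ℝ, E) (A.act θ) y v : E)
          (mfderiv 𝓘(ℝ, E) 𝓘(ℝ, E) (A.act θ) y u : E) =
          HB β y v (mfderiv 𝓘(ℝ, E) 𝓘(ℝ, E) (A.act θ) y u : E) :=
          congrArg (fun w : E => HB β y w (mfderiv 𝓘(ℝ, E) 𝓘(ℝ, E) (A.act θ) y u : E)) (hv θ hθ)
        exact h3.symm.trans h2
      have h4 : β y (mfderiv 𝓘(ℝ, E) 𝓘(ℝ, E) (A.act θ) y u : E) = β y u := by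
        have h5 := A.strict θ y u
        have h6 : ∀ z : P, z = y → ∀ a : E, β z a = β y a := by rintro _ rfl a; rfl
        exact (h6 _ (hy θ hθ) _).symm.trans h5
      rw [h1, h4])
  have hvel : (c.X g y : E) = v := by
    symm
    apply c.X_unique
    intro u
    have h1 := hgC u (mem_univ _)
    rw [h1, hgy, hfy, hfl, hl]
    ring
  obtain ⟨ε, hε, γ, hγ0, hγS, hγ⟩ := A.exists_curve_fix (c.smooth_X hg)
    (fun θ hθ x => A.push_cX c hg (hgS θ hθ) x) hy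
  by_contra hno
  push Not at hno
  apply hθ'
  have h0 := hγ 0 ⟨by linarith, hε⟩
  have h1 := HasMFDerivAt.comp (0:ℝ) (g := A.act θ') (f := γ)
      ((A.smooth_right θ').mdifferentiableAt (by simp)).hasMFDerivAt h0
  have h2 : (A.act θ' ∘ γ) =ᶠ[𝓝 0] γ := by
    filter_upwards [Ioo_mem_nhds (show -ε < 0 by linarith) hε] with t ht
    exact hno _ (hγS t ht)
  have h3 := h0.congr_of_eventuallyEq h2
  have h4 := hasMFDerivAt_unique h1 h3
  have h5 := DFunLike.congr_fun h4 (1:ℝ)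
  have h6 : (mfderiv 𝓘(ℝ, E) 𝓘(ℝ, E) (A.act θ') (γ 0) ((1:ℝ) • c.X g (γ 0)) : E) =
      (1:ℝ) • c.X g (γ 0) := h5
  rw [one_smul] at h6
  have h7 : ∀ z : P, z = y → (mfderiv 𝓘(ℝ, E) 𝓘(ℝ, E) (A.act θ') z (c.X g z) : E) =
      c.X g z → (mfderiv 𝓘(ℝ, E) 𝓘(ℝ, E) (A.act θ') y (c.X g y) : E) = c.X g y := by
    rintro _ rfl h; exact h
  have h8 := h7 _ hγ0 h6
  have h9 : (mfderiv 𝓘(ℝ, E) 𝓘(ℝ, E) (A.act θ') y (c.X g y) : E) =
    mfderiv 𝓘(ℝ, E) 𝓘(ℝ, E) (A.act θ') y v :=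
    congrArg (fun w : E => (mfderiv 𝓘(ℝ, E) 𝓘(ℝ, E) (A.act θ') y w : E)) hvel
  exact h9.symm.trans (h8.trans hvel)

lemma rational_top : Rational (⊤ : Submodule ℝ (Fin m → ℝ)) := by
  refine ⟨(List.finRange m).map (fun i => Pi.single i 1), ?_⟩
  symm
  rw [eq_top_iff]
  intro θ _
  have h1 : θ = ∑ i, θ i • (rv (Pi.single i 1 : Fin m → ℤ) : Fin m → ℝ) := by
    ext j
    simp only [rv, Finset.sum_apply, Pi.smul_apply, Pi.single_apply, smul_eq_mul]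
    rw [Finset.sum_eq_single j]
    · simp
    · intro b _ hb
      simp [hb.symm]
    · simp
  rw [h1]
  refine Submodule.sum_mem _ fun i _ => Submodule.smul_mem _ _ (Submodule.subset_span ?_)
  exact ⟨Pi.single i 1, by simp, rfl⟩

/-- vector valued invariant functions -/
lemma exists_inv_vec {S : Submodule ℝ (Fin m → ℝ)} (hS : Rational S) {n : ℕ}
    (ι : Imm (E := E) P n) {y : P} (hy : y ∈ A.Fix S)
    (htriv : ∀ θ ∈ S, ∀ u : E, (mfderiv 𝓘(ℝ, E) 𝓘(ℝ, E) (A.act θ) y u : E) = u) :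
    ∃ G : P → EuclideanSpace ℝ (Fin n), ContMDiff 𝓘(ℝ, E) 𝓘(ℝ, EuclideanSpace ℝ (Fin n)) ∞ G ∧
      (∀ θ ∈ S, ∀ x, G (A.act θ x) = G x) ∧
      Function.Injective (mfderiv 𝓘(ℝ, E) 𝓘(ℝ, EuclideanSpace ℝ (Fin n)) G y) := by
  let pr : Fin n → EuclideanSpace ℝ (Fin n) →L[ℝ] ℝ := fun j => EuclideanSpace.proj j
  have hf : ∀ j, ContMDiff 𝓘(ℝ, E) 𝓘(ℝ, ℝ) ∞ (fun x => pr j (ι.F x)) :=
    fun j => (pr j).contMDiff.comp ι.smooth
  have h1 : ∀ j, ∃ g : P → ℝ, ContMDiff 𝓘(ℝ, E) 𝓘(ℝ, ℝ) ∞ g ∧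
      (∀ θ ∈ S, ∀ (x : P), g (A.act θ x) = g x) ∧
      (∀ u : E, dForm 𝓘(ℝ, E) g y u = dForm 𝓘(ℝ, E) (fun x => pr j (ι.F x)) y u) := by
    intro j
    obtain ⟨g, a, b, -, d⟩ := A.exists_inv hS (hf j) hy (univ : Set E)
      (fun θ hθ u _ => ⟨mem_univ _, congrArg
        (fun w : E => dForm 𝓘(ℝ, E) (fun x => pr j (ι.F x)) y w) (htriv θ hθ u)⟩)
    exact ⟨g, a, b, fun u => d u (mem_univ u)⟩
  choose g hg hgS hgd using h1
  let T : (Fin n → ℝ) →L[ℝ] EuclideanSpace ℝ (Fin n) :=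
    ((EuclideanSpace.equiv (Fin n) ℝ).symm : (Fin n → ℝ) →L[ℝ] EuclideanSpace ℝ (Fin n))
  have hsm : ContMDiff 𝓘(ℝ, E) 𝓘(ℝ, Fin n → ℝ) ∞ (fun x j => g j x) :=
    contMDiff_pi_space.2 hg
  refine ⟨fun x => T (fun j => g j x), T.contMDiff.comp hsm, ?_, ?_⟩
  · intro θ hθ x
    exact congrArg T (funext fun j => hgS j θ hθ x)
  · intro u v huv
    apply ι.inj y
    have hGsm : ContMDiff 𝓘(ℝ, E) 𝓘(ℝ, EuclideanSpace ℝ (Fin n)) ∞
      (fun x => T (fun j => g j x)) := T.contMDiff.comp hsm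
    have key : ∀ (j : Fin n) (w : TangentSpace 𝓘(ℝ, E) y),
        pr j (mfderiv 𝓘(ℝ, E) 𝓘(ℝ, EuclideanSpace ℝ (Fin n)) (fun x => T (fun j => g j x)) y w) =
        pr j (mfderiv 𝓘(ℝ, E) 𝓘(ℝ, EuclideanSpace ℝ (Fin n)) ι.F y w) := by
      intro j w
      have a1 : ∀ (G : P → EuclideanSpace ℝ (Fin n)),
          ContMDiff 𝓘(ℝ, E) 𝓘(ℝ, EuclideanSpace ℝ (Fin n)) ∞ G →
          dForm 𝓘(ℝ, E) (fun x => pr j (G x)) y w =
          pr j (mfderiv 𝓘(ℝ, E) 𝓘(ℝ, EuclideanSpace ℝ (Fin n)) G y w) := by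
        intro G hG
        have b1 : HasMFDerivAt 𝓘(ℝ, E) 𝓘(ℝ, EuclideanSpace ℝ (Fin n)) G y
            (mfderiv 𝓘(ℝ, E) 𝓘(ℝ, EuclideanSpace ℝ (Fin n)) G y) :=
          (hG.mdifferentiableAt (by simp)).hasMFDerivAt
        have b2 : HasMFDerivAt 𝓘(ℝ, EuclideanSpace ℝ (Fin n)) 𝓘(ℝ, ℝ) (pr j) (G y) (pr j) :=
          ((pr j).hasFDerivAt).hasMFDerivAt
        have b3 := (HasMFDerivAt.comp y b2 b1).mfderiv
        exact DFunLike.congr_fun b3 w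
      rw [← a1 _ hGsm, ← a1 _ ι.smooth, ← hgd j w]
      rfl
    have h2 : ∀ j, pr j (mfderiv 𝓘(ℝ, E) 𝓘(ℝ, EuclideanSpace ℝ (Fin n)) ι.F y u) =
        pr j (mfderiv 𝓘(ℝ, E) 𝓘(ℝ, EuclideanSpace ℝ (Fin n)) ι.F y v) := by
      intro j
      rw [← key j u, ← key j v]
      exact congrArg (pr j) huv
    exact PiLp.ext h2

/-- a smooth map with injective derivative is locally injective -/
lemma _root_.Pool.Agent.TH607.locally_injective {n : ℕ} {G : P → EuclideanSpace ℝ (Fin n)}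
    (hG : ContMDiff 𝓘(ℝ, E) 𝓘(ℝ, EuclideanSpace ℝ (Fin n)) ∞ G) {y : P}
    (hinj : Function.Injective (mfderiv 𝓘(ℝ, E) 𝓘(ℝ, EuclideanSpace ℝ (Fin n)) G y)) :
    ∃ U ∈ 𝓝 y, InjOn G U := by
  let D : E →ₗ[ℝ] EuclideanSpace ℝ (Fin n) :=
    (show E →L[ℝ] EuclideanSpace ℝ (Fin n) from
      mfderiv 𝓘(ℝ, E) 𝓘(ℝ, EuclideanSpace ℝ (Fin n)) G y)
  have hD : LinearMap.ker D = ⊥ := LinearMap.ker_eq_bot.2 hinj
  obtain ⟨g, hg⟩ := LinearMap.exists_leftInverse_of_injective D hD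
  let L : EuclideanSpace ℝ (Fin n) →L[ℝ] E := LinearMap.toContinuousLinearMap g
  let e := extChartAt 𝓘(ℝ, E) y
  let ψ : E → E := fun z => L (G (e.symm z))
  have h1 : ContDiffAt ℝ ∞ ψ (e y) := by
    have h2 : ContMDiffOn 𝓘(ℝ, E) 𝓘(ℝ, E) ∞ ψ e.target :=
      (L.contMDiff.comp hG).comp_contMDiffOn (contMDiffOn_extChartAt_symm y)
    have h3 := (contMDiffOn_iff_contDiffOn.1 h2)
    exact h3.contDiffAt (extChartAt_target_mem_nhds y)
  have h4 : HasFDerivAt ψ (ContinuousLinearMap.id ℝ E) (e y) := by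
    have h5 := (h1.differentiableAt (by simp)).hasFDerivAt
    have h6 : fderiv ℝ ψ (e y) = ContinuousLinearMap.id ℝ E := by
      ext u
      have h7 : fderiv ℝ ψ (e y) u = L (fderiv ℝ (G ∘ e.symm) (e y) u) := by
        have h8 : DifferentiableAt ℝ (G ∘ e.symm) (e y) := by
          have h2 : ContMDiffOn 𝓘(ℝ, E) 𝓘(ℝ, EuclideanSpace ℝ (Fin n)) ∞ (G ∘ e.symm) e.target :=
            hG.comp_contMDiffOn (contMDiffOn_extChartAt_symm y)
          exact ((contMDiffOn_iff_contDiffOn.1 h2).contDiffAt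
            (extChartAt_target_mem_nhds y)).differentiableAt (by simp)
        have h9 := (L.hasFDerivAt.comp (e y) h8.hasFDerivAt).fderiv
        exact DFunLike.congr_fun h9 u
      rw [h7, ← mfderiv_eq_fderiv_chart (hG.mdifferentiableAt (by simp)) u]
      exact DFunLike.congr_fun hg u
    rwa [h6] at h5
  have h5 : HasStrictFDerivAt ψ ((ContinuousLinearEquiv.refl ℝ E : E ≃L[ℝ] E) : E →L[ℝ] E)
      (e y) := by
    have := h1.hasStrictFDerivAt' h4 (by simp)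
    exact this
  let Φ := h5.toOpenPartialHomeomorph ψ
  have hΦ : Φ.source ∈ 𝓝 (e y) := Φ.open_source.mem_nhds h5.mem_toOpenPartialHomeomorph_source
  have hinjΦ : InjOn ψ Φ.source := Φ.injOn
  refine ⟨e.source ∩ e ⁻¹' Φ.source, ?_, ?_⟩
  · exact Filter.inter_mem (extChartAt_source_mem_nhds y)
      ((continuousAt_extChartAt y).preimage_mem_nhds hΦ)
  · rintro a ⟨ha1, ha2⟩ b ⟨hb1, hb2⟩ hab
    have h6 : ψ (e a) = ψ (e b) := by
      show L (G (e.symm (e a))) = L (G (e.symm (e b)))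
      rw [e.left_inv ha1, e.left_inv hb1, hab]
    have h7 := hinjΦ ha2 hb2 h6
    rw [← e.left_inv ha1, ← e.left_inv hb1, h7]

/-- every element of the torus has a representative in the unit cube -/
lemma act_fract (θ : Fin m → ℝ) (x : P) : A.act θ x = A.act (fun i => Int.fract (θ i)) x := by
  have h1 : θ = (fun i => Int.fract (θ i)) + fun i => ((⌊θ i⌋ : ℤ) : ℝ) := by
    ext i
    simp [Int.fract_add_floor]
  conv_lhs => rw [h1]
  rw [A.add, A.period]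

/-- If the isotropy representation at a fixed point is trivial then nearby points are fixed. -/
lemma fixed_near [T2Space P] {n : ℕ} (ι : Imm (E := E) P n) {y : P}
    (hy : ∀ θ, A.act θ y = y)
    (htriv : ∀ θ, ∀ u : E, (mfderiv 𝓘(ℝ, E) 𝓘(ℝ, E) (A.act θ) y u : E) = u) :
    ∀ᶠ z in 𝓝 y, ∀ θ, A.act θ z = z := by
  obtain ⟨G, hG, hGS, hGi⟩ := A.exists_inv_vec rational_top ι (y := y) (fun θ _ => hy θ)
    (fun θ _ => htriv θ)
  obtain ⟨U, hU, hUi⟩ := locally_injective hG hGi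
  -- tube lemma
  have hK : IsCompact (Icc (0 : Fin m → ℝ) 1) := isCompact_Icc
  have hcont : Continuous (fun p : (Fin m → ℝ) × P => A.act p.1 p.2) := A.smooth.continuous
  have h1 : ∀ᶠ z in 𝓝 y, ∀ θ ∈ Icc (0 : Fin m → ℝ) 1, A.act θ z ∈ U := by
    apply hK.eventually_forall_of_forall_eventually
    intro θ _
    have h2 : (fun p : P × (Fin m → ℝ) => A.act p.2 p.1) ⁻¹' U ∈ 𝓝 (y, θ) := by
      apply (hcont.comp (continuous_snd.prodMk continuous_fst)).continuousAt.preimage_mem_nhds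
      show U ∈ 𝓝 (A.act θ y)
      rw [hy θ]
      exact hU
    exact h2
  filter_upwards [h1, hU] with z hz hzU θ
  rw [A.act_fract]
  have h3 : (fun i => Int.fract (θ i)) ∈ Icc (0 : Fin m → ℝ) 1 :=
    ⟨fun i => Int.fract_nonneg _, fun i => (Int.fract_lt_one _).le⟩
  exact hUi (hz _ h3) hzU (hGS _ Submodule.mem_top z)

end TS

end Pool.Agent.TH607
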