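import Mathlib
import Pool.Agent.TH607.Fx.Vel

/-! The isotropy representation at a fixed point of a nontrivial torus action. -/

open scoped Topology ContDiff Manifold
open Set Metric Bundle Pool.Agent.Helper186 Pool.Agent.H826R2.Wein

noncomputable section

namespace Pool.Agent.TH607

set_option linter.unusedSectionVars false

section param

variable {E : Type*} [NormedAddCommGroup E] [NormedSpace ℝ E] [FiniteDimensional ℝ E]
  {W : Type*} [NormedAddCommGroup W] [NormedSpace ℝ W]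
  {M : Type*} [TopologicalSpace M] [ChartedSpace E M] [IsManifold 𝓘(ℝ, E) ∞ M]
  {G : Type*} [NormedAddCommGroup G] [NormedSpace ℝ G]

lemma contDiffOn_chart_paramW {k : W × M → G}
    (hk : ContMDiff (𝓘(ℝ, W).prod 𝓘(ℝ, E)) 𝓘(ℝ, G) ∞ k)
    (x₀ : M) : ContDiffOn ℝ ∞ (fun q : W × E => k (q.1, (extChartAt 𝓘(ℝ, E) x₀).symm q.2))
      (univ ×ˢ (extChartAt 𝓘(ℝ, E) x₀).target) := by
  have h1 : ContMDiffOn 𝓘(ℝ, W × E) (𝓘(ℝ, W).prod 𝓘(ℝ, E)) ∞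
      (fun q : W × E => (q.1, (extChartAt 𝓘(ℝ, E) x₀).symm q.2))
      (univ ×ˢ (extChartAt 𝓘(ℝ, E) x₀).target) := by
    apply ContMDiffOn.prodMk
    · exact contDiff_fst.contMDiff.contMDiffOn
    · exact (contMDiffOn_extChartAt_symm x₀).comp contDiff_snd.contMDiff.contMDiffOn
        (fun q hq => hq.2)
  rw [← contMDiffOn_iff_contDiffOn]
  exact hk.comp_contMDiffOn h1

lemma mfderiv_slice_eqW {k : W × M → G}
    (hk : ContMDiff (𝓘(ℝ, W).prod 𝓘(ℝ, E)) 𝓘(ℝ, G) ∞ k)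
    (s : W) (x₀ : M) (u : TangentSpace 𝓘(ℝ, E) x₀) :
    mfderiv 𝓘(ℝ, E) 𝓘(ℝ, G) (fun x => k (s, x)) x₀ u =
      fderiv ℝ (fun q : W × E => k (q.1, (extChartAt 𝓘(ℝ, E) x₀).symm q.2))
        (s, extChartAt 𝓘(ℝ, E) x₀ x₀) ((0:W), (show E from u)) := by
  have hkc := contDiffOn_chart_paramW hk x₀
  have hopen : IsOpen ((univ : Set W) ×ˢ (extChartAt 𝓘(ℝ, E) x₀).target) :=
    isOpen_univ.prod (isOpen_extChartAt_target x₀)
  have hmem : (s, extChartAt 𝓘(ℝ, E) x₀ x₀) ∈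
      (univ : Set W) ×ˢ (extChartAt 𝓘(ℝ, E) x₀).target :=
    ⟨mem_univ _, mem_extChartAt_target x₀⟩
  have h4 : MDifferentiableAt 𝓘(ℝ, E) 𝓘(ℝ, G) (fun x => k (s, x)) x₀ := by
    have : ContMDiff 𝓘(ℝ, E) 𝓘(ℝ, G) ∞ (fun x => k (s, x)) :=
      hk.comp (contMDiff_const.prodMk contMDiff_id)
    exact this.mdifferentiableAt (by simp)
  have h5 := mfderiv_eq_fderiv_chart h4 u
  have h6 : HasFDerivAt (fun q : W × E => k (q.1, (extChartAt 𝓘(ℝ, E) x₀).symm q.2))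
      (fderiv ℝ (fun q : W × E => k (q.1, (extChartAt 𝓘(ℝ, E) x₀).symm q.2))
        (s, extChartAt 𝓘(ℝ, E) x₀ x₀))
      (s, extChartAt 𝓘(ℝ, E) x₀ x₀) :=
    ((hkc.contDiffAt (hopen.mem_nhds hmem)).differentiableAt (by simp)).hasFDerivAt
  have h7 := (h6.comp (extChartAt 𝓘(ℝ, E) x₀ x₀) (hasFDerivAt_prodMk_right s _)).fderiv
  have h8 : ((fun x => k (s, x)) ∘ (extChartAt 𝓘(ℝ, E) x₀).symm) =
      (fun q : W × E => k (q.1, (extChartAt 𝓘(ℝ, E) x₀).symm q.2)) ∘ (fun y => (s, y)) := rfl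
  rw [h8, h7] at h5
  exact h5

lemma continuous_mfderiv_sliceW {k : W × M → G}
    (hk : ContMDiff (𝓘(ℝ, W).prod 𝓘(ℝ, E)) 𝓘(ℝ, G) ∞ k) (x₀ : M)
    (u : TangentSpace 𝓘(ℝ, E) x₀) :
    Continuous (fun s : W =>
      (show G from mfderiv 𝓘(ℝ, E) 𝓘(ℝ, G) (fun x => k (s, x)) x₀ u)) := by
  have hkc := contDiffOn_chart_paramW hk x₀
  have hopen : IsOpen ((univ : Set W) ×ˢ (extChartAt 𝓘(ℝ, E) x₀).target) :=
    isOpen_univ.prod (isOpen_extChartAt_target x₀)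
  have h1 : (fun s : W => (show G from mfderiv 𝓘(ℝ, E) 𝓘(ℝ, G) (fun x => k (s, x)) x₀ u)) =
      fun s => fderiv ℝ (fun q : W × E => k (q.1, (extChartAt 𝓘(ℝ, E) x₀).symm q.2))
        (s, extChartAt 𝓘(ℝ, E) x₀ x₀) ((0:W), (show E from u)) := by
    ext1 s
    exact mfderiv_slice_eqW hk s x₀ u
  rw [h1, ← continuousOn_univ]
  have hcf := hkc.continuousOn_fderiv_of_isOpen hopen (by simp)
  exact (hcf.clm_apply continuousOn_const).comp (by fun_prop)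
    (fun s _ => ⟨mem_univ _, mem_extChartAt_target x₀⟩)

/-- a smooth function vanishing on an open set has vanishing derivative on its closure -/
lemma dForm_zero_of_closure {h : M → ℝ} (hh : ContMDiff 𝓘(ℝ, E) 𝓘(ℝ, ℝ) ∞ h) {O : Set M}
    (hO : IsOpen O) (h0 : ∀ z ∈ O, h z = 0) {y : M} (hy : y ∈ closure O) (u : E) :
    dForm 𝓘(ℝ, E) h y u = 0 := by
  let e := extChartAt 𝓘(ℝ, E) y
  have h2 : ContMDiffOn 𝓘(ℝ, E) 𝓘(ℝ, ℝ) ∞ (h ∘ e.symm) e.target :=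
    hh.comp_contMDiffOn (contMDiffOn_extChartAt_symm y)
  have h3 := contMDiffOn_iff_contDiffOn.1 h2
  have h4 : ContinuousOn (fderiv ℝ (h ∘ e.symm)) e.target :=
    h3.continuousOn_fderiv_of_isOpen (isOpen_extChartAt_target y) (by simp)
  have h5 : ContinuousAt (fun z => fderiv ℝ (h ∘ e.symm) (e z)) y :=
    ContinuousAt.comp (f := e) (g := fderiv ℝ (h ∘ e.symm))
      (h4.continuousAt (extChartAt_target_mem_nhds y)) (continuousAt_extChartAt y)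
  have h6 : fderiv ℝ (h ∘ e.symm) (e y) = 0 := by
    by_contra hne
    have h7 : ∀ᶠ z in 𝓝 y, fderiv ℝ (h ∘ e.symm) (e z) ≠ 0 := h5.eventually_ne hne
    have h8 : ∀ᶠ z in 𝓝 y, z ∈ e.source := extChartAt_source_mem_nhds y
    obtain ⟨z, ⟨hz1, hz2⟩, hz3⟩ := ((h7.and h8).and_frequently
      (mem_closure_iff_frequently.1 hy)).exists
    apply hz1
    have h9 : (h ∘ e.symm) =ᶠ[𝓝 (e z)] fun _ => 0 := by
      have h10 : e.target ∈ 𝓝 (e z) := (isOpen_extChartAt_target y).mem_nhds (e.map_source hz2)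
      have h11 : ContinuousAt e.symm (e z) :=
        (continuousOn_extChartAt_symm y).continuousAt h10
      have h12 : e.symm ⁻¹' O ∈ 𝓝 (e z) := by
        apply h11.preimage_mem_nhds
        rw [e.left_inv hz2]
        exact hO.mem_nhds hz3
      filter_upwards [h12] with w hw
      exact h0 _ hw
    rw [h9.fderiv_eq]
    simp
  have h7 := mfderiv_eq_fderiv_chart (I := 𝓘(ℝ, E)) (hh.mdifferentiableAt (x := y) (by simp)) u
  have h8 : dForm 𝓘(ℝ, E) h y u = fderiv ℝ (h ∘ e.symm) (e y) u := h7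
  rw [h8, h6]
  rfl

end param

universe u

variable {E : Type u} [NormedAddCommGroup E] [NormedSpace ℝ E] [FiniteDimensional ℝ E]
  {P : Type*} [TopologicalSpace P] [ChartedSpace E P] [IsManifold 𝓘(ℝ, E) ∞ P]
  {β : (x : P) → TangentSpace 𝓘(ℝ, E) x →L[ℝ] ℝ} {R : (x : P) → TangentSpace 𝓘(ℝ, E) x}

namespace TS

variable {m : ℕ} (A : TS β m)

/-- components of the derivative of the immersion -/
lemma dForm_comp {n : ℕ} (ι : Imm (E := E) P n) (L : EuclideanSpace ℝ (Fin n) →L[ℝ] ℝ) (y : P)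
    (w : E) : dForm 𝓘(ℝ, E) (fun x => L (ι.F x)) y w = L (ι.D y w) := by
  have b1 : HasMFDerivAt 𝓘(ℝ, E) 𝓘(ℝ, EuclideanSpace ℝ (Fin n)) ι.F y (ι.D y) :=
    (ι.smooth.mdifferentiableAt (by simp)).hasMFDerivAt
  have b2 : HasMFDerivAt 𝓘(ℝ, EuclideanSpace ℝ (Fin n)) 𝓘(ℝ, ℝ) L (ι.F y) L :=
    (L.hasFDerivAt).hasMFDerivAt
  have b3 := (HasMFDerivAt.comp y b2 b1).mfderiv
  exact DFunLike.congr_fun b3 w

lemma dForm_comp_act {f : P → ℝ} (hf : ContMDiff 𝓘(ℝ, E) 𝓘(ℝ, ℝ) ∞ f) {θ : Fin m → ℝ} {y : P}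
    (hy : A.act θ y = y) (u : E) :
    dForm 𝓘(ℝ, E) (fun x => f (A.act θ x)) y u =
      dForm 𝓘(ℝ, E) f y (mfderiv 𝓘(ℝ, E) 𝓘(ℝ, E) (A.act θ) y u : E) := by
  have h3 : mfderiv 𝓘(ℝ, E) 𝓘(ℝ, ℝ) (f ∘ A.act θ) y =
      (mfderiv 𝓘(ℝ, E) 𝓘(ℝ, ℝ) f (A.act θ y)).comp
      (mfderiv 𝓘(ℝ, E) 𝓘(ℝ, E) (A.act θ) y) :=
    mfderiv_comp _ (hf.mdifferentiableAt (by simp))
      ((A.smooth_right θ).mdifferentiableAt (by simp))
  have h4 : dForm 𝓘(ℝ, E) (fun x => f (A.act θ x)) y u =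
      dForm 𝓘(ℝ, E) f (A.act θ y) (mfderiv 𝓘(ℝ, E) 𝓘(ℝ, E) (A.act θ) y u : E) :=
    DFunLike.congr_fun h3 u
  have h5 : ∀ (z : P), z = y → ∀ w : E, dForm 𝓘(ℝ, E) f z w = dForm 𝓘(ℝ, E) f y w := by
    rintro _ rfl w; rfl
  exact h4.trans (h5 _ hy _)

lemma isotropy_triv_of_closure [T2Space P] {n : ℕ} (ι : Imm (E := E) P n) {O : Set P}
    (hO : IsOpen O) {θ : Fin m → ℝ} (h0 : ∀ z ∈ O, A.act θ z = z) {y : P} (hy : y ∈ closure O)
    (u : E) : (mfderiv 𝓘(ℝ, E) 𝓘(ℝ, E) (A.act θ) y u : E) = u := by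
  have hyf : A.act θ y = y := by
    have hc : IsClosed {z | A.act θ z = z} :=
      isClosed_eq (A.smooth_right θ).continuous continuous_id
    exact hc.closure_subset_iff.2 h0 hy
  apply ι.inj y
  have key : ∀ j : Fin n, (EuclideanSpace.proj j : EuclideanSpace ℝ (Fin n) →L[ℝ] ℝ)
      (ι.D y (mfderiv 𝓘(ℝ, E) 𝓘(ℝ, E) (A.act θ) y u : E)) =
      (EuclideanSpace.proj j : EuclideanSpace ℝ (Fin n) →L[ℝ] ℝ) (ι.D y u) := by
    intro j
    set L : EuclideanSpace ℝ (Fin n) →L[ℝ] ℝ := EuclideanSpace.proj j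
    have hf : ContMDiff 𝓘(ℝ, E) 𝓘(ℝ, ℝ) ∞ (fun x => L (ι.F x)) := L.contMDiff.comp ι.smooth
    have hfθ : ContMDiff 𝓘(ℝ, E) 𝓘(ℝ, ℝ) ∞ (fun x => L (ι.F (A.act θ x))) :=
      hf.comp (A.smooth_right θ)
    have hneg : ContMDiff 𝓘(ℝ, E) 𝓘(ℝ, ℝ) ∞ (fun x => (-1) * L (ι.F x)) :=
      contMDiff_const.mul hf
    have h1 := dForm_zero_of_closure (hfθ.add hneg) hO (fun z hz => by
      show L (ι.F (A.act θ z)) + (-1) * L (ι.F z) = 0
      rw [h0 z hz]; ring) hy u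
    have h2 := CD.dForm_add hfθ hneg y u
    have h3 := CD.dForm_smul (-1) hf y u
    have h4 := A.dForm_comp_act hf hyf u
    have h5 : dForm 𝓘(ℝ, E) (fun x => L (ι.F (A.act θ x))) y u +
        dForm 𝓘(ℝ, E) (fun x => (-1) * L (ι.F x)) y u = 0 := h2.symm.trans h1
    have h6 : dForm 𝓘(ℝ, E) (fun x => L (ι.F (A.act θ x))) y u =
        L (ι.D y (mfderiv 𝓘(ℝ, E) 𝓘(ℝ, E) (A.act θ) y u : E)) :=
      h4.trans (dForm_comp ι L y _)
    have h7 : dForm 𝓘(ℝ, E) (fun x => (-1) * L (ι.F x)) y u = (-1) * L (ι.D y u) :=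
      h3.trans (congrArg (fun r => (-1) * r) (dForm_comp ι L y u))
    rw [h6, h7] at h5
    linarith
  exact PiLp.ext key

/-- The isotropy representation at a fixed point of a nontrivial action on a connected manifold is
nontrivial. -/
lemma exists_isotropy_ne [T2Space P] [ConnectedSpace P] {n : ℕ} (ι : Imm (E := E) P n) {y : P}
    (hy : ∀ θ, A.act θ y = y) (hne : ∃ θ z, A.act θ z ≠ z) :
    ∃ θ, ∃ u : E, (mfderiv 𝓘(ℝ, E) 𝓘(ℝ, E) (A.act θ) y u : E) ≠ u := by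
  by_contra hno
  push Not at hno
  set O : Set P := interior {z | ∀ θ, A.act θ z = z} with hO
  have hyO : y ∈ O := mem_interior_iff_mem_nhds.2 (A.fixed_near ι hy hno)
  have hOf : ∀ z ∈ O, ∀ θ, A.act θ z = z := fun z hz => interior_subset hz
  have hcl : IsClosed O := by
    rw [← closure_subset_iff_isClosed]
    intro z hz
    have h1 : ∀ θ, ∀ u : E, (mfderiv 𝓘(ℝ, E) 𝓘(ℝ, E) (A.act θ) z u : E) = u := fun θ u =>
      A.isotropy_triv_of_closure ι isOpen_interior (fun w hw => hOf w hw θ) hz u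
    have h2 : ∀ θ, A.act θ z = z := by
      intro θ
      have hc : IsClosed {z | A.act θ z = z} :=
        isClosed_eq (A.smooth_right θ).continuous continuous_id
      exact hc.closure_subset_iff.2 (fun w hw => hOf w hw θ) hz
    exact mem_interior_iff_mem_nhds.2 (A.fixed_near ι h2 h1)
  have hu : O = univ := IsClopen.eq_univ ⟨hcl, isOpen_interior⟩ ⟨y, hyO⟩
  obtain ⟨θ, z, hz⟩ := hne
  exact hz (hOf z (by rw [hu]; exact mem_univ z) θ)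

/-- the isotropy representation at a fixed point -/
def iso (y : P) (θ : Fin m → ℝ) : E →L[ℝ] E :=
  (show E →L[ℝ] E from mfderiv 𝓘(ℝ, E) 𝓘(ℝ, E) (A.act θ) y)

lemma iso_apply (y : P) (θ : Fin m → ℝ) (u : E) :
    A.iso y θ u = (mfderiv 𝓘(ℝ, E) 𝓘(ℝ, E) (A.act θ) y u : E) := rfl

lemma iso_of_id {y : P} {θ : Fin m → ℝ} (h : A.act θ = id) :
    A.iso y θ = ContinuousLinearMap.id ℝ E := by
  unfold iso
  have h1 : mfderiv 𝓘(ℝ, E) 𝓘(ℝ, E) (A.act θ) y = mfderiv 𝓘(ℝ, E) 𝓘(ℝ, E) (id : P → P) y := by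
    rw [h]
  refine ContinuousLinearMap.ext fun u => ?_
  have h2 := DFunLike.congr_fun h1 u
  rw [mfderiv_id] at h2
  exact h2

lemma iso_add {y : P} {θ' : Fin m → ℝ} (hy : A.act θ' y = y) (θ : Fin m → ℝ) :
    A.iso y (θ + θ') = (A.iso y θ).comp (A.iso y θ') := by
  have h1 : mfderiv 𝓘(ℝ, E) 𝓘(ℝ, E) (A.act θ ∘ A.act θ') y =
      (mfderiv 𝓘(ℝ, E) 𝓘(ℝ, E) (A.act θ) (A.act θ' y)).comp
      (mfderiv 𝓘(ℝ, E) 𝓘(ℝ, E) (A.act θ') y) :=
    mfderiv_comp _ ((A.smooth_right θ).mdifferentiableAt (by simp))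
      ((A.smooth_right θ').mdifferentiableAt (by simp))
  have h2 : A.act θ ∘ A.act θ' = A.act (θ + θ') := by
    ext1 x; exact (A.add θ θ' x).symm
  refine ContinuousLinearMap.ext fun u => ?_
  have h3 : ∀ z : P, z = y → ∀ w : E, (mfderiv 𝓘(ℝ, E) 𝓘(ℝ, E) (A.act θ) z w : E) =
      (mfderiv 𝓘(ℝ, E) 𝓘(ℝ, E) (A.act θ) y w : E) := by rintro _ rfl w; rfl
  have h4 : (mfderiv 𝓘(ℝ, E) 𝓘(ℝ, E) (A.act (θ + θ')) y u : E) =
      (mfderiv 𝓘(ℝ, E) 𝓘(ℝ, E) (A.act θ) (A.act θ' y)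
        (mfderiv 𝓘(ℝ, E) 𝓘(ℝ, E) (A.act θ') y u : E) : E) := by
    rw [← h2]
    exact DFunLike.congr_fun h1 u
  exact h4.trans (h3 _ hy _)

lemma continuous_iso {n : ℕ} (ι : Imm (E := E) P n) {y : P} (hy : ∀ θ, A.act θ y = y) :
    Continuous (A.iso y) := by
  rw [continuous_clm_apply]
  intro u
  let D : E →ₗ[ℝ] EuclideanSpace ℝ (Fin n) :=
    (show E →L[ℝ] EuclideanSpace ℝ (Fin n) from ι.D y)
  have hD : LinearMap.ker D = ⊥ := LinearMap.ker_eq_bot.2 (ι.inj y)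
  obtain ⟨g, hg⟩ := LinearMap.exists_leftInverse_of_injective D hD
  have hk : ContMDiff (𝓘(ℝ, Fin m → ℝ).prod 𝓘(ℝ, E)) 𝓘(ℝ, EuclideanSpace ℝ (Fin n)) ∞
      (fun p : (Fin m → ℝ) × P => ι.F (A.act p.1 p.2)) := ι.smooth.comp A.smooth
  have h1 := continuous_mfderiv_sliceW hk y u
  have h2 : (fun θ => A.iso y θ u) = fun θ => g ((show EuclideanSpace ℝ (Fin n) from
      mfderiv 𝓘(ℝ, E) 𝓘(ℝ, EuclideanSpace ℝ (Fin n)) (fun x => ι.F (A.act θ x)) y u)) := by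
    ext1 θ
    have h3 : mfderiv 𝓘(ℝ, E) 𝓘(ℝ, EuclideanSpace ℝ (Fin n)) (ι.F ∘ A.act θ) y =
        (mfderiv 𝓘(ℝ, E) 𝓘(ℝ, EuclideanSpace ℝ (Fin n)) ι.F (A.act θ y)).comp
        (mfderiv 𝓘(ℝ, E) 𝓘(ℝ, E) (A.act θ) y) :=
      mfderiv_comp _ (ι.smooth.mdifferentiableAt (by simp))
        ((A.smooth_right θ).mdifferentiableAt (by simp))
    have h5 : ∀ (z : P), z = y → ∀ w : E,
        (mfderiv 𝓘(ℝ, E) 𝓘(ℝ, EuclideanSpace ℝ (Fin n)) ι.F z w : EuclideanSpace ℝ (Fin n)) =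
        ι.D y w := by
      rintro _ rfl w; rfl
    have h6 : (mfderiv 𝓘(ℝ, E) 𝓘(ℝ, EuclideanSpace ℝ (Fin n)) (ι.F ∘ A.act θ) y u :
        EuclideanSpace ℝ (Fin n)) = ι.D y (A.iso y θ u) :=
      (DFunLike.congr_fun h3 u).trans (h5 _ (hy θ) _)
    have h7 : g (ι.D y (A.iso y θ u)) = A.iso y θ u := DFunLike.congr_fun hg (A.iso y θ u)
    rw [← h7, ← h6]
    rfl
  rw [h2]
  exact (LinearMap.continuous_of_finiteDimensional g).comp h1

end TS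

end Pool.Agent.TH607
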