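import Mathlib
import Pool.Agent.TH607.Fx.Conn

/-! Equivariant maps to the tangent space. -/

open scoped Topology ContDiff Manifold
open Set Metric Bundle Pool.Agent.Helper186 Pool.Agent.H826R2.Wein

noncomputable section

namespace Pool.Agent.TH607

set_option linter.unusedSectionVars false

section vec

variable {E : Type*} [NormedAddCommGroup E] [NormedSpace ℝ E] [FiniteDimensional ℝ E]
  {F : Type*} [NormedAddCommGroup F] [NormedSpace ℝ F]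
  {N : Type*} [TopologicalSpace N] [ChartedSpace F N]

lemma contMDiff_of_functionals {f : N → E}
    (h : ∀ l : E →L[ℝ] ℝ, ContMDiff 𝓘(ℝ, F) 𝓘(ℝ, ℝ) ∞ (fun x => l (f x))) :
    ContMDiff 𝓘(ℝ, F) 𝓘(ℝ, E) ∞ f := by
  let e : E ≃L[ℝ] (Fin (Module.finrank ℝ E) → ℝ) :=
    ContinuousLinearEquiv.ofFinrankEq (by simp)
  have h1 : ContMDiff 𝓘(ℝ, F) 𝓘(ℝ, Fin (Module.finrank ℝ E) → ℝ) ∞ (fun x => e (f x)) := by
    rw [contMDiff_pi_space]
    intro i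
    exact h ((ContinuousLinearMap.proj i : (Fin (Module.finrank ℝ E) → ℝ) →L[ℝ] ℝ).comp
      (e : E →L[ℝ] (Fin (Module.finrank ℝ E) → ℝ)))
  have h2 : ContMDiff 𝓘(ℝ, F) 𝓘(ℝ, E) ∞ (fun x => e.symm (e (f x))) :=
    (e.symm : (Fin (Module.finrank ℝ E) → ℝ) →L[ℝ] E).contMDiff.comp h1
  simpa using h2

end vec

universe u

variable {E : Type u} [NormedAddCommGroup E] [NormedSpace ℝ E] [FiniteDimensional ℝ E]
  {P : Type*} [TopologicalSpace P] [ChartedSpace E P] [IsManifold 𝓘(ℝ, E) ∞ P]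
  {β : (x : P) → TangentSpace 𝓘(ℝ, E) x →L[ℝ] ℝ} {R : (x : P) → TangentSpace 𝓘(ℝ, E) x}

namespace TS

variable {m : ℕ} (A : TS β m)

/-- the isotropy representation is smooth along one-parameter groups -/
lemma contDiff_iso {n : ℕ} (ι : Imm (E := E) P n) {y : P} {κ : Fin m → ℝ}
    (hy : ∀ s : ℝ, A.act (s • κ) y = y) : ContDiff ℝ ∞ (fun s : ℝ => A.iso y (s • κ)) := by
  rw [contDiff_clm_apply_iff]
  intro u
  let D : E →ₗ[ℝ] EuclideanSpace ℝ (Fin n) :=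
    (show E →L[ℝ] EuclideanSpace ℝ (Fin n) from ι.D y)
  have hD : LinearMap.ker D = ⊥ := LinearMap.ker_eq_bot.2 (ι.inj y)
  obtain ⟨g, hg⟩ := LinearMap.exists_leftInverse_of_injective D hD
  let L : EuclideanSpace ℝ (Fin n) →L[ℝ] E := LinearMap.toContinuousLinearMap g
  have hk : ContMDiff (𝓘(ℝ, ℝ).prod 𝓘(ℝ, E)) 𝓘(ℝ, EuclideanSpace ℝ (Fin n)) ∞
      (fun p : ℝ × P => ι.F (A.fam κ p)) := ι.smooth.comp (A.smooth_fam κ)
  have hkc := contDiffOn_chart_paramW hk y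
  have hopen : IsOpen ((univ : Set ℝ) ×ˢ (extChartAt 𝓘(ℝ, E) y).target) :=
    isOpen_univ.prod (isOpen_extChartAt_target y)
  have h2 : (fun s : ℝ => A.iso y (s • κ) u) = fun s => L (fderiv ℝ (fun q : ℝ × E =>
      ι.F (A.fam κ (q.1, (extChartAt 𝓘(ℝ, E) y).symm q.2)))
        (s, extChartAt 𝓘(ℝ, E) y y) ((0:ℝ), u)) := by
    ext1 s
    have h3 : mfderiv 𝓘(ℝ, E) 𝓘(ℝ, EuclideanSpace ℝ (Fin n)) (ι.F ∘ A.act (s • κ)) y =
        (mfderiv 𝓘(ℝ, E) 𝓘(ℝ, EuclideanSpace ℝ (Fin n)) ι.F (A.act (s • κ) y)).comp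
        (mfderiv 𝓘(ℝ, E) 𝓘(ℝ, E) (A.act (s • κ)) y) :=
      mfderiv_comp _ (ι.smooth.mdifferentiableAt (by simp))
        ((A.smooth_right _).mdifferentiableAt (by simp))
    have h5 : ∀ (z : P), z = y → ∀ w : E,
        (mfderiv 𝓘(ℝ, E) 𝓘(ℝ, EuclideanSpace ℝ (Fin n)) ι.F z w : EuclideanSpace ℝ (Fin n)) =
        ι.D y w := by
      rintro _ rfl w; rfl
    have h6 : (mfderiv 𝓘(ℝ, E) 𝓘(ℝ, EuclideanSpace ℝ (Fin n)) (ι.F ∘ A.act (s • κ)) y u :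
        EuclideanSpace ℝ (Fin n)) = ι.D y (A.iso y (s • κ) u) :=
      (DFunLike.congr_fun h3 u).trans (h5 _ (hy s) _)
    have h7 : L (ι.D y (A.iso y (s • κ) u)) = A.iso y (s • κ) u :=
      DFunLike.congr_fun hg (A.iso y (s • κ) u)
    rw [← h7, ← h6]
    exact congrArg L (mfderiv_slice_eqW hk s y u)
  rw [h2]
  apply L.contDiff.comp
  have h8 := hkc.fderiv_of_isOpen hopen (m := ∞) (by simp)
  have h9 : ContDiffOn ℝ ∞ (fun s : ℝ => (s, extChartAt 𝓘(ℝ, E) y y)) univ :=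
    (contDiff_id.prodMk contDiff_const).contDiffOn
  have h10 := h8.comp h9 (fun s _ => ⟨mem_univ _, mem_extChartAt_target y⟩)
  have h11 := h10.clm_apply (contDiffOn_const (c := ((0:ℝ), u)))
  exact contDiffOn_univ.1 h11

lemma iso_neg {y : P} {θ : Fin m → ℝ} (hy : A.act θ y = y) (u : E) :
    A.iso y (-θ) (A.iso y θ u) = u := by
  have h1 := A.iso_add hy (-θ)
  rw [neg_add_cancel, A.iso_of_id (by ext1 x; exact A.zero x)] at h1
  exact (DFunLike.congr_fun h1 u).symm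

/-- twisted average over a circle fixing the point `y` -/
def avv (y : P) (κ : Fin m → ℝ) (ψ : P → E) (z : P) : E :=
  ∫ s in (0:ℝ)..1, A.iso y (-(s • κ)) (ψ (A.fam κ (s, z)))

lemma contDiff_iso_neg {n : ℕ} (ι : Imm (E := E) P n) {y : P} {κ : Fin m → ℝ}
    (hy : ∀ s : ℝ, A.act (s • κ) y = y) : ContDiff ℝ ∞ (fun s : ℝ => A.iso y (-(s • κ))) := by
  have h1 := (A.contDiff_iso ι hy).comp (contDiff_neg (𝕜 := ℝ) (F := ℝ) (n := ∞))
  have h2 : (fun s : ℝ => A.iso y (-(s • κ))) = (fun s : ℝ => A.iso y (s • κ)) ∘ fun s => -s := by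
    ext1 s
    simp
  rw [h2]
  exact h1

section

variable {n : ℕ} (ι : Imm (E := E) P n) {y : P} {κ : Fin m → ℝ}
  (hy : ∀ s : ℝ, A.act (s • κ) y = y) {ψ : P → E} (hψ : ContMDiff 𝓘(ℝ, E) 𝓘(ℝ, E) ∞ ψ)

include ι hy hψ

lemma smooth_kernel : ContMDiff (𝓘(ℝ, ℝ).prod 𝓘(ℝ, E)) 𝓘(ℝ, E) ∞
    (fun p : ℝ × P => A.iso y (-(p.1 • κ)) (ψ (A.fam κ p))) := by
  have h1 : ContMDiff (𝓘(ℝ, ℝ).prod 𝓘(ℝ, E)) 𝓘(ℝ, E →L[ℝ] E) ∞
      (fun p : ℝ × P => A.iso y (-(p.1 • κ))) :=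
    (A.contDiff_iso_neg ι hy).contMDiff.comp contMDiff_fst
  exact h1.clm_apply (hψ.comp (A.smooth_fam κ))

lemma continuous_kernel (z : P) :
    Continuous (fun s : ℝ => A.iso y (-(s • κ)) (ψ (A.fam κ (s, z)))) :=
  (A.smooth_kernel ι hy hψ).continuous.comp (continuous_id.prodMk continuous_const)

lemma avv_functional (l : E →L[ℝ] ℝ) (z : P) :
    l (A.avv y κ ψ z) = ∫ s in (0:ℝ)..1, l (A.iso y (-(s • κ)) (ψ (A.fam κ (s, z)))) := by
  unfold avv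
  exact (l.intervalIntegral_comp_comm ((A.continuous_kernel ι hy hψ z).intervalIntegrable _ _)).symm

lemma smooth_avv : ContMDiff 𝓘(ℝ, E) 𝓘(ℝ, E) ∞ (A.avv y κ ψ) := by
  apply contMDiff_of_functionals
  intro l
  have h1 : (fun z => l (A.avv y κ ψ z)) = fun z => ∫ s in (0:ℝ)..1,
      (fun p : ℝ × P => l (A.iso y (-(p.1 • κ)) (ψ (A.fam κ p)))) (s, z) := by
    ext1 z
    exact A.avv_functional ι hy hψ l z
  rw [h1]
  exact contMDiff_paramInt (l.contMDiff.comp (A.smooth_kernel ι hy hψ)) 1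

lemma avv_self (h0 : ψ y = 0) : A.avv y κ ψ y = 0 := by
  unfold avv
  have h1 : (fun s : ℝ => A.iso y (-(s • κ)) (ψ (A.fam κ (s, y)))) = fun _ => 0 := by
    ext1 s
    have h2 : A.fam κ (s, y) = y := hy s
    rw [h2, h0, map_zero]
  rw [h1]
  simp

lemma avv_deriv (hd : ∀ u : E, (mfderiv 𝓘(ℝ, E) 𝓘(ℝ, E) ψ y u : E) = u) (u : E) :
    (mfderiv 𝓘(ℝ, E) 𝓘(ℝ, E) (A.avv y κ ψ) y u : E) = u := by
  have key : ∀ l : E →L[ℝ] ℝ, l (mfderiv 𝓘(ℝ, E) 𝓘(ℝ, E) (A.avv y κ ψ) y u : E) = l u := by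
    intro l
    have b1 : HasMFDerivAt 𝓘(ℝ, E) 𝓘(ℝ, E) (A.avv y κ ψ) y
        (mfderiv 𝓘(ℝ, E) 𝓘(ℝ, E) (A.avv y κ ψ) y) :=
      ((A.smooth_avv ι hy hψ).mdifferentiableAt (by simp)).hasMFDerivAt
    have b2 : HasMFDerivAt 𝓘(ℝ, E) 𝓘(ℝ, ℝ) l (A.avv y κ ψ y) l := (l.hasFDerivAt).hasMFDerivAt
    have b3 := (HasMFDerivAt.comp y b2 b1).mfderiv
    have b4 : (mfderiv 𝓘(ℝ, E) 𝓘(ℝ, ℝ) (fun z => l (A.avv y κ ψ z)) y u : ℝ) =
        l (mfderiv 𝓘(ℝ, E) 𝓘(ℝ, E) (A.avv y κ ψ) y u : E) := DFunLike.congr_fun b3 u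
    have h1 : (fun z => l (A.avv y κ ψ z)) = fun z => ∫ s in (0:ℝ)..1,
        (fun p : ℝ × P => l (A.iso y (-(p.1 • κ)) (ψ (A.fam κ p)))) (s, z) := by
      ext1 z
      exact A.avv_functional ι hy hψ l z
    rw [← b4, h1]
    have h2 := mfderiv_paramInt (I := 𝓘(ℝ, E))
      (l.contMDiff.comp (A.smooth_kernel ι hy hψ)) 1 y u
    refine h2.trans ?_
    have h3 : ∀ s : ℝ, (show ℝ from mfderiv 𝓘(ℝ, E) 𝓘(ℝ, ℝ)
        (fun x => l (A.iso y (-(s • κ)) (ψ (A.fam κ (s, x))))) y u) = l u := by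
      intro s
      have c1 : HasMFDerivAt 𝓘(ℝ, E) 𝓘(ℝ, E) (A.act (s • κ)) y
          (mfderiv 𝓘(ℝ, E) 𝓘(ℝ, E) (A.act (s • κ)) y) :=
        ((A.smooth_right _).mdifferentiableAt (by simp)).hasMFDerivAt
      have c2 : HasMFDerivAt 𝓘(ℝ, E) 𝓘(ℝ, E) ψ (A.act (s • κ) y)
          (mfderiv 𝓘(ℝ, E) 𝓘(ℝ, E) ψ (A.act (s • κ) y)) :=
        (hψ.mdifferentiableAt (by simp)).hasMFDerivAt
      have c3 := HasMFDerivAt.comp y c2 c1
      let K : E →L[ℝ] ℝ := l.comp (A.iso y (-(s • κ)))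
      have c4 : HasMFDerivAt 𝓘(ℝ, E) 𝓘(ℝ, ℝ) K ((ψ ∘ A.act (s • κ)) y) K :=
        (K.hasFDerivAt).hasMFDerivAt
      have c5 := (HasMFDerivAt.comp y c4 c3).mfderiv
      have c6 : (show ℝ from mfderiv 𝓘(ℝ, E) 𝓘(ℝ, ℝ)
          (fun x => l (A.iso y (-(s • κ)) (ψ (A.fam κ (s, x))))) y u) =
          K (mfderiv 𝓘(ℝ, E) 𝓘(ℝ, E) ψ (A.act (s • κ) y)
            (mfderiv 𝓘(ℝ, E) 𝓘(ℝ, E) (A.act (s • κ)) y u : E) : E) := DFunLike.congr_fun c5 u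
      rw [c6]
      have c7 : ∀ z : P, z = y → ∀ w : E, (mfderiv 𝓘(ℝ, E) 𝓘(ℝ, E) ψ z w : E) = w := by
        rintro _ rfl w; exact hd w
      rw [c7 _ (hy s)]
      show l (A.iso y (-(s • κ)) (A.iso y (s • κ) u)) = l u
      rw [A.iso_neg (hy s)]
    calc (∫ s in (0:ℝ)..1, (show ℝ from mfderiv 𝓘(ℝ, E) 𝓘(ℝ, ℝ)
        (fun x => l (A.iso y (-(s • κ)) (ψ (A.fam κ (s, x))))) y u))
        = ∫ s in (0:ℝ)..1, (l u : ℝ) := by
          congr 1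
          ext1 s
          exact h3 s
      _ = l u := by simp
  obtain ⟨w, hw⟩ : ∃ w : E, (mfderiv 𝓘(ℝ, E) 𝓘(ℝ, E) (A.avv y κ ψ) y u : E) = w := ⟨_, rfl⟩
  have key' : ∀ l : E →L[ℝ] ℝ, l w = l u := fun l => (congrArg l hw).symm.trans (key l)
  have h5 : w = u := by
    obtain ⟨l, -, hl⟩ := exists_dual_vector'' ℝ (w - u)
    rw [map_sub, key' l, sub_self] at hl
    have : ‖w - u‖ = 0 := by exact_mod_cast hl.symm
    exact sub_eq_zero.1 (norm_eq_zero.1 this)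
  exact hw.trans h5

omit hψ in
lemma avv_comm {θ : Fin m → ℝ} (hθ : A.act θ y = y)
    (h : ∀ z, ψ (A.act θ z) = A.iso y θ (ψ z)) (hψ : ContMDiff 𝓘(ℝ, E) 𝓘(ℝ, E) ∞ ψ) (z : P) :
    A.avv y κ ψ (A.act θ z) = A.iso y θ (A.avv y κ ψ z) := by
  have h1 : A.avv y κ ψ (A.act θ z) =
      ∫ s in (0:ℝ)..1, A.iso y θ (A.iso y (-(s • κ)) (ψ (A.fam κ (s, z)))) := by
    unfold avv
    congr 1
    ext1 s
    rw [← A.act_fam, h]
    have h2 := A.iso_add (y := y) hθ (-(s • κ))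
    have h3 := A.iso_add (y := y) (θ' := -(s • κ)) (by
      have := hy (-s)
      rwa [neg_smul] at this) θ
    rw [add_comm, h3] at h2
    exact (DFunLike.congr_fun h2 _).symm
  rw [h1]
  exact (A.iso y θ).intervalIntegral_comp_comm
    ((A.continuous_kernel ι hy hψ z).intervalIntegrable _ _)

end

lemma avv_own {n : ℕ} (ι : Imm (E := E) P n) {y : P} {k : Fin m → ℤ}
    (hy : ∀ s : ℝ, A.act (s • rv k) y = y) {ψ : P → E}
    (hψ : ContMDiff 𝓘(ℝ, E) 𝓘(ℝ, E) ∞ ψ) (t : ℝ) (z : P) :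
    A.avv y (rv k) ψ (A.fam (rv k) (t, z)) = A.iso y (t • rv k) (A.avv y (rv k) ψ z) := by
  set G : ℝ → E := fun s => A.iso y (-(s • rv k)) (ψ (A.fam (rv k) (s, z))) with hG
  have hy' : ∀ s : ℝ, A.act (-(s • rv k)) y = y := fun s => by
    have := hy (-s)
    rwa [neg_smul] at this
  have hper : Function.Periodic G 1 := by
    intro s
    simp only [hG]
    have h1 : A.fam (rv k) (s + 1, z) = A.fam (rv k) (s, z) := by rw [A.fam_add, A.fam_one]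
    have h2 : A.iso y (-((s + 1) • rv k)) = A.iso y (-(s • rv k)) := by
      have e1 : -((s + 1) • rv k) = (fun i => ((-k i : ℤ) : ℝ)) + -(s • rv k) := by
        ext i
        simp [rv]
        ring
      rw [e1, A.iso_add (hy' s), A.iso_of_id (by ext1 x; exact A.period _ x)]
      rfl
    rw [h1, h2]
  have hint : ∀ a b, IntervalIntegrable G MeasureTheory.volume a b :=
    fun a b => (A.continuous_kernel ι hy hψ z).intervalIntegrable _ _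
  have h1 : A.avv y (rv k) ψ (A.fam (rv k) (t, z)) =
      ∫ s in (0:ℝ)..1, A.iso y (t • rv k) (G (s + t)) := by
    unfold avv
    congr 1
    ext1 s
    simp only [hG]
    rw [← A.fam_add]
    have e1 : -(s • rv k) = t • rv k + -((s + t) • rv k) := by
      rw [add_smul]; abel
    conv_lhs => rw [e1]
    rw [A.iso_add (hy' (s + t))]
    rfl
  have hint2 : IntervalIntegrable (fun s => G (s + t)) MeasureTheory.volume 0 1 := by
    apply Continuous.intervalIntegrable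
    exact (A.continuous_kernel ι hy hψ z).comp (by fun_prop)
  rw [h1, (A.iso y (t • rv k)).intervalIntegral_comp_comm hint2]
  congr 1
  rw [intervalIntegral.integral_comp_add_right (fun s : ℝ => G s) t]
  have h2 := hper.intervalIntegral_add_eq (0 + t) 0
  rw [zero_add, zero_add] at h2
  rw [zero_add, add_comm 1 t, h2]
  rfl

/-- **Equivariant maps to the tangent space.** -/
lemma exists_equivariant_list {n : ℕ} (ι : Imm (E := E) P n) {y : P} (L : List (Fin m → ℤ))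
    (hy : ∀ k ∈ L, ∀ s : ℝ, A.act (s • rv k) y = y) :
    ∃ ψ : P → E, ContMDiff 𝓘(ℝ, E) 𝓘(ℝ, E) ∞ ψ ∧ ψ y = 0 ∧
      (∀ u : E, (mfderiv 𝓘(ℝ, E) 𝓘(ℝ, E) ψ y u : E) = u) ∧
      ∀ k ∈ L, ∀ (s : ℝ) (z : P), ψ (A.act (s • rv k) z) = A.iso y (s • rv k) (ψ z) := by
  induction L with
  | nil =>
    let D : E →ₗ[ℝ] EuclideanSpace ℝ (Fin n) :=
      (show E →L[ℝ] EuclideanSpace ℝ (Fin n) from ι.D y)
    have hD : LinearMap.ker D = ⊥ := LinearMap.ker_eq_bot.2 (ι.inj y)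
    obtain ⟨g, hg⟩ := LinearMap.exists_leftInverse_of_injective D hD
    let L : EuclideanSpace ℝ (Fin n) →L[ℝ] E := LinearMap.toContinuousLinearMap g
    refine ⟨fun z => L (ι.F z) - L (ι.F y), ?_, by simp, ?_, by simp⟩
    · exact (L.contMDiff.comp ι.smooth).sub contMDiff_const
    · intro u
      have b1 : HasMFDerivAt 𝓘(ℝ, E) 𝓘(ℝ, EuclideanSpace ℝ (Fin n)) ι.F y (ι.D y) :=
        (ι.smooth.mdifferentiableAt (by simp)).hasMFDerivAt
      have b2 : HasMFDerivAt 𝓘(ℝ, EuclideanSpace ℝ (Fin n)) 𝓘(ℝ, E)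
          (fun w => L w - L (ι.F y)) (ι.F y) L := ((L.hasFDerivAt).sub_const _).hasMFDerivAt
      have b3 := (HasMFDerivAt.comp y b2 b1).mfderiv
      have b4 : (mfderiv 𝓘(ℝ, E) 𝓘(ℝ, E) (fun z => L (ι.F z) - L (ι.F y)) y u : E) =
        L (ι.D y u) := DFunLike.congr_fun b3 u
      rw [b4]
      exact DFunLike.congr_fun hg u
  | cons k L ih =>
    obtain ⟨ψ, h1, h2, h3, h4⟩ := ih (fun k' hk' => hy k' (List.mem_cons_of_mem _ hk'))
    have hyk := hy k List.mem_cons_self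
    refine ⟨A.avv y (rv k) ψ, A.smooth_avv ι hyk h1, A.avv_self ι hyk h1 h2,
      A.avv_deriv ι hyk h1 h3, ?_⟩
    intro k' hk' s z
    rcases List.mem_cons.1 hk' with rfl | hk''
    · exact A.avv_own ι hyk h1 s z
    · exact A.avv_comm ι hyk (hy k' hk' s) (h4 k' hk'' s) h1 z

lemma exists_equivariant {n : ℕ} (ι : Imm (E := E) P n) {S : Submodule ℝ (Fin m → ℝ)}
    (hS : Rational S) {y : P} (hy : y ∈ A.Fix S) :
    ∃ ψ : P → E, ContMDiff 𝓘(ℝ, E) 𝓘(ℝ, E) ∞ ψ ∧ ψ y = 0 ∧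
      (∀ u : E, (mfderiv 𝓘(ℝ, E) 𝓘(ℝ, E) ψ y u : E) = u) ∧
      ∀ θ ∈ S, ∀ (z : P), ψ (A.act θ z) = A.iso y θ (ψ z) := by
  obtain ⟨L, rfl⟩ := hS
  have hmem : ∀ k ∈ L, rv k ∈ Submodule.span ℝ {v : Fin m → ℝ | ∃ k ∈ L, rv k = v} :=
    fun k hk => Submodule.subset_span ⟨k, hk, rfl⟩
  obtain ⟨ψ, h1, h2, h3, h4⟩ := A.exists_equivariant_list ι L
    (fun k hk s => hy _ (Submodule.smul_mem _ s (hmem k hk)))
  refine ⟨ψ, h1, h2, h3, ?_⟩
  intro θ hθ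
  suffices H : ∀ (s : ℝ) (z : P), ψ (A.act (s • θ) z) = A.iso y (s • θ) (ψ z) by
    intro z
    have := H 1 z
    rwa [one_smul] at this
  induction hθ using Submodule.span_induction with
  | mem v hv =>
    obtain ⟨k, hk, rfl⟩ := hv
    exact h4 k hk
  | zero =>
    intro s z
    rw [smul_zero, A.zero, A.iso_of_id (by ext1 x; exact A.zero x)]
    rfl
  | add a b ha' hb' ha hb =>
    intro s z
    rw [smul_add, A.add, ha, hb, A.iso_add (hy _ (Submodule.smul_mem _ s hb'))]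
    rfl
  | smul a b _ hb =>
    intro s z
    rw [smul_smul]
    exact hb _ z

end TS

end Pool.Agent.TH607
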