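import Mathlib

/-! Submanifolds from slice charts. -/

open scoped Topology ContDiff Manifold
open Set Metric

noncomputable section

namespace Pool.Agent.TH607

set_option linter.unusedSectionVars false

variable {E : Type*} [NormedAddCommGroup E] [NormedSpace ℝ E]
  {E' : Type*} [NormedAddCommGroup E'] [NormedSpace ℝ E']
  {X : Type*} [TopologicalSpace X] [ChartedSpace E X]

/-- A slice chart of the subset `A` at the point `a`, modelled on `E'`. -/
structure SliceAt (E' : Type*) [NormedAddCommGroup E'] [NormedSpace ℝ E']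
    {E : Type*} [NormedAddCommGroup E] [NormedSpace ℝ E]
    {X : Type*} [TopologicalSpace X] [ChartedSpace E X] (A : Set X) (a : X) where
  φ : OpenPartialHomeomorph X E
  mem : a ∈ φ.source
  smooth : ContMDiffOn 𝓘(ℝ, E) 𝓘(ℝ, E) ∞ φ φ.source
  smooth_symm : ContMDiffOn 𝓘(ℝ, E) 𝓘(ℝ, E) ∞ φ.symm φ.target
  j : E' →L[ℝ] E
  p : E →L[ℝ] E'
  pj : ∀ e, p (j e) = e
  iff : ∀ x ∈ φ.source, x ∈ A ↔ j (p (φ x)) = φ x

namespace SliceAt

variable {A : Set X} {a : A} (s : SliceAt (E := E) E' A (a : X))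

open Classical in
/-- the chart of the subset -/
def chart : OpenPartialHomeomorph A E' where
  toFun x := s.p (s.φ x)
  invFun e := if h : s.j e ∈ s.φ.target then ⟨s.φ.symm (s.j e), by
    rw [s.iff _ (s.φ.map_target h), s.φ.right_inv h, s.pj]⟩ else a
  source := {x | (x : X) ∈ s.φ.source}
  target := {e | s.j e ∈ s.φ.target}
  map_source' := by
    intro x hx
    have hx' : (x : X) ∈ s.φ.source := hx
    show s.j (s.p (s.φ x)) ∈ s.φ.target
    rw [(s.iff _ hx').1 x.2]
    exact s.φ.map_source hx'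
  map_target' := by
    intro e he
    have he' : s.j e ∈ s.φ.target := he
    show ((if h : s.j e ∈ s.φ.target then (⟨s.φ.symm (s.j e), _⟩ : A) else a : A) : X) ∈
      s.φ.source
    rw [dif_pos he']
    exact s.φ.map_target he'
  left_inv' := by
    intro x hx
    have hx' : (x : X) ∈ s.φ.source := hx
    have h1 : s.j (s.p (s.φ x)) = s.φ x := (s.iff _ hx').1 x.2
    have h2 : s.j (s.p (s.φ x)) ∈ s.φ.target := by rw [h1]; exact s.φ.map_source hx'
    simp only [dif_pos h2]
    apply Subtype.ext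
    simp only [h1]
    exact s.φ.left_inv hx'
  right_inv' := by
    intro e he
    have he' : s.j e ∈ s.φ.target := he
    simp only [dif_pos he']
    rw [s.φ.right_inv he', s.pj]
  open_source := s.φ.open_source.preimage continuous_subtype_val
  open_target := s.φ.open_target.preimage s.j.continuous
  continuousOn_toFun := by
    have h1 : ContinuousOn (fun x : A => s.φ (x : X)) {x : A | (x : X) ∈ s.φ.source} :=
      s.φ.continuousOn_toFun.comp continuous_subtype_val.continuousOn (fun x hx => hx)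
    exact s.p.continuous.comp_continuousOn h1
  continuousOn_invFun := by
    rw [Topology.IsInducing.subtypeVal.continuousOn_iff]
    have h1 : ContinuousOn (fun e => s.φ.symm (s.j e)) {e | s.j e ∈ s.φ.target} :=
      s.φ.symm.continuousOn_toFun.comp s.j.continuous.continuousOn (fun x hx => hx)
    refine h1.congr ?_
    intro e he
    have he' : s.j e ∈ s.φ.target := he
    simp only [Function.comp, dif_pos he']

lemma chart_apply (x : A) : s.chart x = s.p (s.φ x) := rfl

lemma chart_source : s.chart.source = {x : A | (x : X) ∈ s.φ.source} := rfl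

lemma chart_target : s.chart.target = {e | s.j e ∈ s.φ.target} := rfl

open Classical in
lemma chart_symm_coe {e : E'} (he : s.j e ∈ s.φ.target) :
    ((s.chart.symm e : A) : X) = s.φ.symm (s.j e) := by
  show ((if h : s.j e ∈ s.φ.target then (⟨s.φ.symm (s.j e), _⟩ : A) else a : A) : X) = _
  rw [dif_pos he]

lemma mem_chart : a ∈ s.chart.source := s.mem

end SliceAt

/-- slice charts at all points -/
structure Slices (E' : Type*) [NormedAddCommGroup E'] [NormedSpace ℝ E']
    {E : Type*} [NormedAddCommGroup E] [NormedSpace ℝ E]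
    {X : Type*} [TopologicalSpace X] [ChartedSpace E X] (A : Set X) where
  s : ∀ a : A, SliceAt (E := E) E' A (a : X)

namespace Slices

variable {A : Set X} (S : Slices (E := E) E' A)

/-- the manifold structure of the subset -/
@[reducible] def charted : ChartedSpace E' A where
  atlas := range (fun a : A => (S.s a).chart)
  chartAt a := (S.s a).chart
  mem_chart_source a := (S.s a).mem_chart
  chart_mem_atlas a := mem_range_self a

lemma smooth_trans (a b : A) : ContDiffOn ℝ ∞ ((S.s a).chart.symm ≫ₕ (S.s b).chart)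
    ((S.s a).chart.symm ≫ₕ (S.s b).chart).source := by
  set s := S.s a
  set t := S.s b
  rw [← contMDiffOn_iff_contDiffOn]
  have hsrc : ∀ e ∈ (s.chart.symm ≫ₕ t.chart).source, s.j e ∈ s.φ.target ∧
      s.φ.symm (s.j e) ∈ t.φ.source := by
    intro e he
    rw [OpenPartialHomeomorph.trans_source] at he
    have he1 : s.j e ∈ s.φ.target := he.1
    have he2 : (s.chart.symm e : A) ∈ t.chart.source := he.2
    have he3 : ((s.chart.symm e : A) : X) ∈ t.φ.source := he2
    rw [s.chart_symm_coe he1] at he3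
    exact ⟨he1, he3⟩
  have h0 : ContMDiffOn 𝓘(ℝ, E') 𝓘(ℝ, E) ∞ (fun e => s.φ.symm (s.j e))
      (s.chart.symm ≫ₕ t.chart).source :=
    s.smooth_symm.comp s.j.contMDiff.contMDiffOn (fun e he => (hsrc e he).1)
  have h2 : ContMDiffOn 𝓘(ℝ, E') 𝓘(ℝ, E) ∞ (fun e => t.φ (s.φ.symm (s.j e)))
      (s.chart.symm ≫ₕ t.chart).source :=
    t.smooth.comp h0 (fun e he => (hsrc e he).2)
  have h1 : ContMDiffOn 𝓘(ℝ, E') 𝓘(ℝ, E') ∞ (fun e => t.p (t.φ (s.φ.symm (s.j e))))
      (s.chart.symm ≫ₕ t.chart).source :=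
    t.p.contMDiff.comp_contMDiffOn h2
  refine h1.congr ?_
  intro e he
  show t.p (t.φ ((s.chart.symm e : A) : X)) = _
  rw [s.chart_symm_coe (hsrc e he).1]

lemma isManifold : @IsManifold ℝ _ E' _ _ E' _ 𝓘(ℝ, E') ∞ A _ S.charted := by
  let _ := S.charted
  apply isManifold_of_contDiffOn
  rintro e e' ⟨a, rfl⟩ ⟨b, rfl⟩
  simpa using S.smooth_trans a b

/-- the inclusion is smooth -/
lemma contMDiff_val : @ContMDiff ℝ _ E' _ _ E' _ 𝓘(ℝ, E') A _ S.charted E _ _ E _ 𝓘(ℝ, E) X _ _
    ∞ (Subtype.val : A → X) := by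
  let _ := S.charted
  have := S.isManifold
  intro a
  set s := S.s a
  have h1 : ContMDiffAt 𝓘(ℝ, E') 𝓘(ℝ, E') ∞ (s.chart : A → E') a :=
    contMDiffAt_extChartAt (I := 𝓘(ℝ, E')) (x := a)
  have ht : s.j (s.chart a) ∈ s.φ.target := s.chart.map_source s.mem_chart
  have h2 : ContMDiffAt 𝓘(ℝ, E') 𝓘(ℝ, E) ∞ (fun e => s.φ.symm (s.j e)) (s.chart a) :=
    ContMDiffAt.comp (s.chart a) (g := s.φ.symm) (f := s.j)
      (s.smooth_symm.contMDiffAt (s.φ.open_target.mem_nhds ht)) s.j.contMDiff.contMDiffAt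
  have h3 : ContMDiffAt 𝓘(ℝ, E') 𝓘(ℝ, E) ∞ (fun x : A => s.φ.symm (s.j (s.chart x))) a :=
    ContMDiffAt.comp a (g := fun e => s.φ.symm (s.j e)) (f := (s.chart : A → E')) h2 h1
  refine h3.congr_of_eventuallyEq ?_
  filter_upwards [s.chart.open_source.mem_nhds s.mem_chart] with x hx
  have hx' : (x : X) ∈ s.φ.source := hx
  show (x : X) = s.φ.symm (s.j (s.p (s.φ x)))
  rw [(s.iff _ hx').1 x.2, s.φ.left_inv hx']

section

variable {F : Type*} [NormedAddCommGroup F] [NormedSpace ℝ F] {H : Type*} [TopologicalSpace H]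
  {I : ModelWithCorners ℝ F H}
  {N : Type*} [TopologicalSpace N] [ChartedSpace H N]

/-- maps into the subset are smooth if they are smooth as maps to the ambient manifold -/
lemma contMDiffAt_of_val {g : N → A} {n : N}
    (hg : ContMDiffAt I 𝓘(ℝ, E) ∞ (fun x => (g x : X)) n) :
    @ContMDiffAt ℝ _ F _ _ H _ I N _ _ E' _ _ E' _ 𝓘(ℝ, E') A _ S.charted ∞ g n := by
  let _ := S.charted
  have := S.isManifold
  rw [contMDiffAt_iff_target]
  refine ⟨?_, ?_⟩
  · exact (Topology.IsInducing.subtypeVal.continuousAt_iff).2 hg.continuousAt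
  · set s := S.s (g n)
    have h1 : ContMDiffAt I 𝓘(ℝ, E) ∞ (fun x => s.φ (g x : X)) n :=
      ContMDiffAt.comp n (g := s.φ) (f := fun x => (g x : X))
        (s.smooth.contMDiffAt (s.φ.open_source.mem_nhds s.mem)) hg
    exact ContMDiffAt.comp n (g := s.p) (f := fun x => s.φ (g x : X))
      s.p.contMDiff.contMDiffAt h1

lemma contMDiff_of_val {g : N → A} (hg : ContMDiff I 𝓘(ℝ, E) ∞ (fun x => (g x : X))) :
    @ContMDiff ℝ _ F _ _ H _ I N _ _ E' _ _ E' _ 𝓘(ℝ, E') A _ S.charted ∞ g :=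
  fun n => S.contMDiffAt_of_val (hg n)

end

lemma contMDiffAt_chart_symm (a : A) : @ContMDiffAt ℝ _ E' _ _ E' _ 𝓘(ℝ, E') E' _ _ E' _ _ E' _
    𝓘(ℝ, E') A _ S.charted ∞ ((S.s a).chart.symm : E' → A) ((S.s a).chart a) := by
  let _ := S.charted
  have := S.isManifold
  have h2 : ContMDiffOn 𝓘(ℝ, E') 𝓘(ℝ, E') ∞ ((S.s a).chart.symm : E' → A)
      (S.s a).chart.target :=
    contMDiffOn_chart_symm (I := 𝓘(ℝ, E')) (n := ∞) (x := a)
  exact h2.contMDiffAt ((S.s a).chart.open_target.mem_nhds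
    ((S.s a).chart.map_source (S.s a).mem_chart))

/-- the inclusion is an immersion -/
lemma injective_mfderiv_val (a : A) : Function.Injective
    (@mfderiv ℝ _ E' _ _ E' _ 𝓘(ℝ, E') A _ S.charted E _ _ E _ 𝓘(ℝ, E) X _ _
      (Subtype.val : A → X) a) := by
  let _ := S.charted
  have := S.isManifold
  have hv : MDifferentiableAt 𝓘(ℝ, E') 𝓘(ℝ, E) (Subtype.val : A → X) a :=
    (S.contMDiff_val a).mdifferentiableAt (by simp)
  have hφ : MDifferentiableAt 𝓘(ℝ, E) 𝓘(ℝ, E) (S.s a).φ (a : X) :=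
    ((S.s a).smooth.contMDiffAt ((S.s a).φ.open_source.mem_nhds
      (S.s a).mem)).mdifferentiableAt (by simp)
  have hp : MDifferentiableAt 𝓘(ℝ, E) 𝓘(ℝ, E') (S.s a).p ((S.s a).φ (a : X)) :=
    ((S.s a).p.contMDiff (n := ∞)).mdifferentiableAt (by simp)
  have hsymm : MDifferentiableAt 𝓘(ℝ, E') 𝓘(ℝ, E') ((S.s a).chart.symm : E' → A)
      ((S.s a).p ((S.s a).φ (a : X))) :=
    (S.contMDiffAt_chart_symm a).mdifferentiableAt (by simp)
  have h1 := HasMFDerivAt.comp a (g := (S.s a).φ) (f := (Subtype.val : A → X))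
    hφ.hasMFDerivAt hv.hasMFDerivAt
  have h2 := HasMFDerivAt.comp a (g := (S.s a).p) (f := (S.s a).φ ∘ (Subtype.val : A → X))
    hp.hasMFDerivAt h1
  have h3 := HasMFDerivAt.comp a (g := ((S.s a).chart.symm : E' → A))
    (f := (S.s a).p ∘ (S.s a).φ ∘ (Subtype.val : A → X)) hsymm.hasMFDerivAt h2
  have h4 : (((S.s a).chart.symm : E' → A) ∘ (S.s a).p ∘ (S.s a).φ ∘ (Subtype.val : A → X))
      =ᶠ[𝓝 a] id := by
    filter_upwards [(S.s a).chart.open_source.mem_nhds (S.s a).mem_chart] with x hx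
    exact (S.s a).chart.left_inv hx
  have h5 := (hasMFDerivAt_id (I := 𝓘(ℝ, E')) a).congr_of_eventuallyEq h4
  have h6 := hasMFDerivAt_unique h3 h5
  intro u u' huu
  have h7 := DFunLike.congr_fun h6 u
  have h8 := DFunLike.congr_fun h6 u'
  refine h7.symm.trans (Eq.trans ?_ h8)
  have h9 : (mfderiv 𝓘(ℝ, E') 𝓘(ℝ, E) (Subtype.val : A → X) a) u =
    (mfderiv 𝓘(ℝ, E') 𝓘(ℝ, E) (Subtype.val : A → X) a) u' := huu
  simp only [ContinuousLinearMap.comp_apply, h9]

end Slices

end Pool.Agent.TH607
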