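import Mathlib
import Pool.Agent.TH607.Fx.Equi
import Pool.Agent.TH607.Fx.Sub

/-! Slice charts of fixed point sets. -/

open scoped Topology ContDiff Manifold
open Set Metric Bundle Pool.Agent.Helper186 Pool.Agent.H826R2.Wein

noncomputable section

namespace Pool.Agent.TH607

set_option linter.unusedSectionVars false

universe u

variable {E : Type u} [NormedAddCommGroup E] [NormedSpace ℝ E] [FiniteDimensional ℝ E]
  {P : Type*} [TopologicalSpace P] [ChartedSpace E P] [IsManifold 𝓘(ℝ, E) ∞ P]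
  {β : (x : P) → TangentSpace 𝓘(ℝ, E) x →L[ℝ] ℝ} {R : (x : P) → TangentSpace 𝓘(ℝ, E) x}

/-- inverse function theorem -/
lemma exists_local_diffeo {ψ : P → E} (hψ : ContMDiff 𝓘(ℝ, E) 𝓘(ℝ, E) ∞ ψ) {y : P}
    (hd : ∀ u : E, (mfderiv 𝓘(ℝ, E) 𝓘(ℝ, E) ψ y u : E) = u) :
    ∃ φ : OpenPartialHomeomorph P E, y ∈ φ.source ∧ (∀ z ∈ φ.source, φ z = ψ z) ∧
      ContMDiffOn 𝓘(ℝ, E) 𝓘(ℝ, E) ∞ φ φ.source ∧
      ContMDiffOn 𝓘(ℝ, E) 𝓘(ℝ, E) ∞ φ.symm φ.target := by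
  let e : OpenPartialHomeomorph P E := chartAt E y
  have hye : y ∈ e.source := mem_chart_source E y
  let g : E → E := ψ ∘ e.symm
  have hg : ContDiffOn ℝ ∞ g e.target := by
    rw [← contMDiffOn_iff_contDiffOn]
    exact hψ.comp_contMDiffOn (contMDiffOn_chart_symm (I := 𝓘(ℝ, E)) (n := ∞) (x := y))
  have hgat : ∀ w ∈ e.target, ContDiffAt ℝ ∞ g w := fun w hw =>
    hg.contDiffAt (e.open_target.mem_nhds hw)
  have hfd : HasFDerivAt g ((ContinuousLinearEquiv.refl ℝ E : E ≃L[ℝ] E) : E →L[ℝ] E) (e y) := by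
    have h5 := ((hgat _ (e.map_source hye)).differentiableAt (by simp)).hasFDerivAt
    have h6 : fderiv ℝ g (e y) = ((ContinuousLinearEquiv.refl ℝ E : E ≃L[ℝ] E) : E →L[ℝ] E) := by
      ext u
      have h7 := mfderiv_eq_fderiv_chart (I := 𝓘(ℝ, E)) (hψ.mdifferentiableAt (x := y) (by simp)) u
      have h8 : (mfderiv 𝓘(ℝ, E) 𝓘(ℝ, E) ψ y u : E) = fderiv ℝ g (e y) u := h7
      rw [← h8]
      exact hd u
    rwa [h6] at h5
  have hstrict : HasStrictFDerivAt g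
      ((ContinuousLinearEquiv.refl ℝ E : E ≃L[ℝ] E) : E →L[ℝ] E) (e y) :=
    (hgat _ (e.map_source hye)).hasStrictFDerivAt' hfd (by simp)
  let Φ := hstrict.toOpenPartialHomeomorph g
  have hΦy : e y ∈ Φ.source := hstrict.mem_toOpenPartialHomeomorph_source
  have hΦg : ∀ w, Φ w = g w := fun w => rfl
  -- the open set where the derivative is invertible
  let O : Set E := e.target ∩ fderiv ℝ g ⁻¹' range ((↑) : (E ≃L[ℝ] E) → E →L[ℝ] E)
  have hcf : ContinuousOn (fderiv ℝ g) e.target :=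
    hg.continuousOn_fderiv_of_isOpen e.open_target (by simp)
  have hO : IsOpen O := hcf.isOpen_inter_preimage e.open_target ContinuousLinearEquiv.isOpen
  have hyO : e y ∈ O := ⟨e.map_source hye, ContinuousLinearEquiv.refl ℝ E, hfd.fderiv.symm⟩
  let Φ' := Φ.restrOpen O hO
  have hsrc' : Φ'.source = Φ.source ∩ O := rfl
  let φ := e.trans Φ'
  have hφs : φ.source = e.source ∩ e ⁻¹' Φ'.source := OpenPartialHomeomorph.trans_source _ _
  refine ⟨φ, ?_, ?_, ?_, ?_⟩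
  · rw [hφs]
    exact ⟨hye, hΦy, hyO⟩
  · intro z hz
    rw [hφs] at hz
    show g (e z) = ψ z
    show ψ (e.symm (e z)) = ψ z
    rw [e.left_inv hz.1]
  · refine hψ.contMDiffOn.congr ?_
    intro z hz
    rw [hφs] at hz
    show ψ (e.symm (e z)) = ψ z
    rw [e.left_inv hz.1]
  · have hφt : φ.target = Φ'.target ∩ Φ'.symm ⁻¹' e.target :=
      OpenPartialHomeomorph.trans_target _ _
    have h1 : ContMDiffOn 𝓘(ℝ, E) 𝓘(ℝ, E) ∞ Φ'.symm Φ'.target := by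
      rw [contMDiffOn_iff_contDiffOn]
      intro w hw
      have hw2 : Φ'.symm w ∈ Φ'.source := Φ'.map_target hw
      obtain ⟨hw3, hw4, L, hL⟩ := hw2
      have h2 : HasFDerivAt Φ' (L : E →L[ℝ] E) (Φ'.symm w) := by
        have h3 := ((hgat _ hw4).differentiableAt (by simp)).hasFDerivAt
        have h4 : fderiv ℝ g (Φ'.symm w) = (L : E →L[ℝ] E) := hL.symm
        rw [h4] at h3
        exact h3
      exact (Φ'.contDiffAt_symm hw h2 (hgat _ hw4)).contDiffWithinAt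
    have h2 : ContMDiffOn 𝓘(ℝ, E) 𝓘(ℝ, E) ∞ e.symm e.target :=
      contMDiffOn_chart_symm (I := 𝓘(ℝ, E)) (n := ∞) (x := y)
    rw [hφt]
    exact h2.comp (h1.mono inter_subset_left) (fun w hw => hw.2)

namespace TS

variable {m : ℕ} (A : TS β m)

/-- the vectors fixed by the isotropy representation of `S` -/
def ES (S : Submodule ℝ (Fin m → ℝ)) (y : P) : Submodule ℝ E where
  carrier := {u | ∀ θ ∈ S, A.iso y θ u = u}
  add_mem' := by
    intro a b ha hb θ hθ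
    rw [map_add, ha θ hθ, hb θ hθ]
  zero_mem' := by
    intro θ _
    rw [map_zero]
  smul_mem' := by
    intro c a ha θ hθ
    rw [map_smul, ha θ hθ]

lemma mem_ES {S : Submodule ℝ (Fin m → ℝ)} {y : P} {u : E} :
    u ∈ A.ES S y ↔ ∀ θ ∈ S, A.iso y θ u = u := Iff.rfl

/-- a good slice chart -/
structure Good (S : Submodule ℝ (Fin m → ℝ)) (y : P) where
  φ : OpenPartialHomeomorph P E
  mem : y ∈ φ.source
  smooth : ContMDiffOn 𝓘(ℝ, E) 𝓘(ℝ, E) ∞ φ φ.source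
  smooth_symm : ContMDiffOn 𝓘(ℝ, E) 𝓘(ℝ, E) ∞ φ.symm φ.target
  iff : ∀ x ∈ φ.source, x ∈ A.Fix S ↔ φ x ∈ A.ES S y
  conn : IsPreconnected (A.Fix S ∩ φ.source)
  dim : ∀ x ∈ φ.source, x ∈ A.Fix S →
    Module.finrank ℝ (A.ES S x) = Module.finrank ℝ (A.ES S y)

lemma exists_good [T2Space P] {n : ℕ} (ι : Imm (E := E) P n) {S : Submodule ℝ (Fin m → ℝ)}
    (hS : Rational S) {y : P} (hy : y ∈ A.Fix S) : Nonempty (A.Good S y) := by
  obtain ⟨ψ, hψ, hψ0, hd, heq⟩ := A.exists_equivariant ι hS hy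
  obtain ⟨φ, hyφ, hφψ, hsm, hsm'⟩ := exists_local_diffeo hψ hd
  -- an invariant neighbourhood
  have hK : IsCompact (Icc (0 : Fin m → ℝ) 1 ∩ (A.stab y : Set (Fin m → ℝ))) :=
    isCompact_Icc.inter_right (A.isClosed_stab y)
  have hcont : Continuous (fun p : (Fin m → ℝ) × P => A.act p.1 p.2) := A.smooth.continuous
  have h1 : ∀ᶠ z in 𝓝 y, ∀ θ ∈ Icc (0 : Fin m → ℝ) 1 ∩ (A.stab y : Set (Fin m → ℝ)),
      A.act θ z ∈ φ.source := by
    apply hK.eventually_forall_of_forall_eventually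
    intro θ hθ
    have h2 : (fun p : P × (Fin m → ℝ) => A.act p.2 p.1) ⁻¹' φ.source ∈ 𝓝 (y, θ) := by
      apply (hcont.comp (continuous_snd.prodMk continuous_fst)).continuousAt.preimage_mem_nhds
      show φ.source ∈ 𝓝 (A.act θ y)
      rw [A.mem_stab.1 hθ.2]
      exact φ.open_source.mem_nhds hyφ
    exact h2
  have h2 : ∀ᶠ z in 𝓝 y, z ∈ φ.source ∧ ∀ θ ∈ S, A.act θ z ∈ φ.source := by
    filter_upwards [h1, φ.open_source.mem_nhds hyφ] with z hz hz'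
    refine ⟨hz', fun θ hθ => ?_⟩
    rw [A.act_fract]
    apply hz
    refine ⟨⟨fun i => Int.fract_nonneg _, fun i => (Int.fract_lt_one _).le⟩, ?_⟩
    show A.act _ y = y
    rw [← A.act_fract]
    exact hy θ hθ
  obtain ⟨U, hU, hUo, hyU⟩ := eventually_nhds_iff.1 h2
  -- a ball in the target
  have h3 : φ.symm ⁻¹' U ∩ φ.target ∈ 𝓝 (φ y) := by
    refine Filter.inter_mem ?_ (φ.open_target.mem_nhds (φ.map_source hyφ))
    apply (φ.symm.continuousAt (φ.map_source hyφ)).preimage_mem_nhds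
    rw [φ.left_inv hyφ]
    exact hUo.mem_nhds hyU
  have hφy : φ y = 0 := by rw [hφψ y hyφ, hψ0]
  rw [hφy] at h3
  obtain ⟨r, hr, hball⟩ := Metric.mem_nhds_iff.1 h3
  let φ' := (φ.symm.restrOpen (ball 0 r) isOpen_ball).symm
  have hsrc : ∀ z, z ∈ φ'.source ↔ z ∈ φ.source ∧ φ z ∈ ball (0:E) r := by
    intro z
    exact Iff.rfl
  have htgt : φ'.target = ball 0 r := by
    show (φ.symm.restrOpen (ball 0 r) isOpen_ball).source = _
    rw [OpenPartialHomeomorph.restrOpen_source]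
    show φ.target ∩ ball 0 r = ball 0 r
    exact inter_eq_right.2 (fun w hw => (hball hw).2)
  have hφ' : ∀ z, φ' z = φ z := fun z => rfl
  have hφs' : ∀ w, φ'.symm w = φ.symm w := fun w => rfl
  have hsub : ∀ z ∈ φ'.source, z ∈ U := by
    intro z hz
    rw [hsrc] at hz
    have := (hball hz.2).1
    rw [mem_preimage, φ.left_inv hz.1] at this
    exact this
  have hiff : ∀ x ∈ φ'.source, x ∈ A.Fix S ↔ φ' x ∈ A.ES S y := by
    intro x hx
    have hxφ := ((hsrc x).1 hx).1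
    have hxU := hU x (hsub x hx)
    rw [hφ', hφψ x hxφ]
    constructor
    · intro hxF θ hθ
      rw [← heq θ hθ, hxF θ hθ]
    · intro hE θ hθ
      apply φ.injOn (hxU.2 θ hθ) hxφ
      rw [hφψ _ (hxU.2 θ hθ), hφψ x hxφ, heq θ hθ, hE θ hθ]
  refine ⟨⟨φ', ?_, ?_, ?_, hiff, ?_, ?_⟩⟩
  · rw [hsrc]
    exact ⟨hyφ, by rw [hφy]; exact mem_ball_self hr⟩
  · exact hsm.mono (fun z hz => ((hsrc z).1 hz).1)
  · refine hsm'.mono ?_
    rw [htgt]
    exact fun w hw => (hball hw).2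
  · have h4 : A.Fix S ∩ φ'.source = φ.symm '' ((A.ES S y : Set E) ∩ ball 0 r) := by
      ext x
      constructor
      · rintro ⟨hxF, hx⟩
        refine ⟨φ x, ⟨(hiff x hx).1 hxF, ((hsrc x).1 hx).2⟩, φ.left_inv ((hsrc x).1 hx).1⟩
      · rintro ⟨w, ⟨hw1, hw2⟩, rfl⟩
        have hwt : w ∈ φ.target := (hball hw2).2
        have hs : φ.symm w ∈ φ'.source := by
          rw [hsrc, φ.right_inv hwt]
          exact ⟨φ.map_target hwt, hw2⟩
        refine ⟨(hiff _ hs).2 ?_, hs⟩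
        rw [hφ', φ.right_inv hwt]
        exact hw1
    rw [h4]
    have hconv : Convex ℝ ((A.ES S y : Set E) ∩ ball 0 r) :=
      (A.ES S y).convex.inter (convex_ball 0 r)
    refine hconv.isPreconnected.image _ ?_
    exact φ.symm.continuousOn.mono (fun w hw => (hball hw.2).2)
  · intro x hx hxF
    have hxφ := ((hsrc x).1 hx).1
    -- derivative of `ψ` at `x`
    let Dx : E →ₗ[ℝ] E := (show E →L[ℝ] E from mfderiv 𝓘(ℝ, E) 𝓘(ℝ, E) ψ x)
    have hDx : Function.Injective Dx := by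
      have c1 : HasMFDerivAt 𝓘(ℝ, E) 𝓘(ℝ, E) ψ x (mfderiv 𝓘(ℝ, E) 𝓘(ℝ, E) ψ x) :=
        (hψ.mdifferentiableAt (by simp)).hasMFDerivAt
      have hψx : ψ x ∈ φ.target := by
        rw [← hφψ x hxφ]; exact φ.map_source hxφ
      have c2 : HasMFDerivAt 𝓘(ℝ, E) 𝓘(ℝ, E) φ.symm (ψ x)
          (mfderiv 𝓘(ℝ, E) 𝓘(ℝ, E) φ.symm (ψ x)) :=
        ((hsm'.contMDiffAt (φ.open_target.mem_nhds hψx)).mdifferentiableAt
          (by simp)).hasMFDerivAt
      have c3 := HasMFDerivAt.comp x c2 c1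
      have c4 : (φ.symm ∘ ψ) =ᶠ[𝓝 x] id := by
        filter_upwards [φ.open_source.mem_nhds hxφ] with z hz
        show φ.symm (ψ z) = z
        rw [← hφψ z hz, φ.left_inv hz]
      have c5 := (hasMFDerivAt_id (I := 𝓘(ℝ, E)) x).congr_of_eventuallyEq c4
      have c6 := hasMFDerivAt_unique c3 c5
      let Gs : E →L[ℝ] E := mfderiv 𝓘(ℝ, E) 𝓘(ℝ, E) φ.symm (ψ x)
      have key : ∀ w : E, Gs (Dx w) = w := fun w => DFunLike.congr_fun c6 w
      intro u v huv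
      exact (key u).symm.trans ((congrArg Gs huv).trans (key v))
    have hinter : ∀ θ ∈ S, ∀ u : E, Dx (A.iso x θ u) = A.iso y θ (Dx u) := by
      intro θ hθ u
      have c1 : HasMFDerivAt 𝓘(ℝ, E) 𝓘(ℝ, E) ψ x (mfderiv 𝓘(ℝ, E) 𝓘(ℝ, E) ψ x) :=
        (hψ.mdifferentiableAt (by simp)).hasMFDerivAt
      have c2 : HasMFDerivAt 𝓘(ℝ, E) 𝓘(ℝ, E) ψ (A.act θ x)
          (mfderiv 𝓘(ℝ, E) 𝓘(ℝ, E) ψ (A.act θ x)) :=
        (hψ.mdifferentiableAt (by simp)).hasMFDerivAt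
      have c3 : HasMFDerivAt 𝓘(ℝ, E) 𝓘(ℝ, E) (A.act θ) x
          (mfderiv 𝓘(ℝ, E) 𝓘(ℝ, E) (A.act θ) x) :=
        ((A.smooth_right θ).mdifferentiableAt (by simp)).hasMFDerivAt
      have c4 := HasMFDerivAt.comp x c2 c3
      have c5 : HasMFDerivAt 𝓘(ℝ, E) 𝓘(ℝ, E) (A.iso y θ) (ψ x) (A.iso y θ) :=
        ((A.iso y θ).hasFDerivAt).hasMFDerivAt
      have c6 := HasMFDerivAt.comp x c5 c1
      have c7 : (ψ ∘ A.act θ) = (A.iso y θ ∘ ψ) := by
        ext1 z; exact heq θ hθ z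
      rw [c7] at c4
      have c8 := DFunLike.congr_fun (hasMFDerivAt_unique c4 c6) u
      have c9 : (mfderiv 𝓘(ℝ, E) 𝓘(ℝ, E) ψ (A.act θ x)
          (mfderiv 𝓘(ℝ, E) 𝓘(ℝ, E) (A.act θ) x u : E) : E) = A.iso y θ (Dx u) := c8
      have c10 : ∀ z : P, z = x → ∀ w : E, (mfderiv 𝓘(ℝ, E) 𝓘(ℝ, E) ψ z w : E) = Dx w := by
        rintro _ rfl w; rfl
      exact (c10 _ (hxF θ hθ) _).symm.trans c9
    have hcomap : A.ES S x = (A.ES S y).comap Dx := by
      ext u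
      rw [Submodule.mem_comap, mem_ES, mem_ES]
      refine forall₂_congr fun θ hθ => ?_
      rw [← hinter θ hθ]
      exact ⟨fun h => by rw [h], fun h => hDx h⟩
    let De : E ≃ₗ[ℝ] E := LinearEquiv.ofInjectiveEndo Dx hDx
    have hcm : (A.ES S y).comap Dx = (A.ES S y).comap (De : E →ₗ[ℝ] E) := by
      congr 1
    rw [hcomap, hcm]
    exact LinearEquiv.finrank_eq (De.ofSubmodule' (A.ES S y))

end TS

end Pool.Agent.TH607
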