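import Mathlib
import Pool.Agent.TH607.Fx.SliceC
import Pool.Agent.TH75.ClosedSub

/-! Semicontinuity and rationality of isotropy algebras. -/

open scoped Topology ContDiff Manifold
open Set Metric Bundle Pool.Agent.Helper186 Pool.Agent.H826R2.Wein

noncomputable section

namespace Pool.Agent.TH607

set_option linter.unusedSectionVars false

universe u

variable {E : Type u} [NormedAddCommGroup E] [NormedSpace ℝ E] [FiniteDimensional ℝ E]
  {P : Type*} [TopologicalSpace P] [ChartedSpace E P] [IsManifold 𝓘(ℝ, E) ∞ P]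
  {β : (x : P) → TangentSpace 𝓘(ℝ, E) x →L[ℝ] ℝ} {R : (x : P) → TangentSpace 𝓘(ℝ, E) x}

namespace TS

variable {m : ℕ} (A : TS β m)

/-- the isotropy algebra -/
def isoAlg (x : P) : Submodule ℝ (Fin m → ℝ) := LinearMap.ker (A.XL x)

lemma mem_isoAlg {x : P} {κ : Fin m → ℝ} : κ ∈ A.isoAlg x ↔ A.X κ x = 0 := LinearMap.mem_ker

lemma mem_isoAlg_iff [T2Space P] {x : P} {κ : Fin m → ℝ} :
    κ ∈ A.isoAlg x ↔ ∀ t : ℝ, t • κ ∈ A.stab x := by
  constructor
  · intro h t
    exact A.fam_eq_of_X_eq_zero (A.mem_isoAlg.1 h) t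
  · intro h
    have h1 : x ∈ A.Fix (Submodule.span ℝ {κ}) := by
      intro θ hθ
      obtain ⟨t, rfl⟩ := Submodule.mem_span_singleton.1 hθ
      exact h t
    exact A.mem_isoAlg.2 (A.X_eq_zero_of_fix h1 (Submodule.mem_span_singleton_self κ))

lemma mem_Fix_iff [T2Space P] {S : Submodule ℝ (Fin m → ℝ)} {x : P} :
    x ∈ A.Fix S ↔ S ≤ A.isoAlg x := by
  constructor
  · intro h κ hκ
    exact A.mem_isoAlg.2 (A.X_eq_zero_of_fix h hκ)
  · intro h θ hθ
    have := A.mem_isoAlg_iff.1 (h hθ) 1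
    rwa [one_smul] at this

/-- **Rationality** of isotropy algebras. -/
lemma rational_isoAlg [T2Space P] (x : P) : Rational (A.isoAlg x) :=
  Pool.Agent.TH75.ClosedSub.rational_lines (A.stab x) (A.isClosed_stab x)
    (A.int_mem_stab x) (A.isoAlg x) (fun _ => A.mem_isoAlg_iff)

/-- **Semicontinuity** of isotropy algebras. -/
lemma isoAlg_near [T2Space P] (x : P) : ∀ᶠ z in 𝓝 x, A.isoAlg z ≤ A.isoAlg x := by
  obtain ⟨δ, hδ, hsmall⟩ := Pool.Agent.TH75.ClosedSub.exists_small (A.stab x)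
    (A.isClosed_stab x) (A.isoAlg x) (fun _ => A.mem_isoAlg_iff)
  set K : Set (Fin m → ℝ) := Icc 0 1 ∩ {θ | ∀ g ∈ A.stab x, δ / 4 ≤ ‖θ - g‖} with hK
  have hKc : IsCompact K := by
    apply isCompact_Icc.inter_right
    have : {θ : Fin m → ℝ | ∀ g ∈ A.stab x, δ / 4 ≤ ‖θ - g‖} =
        ⋂ g ∈ A.stab x, {θ | δ / 4 ≤ ‖θ - g‖} := by
      ext θ; simp
    rw [this]
    exact isClosed_biInter fun g _ => isClosed_le continuous_const (by fun_prop)
  have hcont : Continuous (fun p : (Fin m → ℝ) × P => A.act p.1 p.2) := A.smooth.continuous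
  have h1 : ∀ᶠ z in 𝓝 x, ∀ θ ∈ K, A.act θ z ≠ z := by
    apply hKc.eventually_forall_of_forall_eventually
    intro θ hθ
    have h2 : IsOpen {p : P × (Fin m → ℝ) | A.act p.2 p.1 ≠ p.1} :=
      isOpen_ne_fun (hcont.comp (continuous_snd.prodMk continuous_fst)) continuous_fst
    apply h2.mem_nhds
    intro h3
    have h4 : θ ∈ A.stab x := h3
    have h5 := hθ.2 θ h4
    rw [sub_self, norm_zero] at h5
    linarith
  filter_upwards [h1] with z hz κ hκ
  have hst : ∀ t : ℝ, t • κ ∈ A.stab z := A.mem_isoAlg_iff.1 hκ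
  -- approximation by elements of the stabiliser of `x`
  have happ : ∀ θ ∈ A.stab z, ∃ g ∈ A.stab x, ‖θ - g‖ < δ / 4 := by
    intro θ hθ
    have h2 : (fun i => Int.fract (θ i)) ∉ K := by
      intro h
      apply hz _ h
      rw [← A.act_fract]
      exact hθ
    have h3 : (fun i => Int.fract (θ i)) ∈ Icc (0 : Fin m → ℝ) 1 :=
      ⟨fun i => Int.fract_nonneg _, fun i => (Int.fract_lt_one _).le⟩
    have h4 : ∃ g ∈ A.stab x, ‖(fun i => Int.fract (θ i)) - g‖ < δ / 4 := by
      by_contra hno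
      push Not at hno
      exact h2 ⟨h3, hno⟩
    obtain ⟨g, hg, hgn⟩ := h4
    refine ⟨g + (rv (fun i => ⌊θ i⌋)), (A.stab x).add_mem hg (A.int_mem_stab x _), ?_⟩
    have h5 : θ - (g + (rv (fun i => ⌊θ i⌋))) = (fun i => Int.fract (θ i)) - g := by
      ext i
      simp only [Pi.sub_apply, Pi.add_apply, rv, Int.fract]
      ring
    rw [h5]
    exact hgn
  obtain ⟨h, hh, hhκ⟩ : ∃ h > (0:ℝ), h * ‖κ‖ < δ / 2 := by
    refine ⟨δ / (4 * (‖κ‖ + 1)), by positivity, ?_⟩
    rw [div_mul_eq_mul_div, div_lt_div_iff₀ (by positivity) (by norm_num)]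
    nlinarith [norm_nonneg κ]
  choose g hg hgn using fun n : ℕ => happ ((n * h : ℝ) • κ) (hst _)
  have hgV : ∀ n, g n ∈ A.isoAlg x := by
    intro n
    induction n with
    | zero =>
      apply hsmall _ (hg 0)
      have := hgn 0
      simp only [Nat.cast_zero, zero_mul, zero_smul, zero_sub, norm_neg] at this
      linarith
    | succ n ih =>
      have h2 : g (n + 1) - g n ∈ A.isoAlg x := by
        apply hsmall _ ((A.stab x).sub_mem (hg _) (hg _))
        have e : g (n + 1) - g n = -((((n + 1 : ℕ) : ℝ) * h) • κ - g (n + 1)) + h • κ +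
            ((n * h : ℝ) • κ - g n) := by
          push_cast
          rw [add_mul, add_smul, one_mul]
          abel
        rw [e]
        have h3 := norm_add₃_le (a := -((((n + 1 : ℕ) : ℝ) * h) • κ - g (n + 1))) (b := h • κ)
          (c := ((n * h : ℝ) • κ - g n))
        rw [norm_neg, norm_smul, Real.norm_of_nonneg hh.le] at h3
        have h4 := hgn (n + 1)
        have h5 := hgn n
        linarith
      have := (A.isoAlg x).add_mem h2 ih
      rwa [sub_add_cancel] at this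
  have hclosed : IsClosed (A.isoAlg x : Set (Fin m → ℝ)) := Submodule.closed_of_finiteDimensional _
  have hlim : Filter.Tendsto (fun n : ℕ => (((n + 1 : ℕ) : ℝ) * h)⁻¹ • g (n + 1)) Filter.atTop
      (𝓝 κ) := by
    rw [tendsto_iff_norm_sub_tendsto_zero]
    have h2 : Filter.Tendsto (fun n : ℕ => (δ / 4 / h) * (1 / ((n : ℝ) + 1))) Filter.atTop
        (𝓝 0) := by
      have := (tendsto_one_div_add_atTop_nhds_zero_nat (𝕜 := ℝ)).const_mul (δ / 4 / h)
      rwa [mul_zero] at this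
    refine squeeze_zero (fun n => norm_nonneg _) (fun n => ?_) h2
    have hpos : 0 < ((n + 1 : ℕ) : ℝ) * h := by positivity
    have e : (((n + 1 : ℕ) : ℝ) * h)⁻¹ • g (n + 1) - κ =
        -((((n + 1 : ℕ) : ℝ) * h)⁻¹ • ((((n + 1 : ℕ) : ℝ) * h) • κ - g (n + 1))) := by
      rw [smul_sub, smul_smul, inv_mul_cancel₀ hpos.ne', one_smul]
      abel
    rw [e, norm_neg, norm_smul, norm_inv, Real.norm_of_nonneg hpos.le]
    have h3 := (hgn (n + 1)).le
    rw [inv_mul_le_iff₀ hpos]
    have e2 : ((n + 1 : ℕ) : ℝ) * h * ((δ / 4 / h) * (1 / ((n : ℝ) + 1))) = δ / 4 := by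
      push_cast
      field_simp
    rw [e2]
    exact h3
  exact hclosed.mem_of_tendsto hlim (Filter.Eventually.of_forall fun n =>
    (A.isoAlg x).smul_mem _ (hgV (n + 1)))

end TS

end Pool.Agent.TH607
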