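import Mathlib
import Pool.Agent.TH607.Fx.Semi

/-! Components of fixed point sets of maximal isotropy. -/

open scoped Topology ContDiff Manifold
open Set Metric Bundle Pool.Agent.Helper186 Pool.Agent.H826R2.Wein

noncomputable section

namespace Pool.Agent.TH607

set_option linter.unusedSectionVars false

universe u

variable {E : Type u} [NormedAddCommGroup E] [NormedSpace ℝ E] [FiniteDimensional ℝ E]
  {P : Type*} [TopologicalSpace P] [ChartedSpace E P] [IsManifold 𝓘(ℝ, E) ∞ P]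
  {β : (x : P) → TangentSpace 𝓘(ℝ, E) x →L[ℝ] ℝ} {R : (x : P) → TangentSpace 𝓘(ℝ, E) x}

namespace TS

variable {m : ℕ} (A : TS β m)
  {Γ : Type*} [Group Γ] [MulAction Γ P]
  (hs : ∀ γ : Γ, ContMDiff 𝓘(ℝ, E) 𝓘(ℝ, E) ∞ (fun x : P => γ • x)) (hN : A.Norm Γ)

omit [FiniteDimensional ℝ E] [IsManifold 𝓘(ℝ, E) ∞ P] in
lemma _root_.Pool.Agent.TH607.injective_smul
    (hs : ∀ γ : Γ, ContMDiff 𝓘(ℝ, E) 𝓘(ℝ, E) ∞ (fun x : P => γ • x)) (γ : Γ) (x : P) :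
    Function.Injective (show E →L[ℝ] E from mfderiv 𝓘(ℝ, E) 𝓘(ℝ, E) (fun x : P => γ • x) x) := by
  have h1 : HasMFDerivAt 𝓘(ℝ, E) 𝓘(ℝ, E) (fun x : P => γ • x) x
      (mfderiv 𝓘(ℝ, E) 𝓘(ℝ, E) (fun x : P => γ • x) x) :=
    ((hs γ).mdifferentiableAt (by simp)).hasMFDerivAt
  have h2 : HasMFDerivAt 𝓘(ℝ, E) 𝓘(ℝ, E) (fun x : P => γ⁻¹ • x) (γ • x)
      (mfderiv 𝓘(ℝ, E) 𝓘(ℝ, E) (fun x : P => γ⁻¹ • x) (γ • x)) :=
    ((hs γ⁻¹).mdifferentiableAt (by simp)).hasMFDerivAt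
  have h3 := HasMFDerivAt.comp x h2 h1
  have h4 : ((fun x : P => γ⁻¹ • x) ∘ fun x : P => γ • x) = id := by
    ext1 z; exact inv_smul_smul γ z
  rw [h4] at h3
  have h5 := hasMFDerivAt_unique h3 (hasMFDerivAt_id x)
  let G : E →L[ℝ] E := mfderiv 𝓘(ℝ, E) 𝓘(ℝ, E) (fun x : P => γ⁻¹ • x) (γ • x)
  let D : E →L[ℝ] E := mfderiv 𝓘(ℝ, E) 𝓘(ℝ, E) (fun x : P => γ • x) x
  have key : ∀ w : E, G (D w) = w := fun w => DFunLike.congr_fun h5 w
  intro u v huv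
  exact (key u).symm.trans ((congrArg G huv).trans (key v))

include hs hN

lemma X_equiv (γ : Γ) : ∃ B : Matrix (Fin m) (Fin m) ℤ,
    (∀ (θ : Fin m → ℝ) (x : P),
      γ • A.act θ x = A.act ((B.map (Int.cast : ℤ → ℝ)).mulVec θ) (γ • x)) ∧
    ∀ (κ : Fin m → ℝ) (x : P),
      (mfderiv 𝓘(ℝ, E) 𝓘(ℝ, E) (fun x : P => γ • x) x (A.X κ x) : E) =
        A.X ((B.map (Int.cast : ℤ → ℝ)).mulVec κ) (γ • x) := by
  obtain ⟨B, hB⟩ := hN.norm γ
  refine ⟨B, hB, fun κ x => ?_⟩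
  refine A.push_X (hs γ) ?_ x
  intro t y
  unfold fam
  show γ • A.act (t • κ) y = _
  rw [hB, Matrix.mulVec_smul]

lemma move_iso (γ : Γ) {x z : P} (h : A.isoAlg x ≤ A.isoAlg z) :
    A.isoAlg (γ • x) ≤ A.isoAlg (γ • z) := by
  obtain ⟨B, -, hB⟩ := A.X_equiv hs hN γ⁻¹
  intro κ hκ
  have h1 := hB κ (γ • x)
  have h2 := hB κ (γ • z)
  have e1 : (mfderiv 𝓘(ℝ, E) 𝓘(ℝ, E) (fun x : P => γ⁻¹ • x) (γ • x) (A.X κ (γ • x)) : E) = 0 := by
    rw [A.mem_isoAlg.1 hκ]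
    exact map_zero (mfderiv 𝓘(ℝ, E) 𝓘(ℝ, E) (fun x : P => γ⁻¹ • x) (γ • x))
  have e2 : ∀ z w : P, z = w → A.X ((B.map (Int.cast : ℤ → ℝ)).mulVec κ) z = (0 : E) →
      A.X ((B.map (Int.cast : ℤ → ℝ)).mulVec κ) w = (0 : E) := by
    rintro z _ rfl h; exact h
  have h3 : ((B.map (Int.cast : ℤ → ℝ)).mulVec κ) ∈ A.isoAlg x :=
    A.mem_isoAlg.2 (e2 _ _ (inv_smul_smul γ x) (h1.symm.trans e1))
  have h4 := A.mem_isoAlg.1 (h h3)
  have h5 : (mfderiv 𝓘(ℝ, E) 𝓘(ℝ, E) (fun x : P => γ⁻¹ • x) (γ • z) (A.X κ (γ • z)) : E) = 0 :=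
    h2.trans (e2 _ _ (inv_smul_smul γ z).symm h4)
  apply A.mem_isoAlg.2
  have hinj := injective_smul hs γ⁻¹ (γ • z)
  apply hinj
  exact h5.trans (map_zero (show E →L[ℝ] E from
    mfderiv 𝓘(ℝ, E) 𝓘(ℝ, E) (fun x : P => γ⁻¹ • x) (γ • z))).symm

lemma finrank_range_le (γ : Γ) (x : P) :
    Module.finrank ℝ (LinearMap.range (A.XL x)) ≤
      Module.finrank ℝ (LinearMap.range (A.XL (γ • x))) := by
  obtain ⟨B, -, hB⟩ := A.X_equiv hs hN γ
  let D : E →ₗ[ℝ] E := (show E →L[ℝ] E from mfderiv 𝓘(ℝ, E) 𝓘(ℝ, E) (fun x : P => γ • x) x)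
  have hD : Function.Injective D := injective_smul hs γ x
  have h1 : LinearMap.range (D.domRestrict (LinearMap.range (A.XL x))) ≤
      LinearMap.range (A.XL (γ • x)) := by
    rintro _ ⟨⟨_, ⟨κ, rfl⟩⟩, rfl⟩
    exact ⟨(B.map (Int.cast : ℤ → ℝ)).mulVec κ, (hB κ x).symm⟩
  rw [← LinearMap.finrank_range_of_inj (f := D.domRestrict (LinearMap.range (A.XL x))) (fun a b hab => Subtype.ext (hD hab))]
  exact Submodule.finrank_mono h1

lemma finrank_isoAlg_smul (γ : Γ) (x : P) :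
    Module.finrank ℝ (A.isoAlg (γ • x)) = Module.finrank ℝ (A.isoAlg x) := by
  have h1 := A.finrank_range_le hs hN γ x
  have h2 := A.finrank_range_le hs hN γ⁻¹ (γ • x)
  rw [inv_smul_smul] at h2
  have h3 := LinearMap.finrank_range_add_finrank_ker (A.XL x)
  have h4 := LinearMap.finrank_range_add_finrank_ker (A.XL (γ • x))
  unfold isoAlg
  omega

omit hs hN

/-- points of maximal isotropy -/
def MaxIso (x₀ : P) : Prop :=
  ∀ z, Module.finrank ℝ (A.isoAlg z) ≤ Module.finrank ℝ (A.isoAlg x₀)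

/-- the component of the fixed point set -/
def C0 (x₀ : P) : Set P := connectedComponentIn (A.Fix (A.isoAlg x₀)) x₀

section comp

variable [T2Space P] {x₀ : P}

lemma self_mem_Fix (x₀ : P) : x₀ ∈ A.Fix (A.isoAlg x₀) := A.mem_Fix_iff.2 le_rfl

lemma self_mem_C0 (x₀ : P) : x₀ ∈ A.C0 x₀ := mem_connectedComponentIn (A.self_mem_Fix x₀)

omit [T2Space P] in
lemma C0_subset : A.C0 x₀ ⊆ A.Fix (A.isoAlg x₀) := connectedComponentIn_subset _ _

omit [T2Space P] in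
lemma isPreconnected_C0 : IsPreconnected (A.C0 x₀) := isPreconnected_connectedComponentIn

lemma isClosed_C0 : IsClosed (A.C0 x₀) := by
  rw [← closure_subset_iff_isClosed]
  have h1 : closure (A.C0 x₀) ⊆ A.Fix (A.isoAlg x₀) :=
    (A.isClosed_Fix _).closure_subset_iff.2 A.C0_subset
  exact A.isPreconnected_C0.closure.subset_connectedComponentIn
    (subset_closure (A.self_mem_C0 x₀)) h1

lemma subset_C0 {s : Set P} (h : IsPreconnected s) (hF : s ⊆ A.Fix (A.isoAlg x₀)) {z : P}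
    (hz : z ∈ s) (hzC : z ∈ A.C0 x₀) : s ⊆ A.C0 x₀ := by
  have h1 : A.C0 x₀ = connectedComponentIn (A.Fix (A.isoAlg x₀)) z := connectedComponentIn_eq hzC
  rw [h1]
  exact h.subset_connectedComponentIn hz hF

lemma isoAlg_eq (hmax : A.MaxIso x₀) {z : P} (hz : z ∈ A.Fix (A.isoAlg x₀)) :
    A.isoAlg z = A.isoAlg x₀ :=
  (Submodule.eq_of_le_of_finrank_le (A.mem_Fix_iff.1 hz) (hmax z)).symm

lemma act_mem_C0 {z : P} (hz : z ∈ A.C0 x₀) (θ : Fin m → ℝ) : A.act θ z ∈ A.C0 x₀ := by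
  have hpre : IsPreconnected ((fun t : ℝ => A.act (t • θ) z) '' univ) := by
    apply isPreconnected_univ.image
    exact ((A.smooth_left z).continuous.comp (by fun_prop)).continuousOn
  have hsub : ((fun t : ℝ => A.act (t • θ) z) '' univ) ⊆ A.Fix (A.isoAlg x₀) := by
    rintro _ ⟨t, -, rfl⟩ η hη
    show A.act η (A.act (t • θ) z) = A.act (t • θ) z
    rw [← A.add, add_comm, A.add, A.C0_subset hz η hη]
  have h1 := A.subset_C0 hpre hsub (z := z) ⟨0, mem_univ _, by simp [A.zero]⟩ hz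
  exact h1 ⟨1, mem_univ _, by simp⟩

lemma smul_mem_C0 (hs : ∀ γ : Γ, ContMDiff 𝓘(ℝ, E) 𝓘(ℝ, E) ∞ (fun x : P => γ • x))
    (hN : A.Norm Γ) (hmax : A.MaxIso x₀) {γ : Γ} {x z : P} (hx : x ∈ A.C0 x₀)
    (hγx : γ • x ∈ A.C0 x₀) (hz : z ∈ A.C0 x₀) : γ • z ∈ A.C0 x₀ := by
  have h1 : IsPreconnected ((fun x : P => γ • x) '' A.C0 x₀) :=
    A.isPreconnected_C0.image _ (hs γ).continuous.continuousOn
  have h2 : ((fun x : P => γ • x) '' A.C0 x₀) ⊆ A.Fix (A.isoAlg x₀) := by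
    rintro _ ⟨w, hw, rfl⟩
    rw [A.mem_Fix_iff, ← A.isoAlg_eq hmax (A.C0_subset hγx)]
    apply A.move_iso hs hN
    rw [A.isoAlg_eq hmax (A.C0_subset hx)]
    exact A.mem_Fix_iff.1 (A.C0_subset hw)
  exact A.subset_C0 h1 h2 (mem_image_of_mem _ hx) hγx (mem_image_of_mem _ hz)

/-- the dimension of the fixed vectors is constant on the component -/
lemma finrank_ES_const {n : ℕ} (ι : Imm (E := E) P n) {z : P} (hz : z ∈ A.C0 x₀) :
    Module.finrank ℝ (A.ES (A.isoAlg x₀) z) = Module.finrank ℝ (A.ES (A.isoAlg x₀) x₀) := by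
  refine A.isPreconnected_C0.constant (f := fun z => Module.finrank ℝ (A.ES (A.isoAlg x₀) z))
    ?_ hz (A.self_mem_C0 x₀)
  intro w hw
  obtain ⟨g⟩ := A.exists_good ι (A.rational_isoAlg x₀) (A.C0_subset hw)
  have h1 : (fun z => (Module.finrank ℝ (A.ES (A.isoAlg x₀) z) : ℕ)) =ᶠ[𝓝[A.C0 x₀] w]
      fun _ => (Module.finrank ℝ (A.ES (A.isoAlg x₀) w) : ℕ) := by
    filter_upwards [self_mem_nhdsWithin,
      mem_nhdsWithin_of_mem_nhds (g.φ.open_source.mem_nhds g.mem)] with v hv hv'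
    exact g.dim v hv' (A.C0_subset hv)
  have h2 : ContinuousWithinAt (fun _ : P => (Module.finrank ℝ (A.ES (A.isoAlg x₀) w) : ℕ))
    (A.C0 x₀) w := continuousWithinAt_const
  exact h2.congr_of_eventuallyEq h1 rfl

/-- slice charts of the component -/
lemma exists_sliceAt {n : ℕ} (ι : Imm (E := E) P n) (E' : Type*) [NormedAddCommGroup E']
    [NormedSpace ℝ E'] [FiniteDimensional ℝ E']
    (hE' : Module.finrank ℝ E' = Module.finrank ℝ (A.ES (A.isoAlg x₀) x₀)) {z : P}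
    (hz : z ∈ A.C0 x₀) {U : Set P} (hU : U ∈ 𝓝 z) :
    ∃ s : SliceAt (E := E) E' (A.C0 x₀) z, s.φ.source ⊆ U ∧
      (∀ x ∈ s.φ.source, x ∈ A.Fix (A.isoAlg x₀) → x ∈ A.C0 x₀) := by
  obtain ⟨g⟩ := A.exists_good ι (A.rational_isoAlg x₀) (A.C0_subset hz)
  obtain ⟨O, hOU, hO, hzO⟩ := mem_nhds_iff.1 hU
  have e : E' ≃ₗ[ℝ] A.ES (A.isoAlg x₀) z :=
    LinearEquiv.ofFinrankEq _ _ (by rw [hE', A.finrank_ES_const ι hz])
  let j₀ : E' →ₗ[ℝ] E := (A.ES (A.isoAlg x₀) z).subtype.comp (e : E' →ₗ[ℝ] _)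
  have hj₀ : Function.Injective j₀ := Subtype.val_injective.comp e.injective
  have hrange : ∀ w : E, w ∈ A.ES (A.isoAlg x₀) z ↔ ∃ v, j₀ v = w := by
    intro w
    constructor
    · intro hw
      refine ⟨e.symm ⟨w, hw⟩, ?_⟩
      show ((e (e.symm ⟨w, hw⟩) : A.ES (A.isoAlg x₀) z) : E) = w
      rw [LinearEquiv.apply_symm_apply]
    · rintro ⟨v, rfl⟩
      exact (e v).2
  obtain ⟨p₀, hp₀⟩ := LinearMap.exists_leftInverse_of_injective j₀ (LinearMap.ker_eq_bot.2 hj₀)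
  have hpj : ∀ v, p₀ (j₀ v) = v := fun v => DFunLike.congr_fun hp₀ v
  let φ := g.φ.restrOpen O hO
  have hsrc : ∀ x, x ∈ φ.source ↔ x ∈ g.φ.source ∧ x ∈ O := fun x => Iff.rfl
  have htgt : φ.target ⊆ g.φ.target := by
    intro w hw
    exact hw.1
  refine ⟨⟨φ, ?_, ?_, ?_, LinearMap.toContinuousLinearMap j₀, LinearMap.toContinuousLinearMap p₀,
    hpj, ?_⟩, ?_, ?_⟩
  · exact (hsrc z).2 ⟨g.mem, hzO⟩
  · exact g.smooth.mono (fun x hx => ((hsrc x).1 hx).1)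
  · exact g.smooth_symm.mono htgt
  · intro x hx
    have hx' := ((hsrc x).1 hx).1
    constructor
    · intro hxC
      have h1 := (g.iff x hx').1 (A.C0_subset hxC)
      obtain ⟨v, hv⟩ := (hrange _).1 h1
      show j₀ (p₀ (g.φ x)) = g.φ x
      rw [← hv, hpj]
    · intro h
      have h1 : g.φ x ∈ A.ES (A.isoAlg x₀) z := (hrange _).2 ⟨p₀ (g.φ x), h⟩
      have h2 := (g.iff x hx').2 h1
      exact A.subset_C0 g.conn inter_subset_left ⟨A.C0_subset hz, g.mem⟩ hz ⟨h2, hx'⟩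
  · intro x hx
    exact hOU ((hsrc x).1 hx).2
  · intro x hx hxF
    exact A.subset_C0 g.conn inter_subset_left ⟨A.C0_subset hz, g.mem⟩ hz
      ⟨hxF, ((hsrc x).1 hx).1⟩

end comp

end TS

end Pool.Agent.TH607
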