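import Mathlib
import Pool.Agent.TH607.Fx.Comp
import Pool.Agent.H826R2.Wein.Main

/-! The image of a component of a fixed point set is a closed submanifold. -/

open scoped Topology ContDiff Manifold
open Set Metric Bundle Pool.Agent.Helper186 Pool.Agent.H826R2.Wein

noncomputable section

namespace Pool.Agent.TH607

set_option linter.unusedSectionVars false

namespace Slices

variable {E : Type*} [NormedAddCommGroup E] [NormedSpace ℝ E]
  {E' : Type*} [NormedAddCommGroup E'] [NormedSpace ℝ E']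
  {X : Type*} [TopologicalSpace X] [ChartedSpace E X]
  {A : Set X} (S : Slices (E := E) E' A) [cs : ChartedSpace E' A] (h : cs = S.charted)

include h

lemma mfd : IsManifold 𝓘(ℝ, E') ∞ A := by
  subst h
  exact S.isManifold

lemma val : ContMDiff 𝓘(ℝ, E') 𝓘(ℝ, E) ∞ (Subtype.val : A → X) := by
  subst h
  exact S.contMDiff_val

lemma inj (a : A) : Function.Injective
    (mfderiv 𝓘(ℝ, E') 𝓘(ℝ, E) (Subtype.val : A → X) a) := by
  subst h
  exact S.injective_mfderiv_val a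

lemma ofValAt {F : Type*} [NormedAddCommGroup F] [NormedSpace ℝ F] {H : Type*}
    [TopologicalSpace H] {I : ModelWithCorners ℝ F H}
    {N : Type*} [TopologicalSpace N] [ChartedSpace H N] {g : N → A} {n : N}
    (hg : ContMDiffAt I 𝓘(ℝ, E) ∞ (fun x => (g x : X)) n) :
    ContMDiffAt I 𝓘(ℝ, E') ∞ g n := by
  subst h
  exact S.contMDiffAt_of_val hg

lemma ofVal {F : Type*} [NormedAddCommGroup F] [NormedSpace ℝ F] {H : Type*}
    [TopologicalSpace H] {I : ModelWithCorners ℝ F H}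
    {N : Type*} [TopologicalSpace N] [ChartedSpace H N] {g : N → A}
    (hg : ContMDiff I 𝓘(ℝ, E) ∞ (fun x => (g x : X))) :
    ContMDiff I 𝓘(ℝ, E') ∞ g := fun n => S.ofValAt h (hg n)

end Slices

universe u

variable {E : Type u} [NormedAddCommGroup E] [NormedSpace ℝ E] [FiniteDimensional ℝ E]
  {M : Type*} [TopologicalSpace M] [ChartedSpace E M] [IsManifold 𝓘(ℝ, E) ∞ M]
  {P : Type*} [TopologicalSpace P] [ChartedSpace E P] [IsManifold 𝓘(ℝ, E) ∞ P]
  {β : (x : P) → TangentSpace 𝓘(ℝ, E) x →L[ℝ] ℝ} {R : (x : P) → TangentSpace 𝓘(ℝ, E) x}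

namespace TS

variable {m : ℕ} (A : TS β m) {Γ : Type*} [Group Γ] [MulAction Γ P] {q : P → M}
  [T2Space P] {x₀ : P}

/-- points near the component lying over its image belong to the component -/
lemma near_image (hq : RegCover (E := E) q Γ) (hN : A.Norm Γ) (hmax : A.MaxIso x₀) {z : P}
    (hz : z ∈ A.C0 x₀) : ∀ᶠ z' in 𝓝 z, q z' ∈ q '' A.C0 x₀ → z' ∈ A.Fix (A.isoAlg x₀) := by
  filter_upwards [A.isoAlg_near z] with z' hz' hq'
  obtain ⟨c, hc, hcz⟩ := hq'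
  obtain ⟨γ, hγ⟩ := (hq.fibre c z').1 hcz
  rw [A.isoAlg_eq hmax (A.C0_subset hz)] at hz'
  have h1 : Module.finrank ℝ (A.isoAlg z') = Module.finrank ℝ (A.isoAlg x₀) := by
    rw [← hγ, A.finrank_isoAlg_smul hq.smooth hN, A.isoAlg_eq hmax (A.C0_subset hc)]
  have h2 : A.isoAlg z' = A.isoAlg x₀ := Submodule.eq_of_le_of_finrank_eq hz' h1
  rw [A.mem_Fix_iff, h2]

/-- simultaneous slice charts of the component and of its image -/
structure Pair (E' : Type*) [NormedAddCommGroup E'] [NormedSpace ℝ E'] (q : P → M) (x₀ z : P) where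
  Φ : PartialDiffeomorph 𝓘(ℝ, E) 𝓘(ℝ, E) P M ∞
  mem : z ∈ Φ.source
  eq : EqOn q Φ Φ.source
  s : SliceAt (E := E) E' (A.C0 x₀) z
  sub : s.φ.source ⊆ Φ.source
  img : ∀ x ∈ s.φ.source, q x ∈ q '' A.C0 x₀ → x ∈ A.C0 x₀

lemma exists_pair (hq : RegCover (E := E) q Γ) (hN : A.Norm Γ) (hmax : A.MaxIso x₀)
    {n : ℕ} (ι : Imm (E := E) P n) (E' : Type*) [NormedAddCommGroup E']
    [NormedSpace ℝ E'] [FiniteDimensional ℝ E']
    (hE' : Module.finrank ℝ E' = Module.finrank ℝ (A.ES (A.isoAlg x₀) x₀)) {z : P}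
    (hz : z ∈ A.C0 x₀) : Nonempty (A.Pair E' q x₀ z) := by
  obtain ⟨Φ, hzΦ, hΦ⟩ := hq.diffeo z
  obtain ⟨s, hs1, hs2⟩ := A.exists_sliceAt ι E' hE' hz
    (Filter.inter_mem (Φ.open_source.mem_nhds hzΦ) (A.near_image hq hN hmax hz))
  exact ⟨⟨Φ, hzΦ, hΦ, s, fun x hx => (hs1 hx).1, fun x hx hxq => hs2 x hx ((hs1 hx).2 hxq)⟩⟩

namespace Pair

variable {A}
variable {E' : Type*} [NormedAddCommGroup E'] [NormedSpace ℝ E'] {z : P} (p : A.Pair E' q x₀ z)

lemma q_symm {w : M} (hw : w ∈ p.Φ.target) : q (p.Φ.toPartialEquiv.symm w) = w := by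
  have h1 : p.Φ.toPartialEquiv.symm w ∈ p.Φ.source := p.Φ.toPartialEquiv.map_target hw
  rw [p.eq h1]
  exact p.Φ.toPartialEquiv.right_inv hw

lemma symm_q {x : P} (hx : x ∈ p.Φ.source) : p.Φ.toPartialEquiv.symm (q x) = x := by
  rw [p.eq hx]
  exact p.Φ.toPartialEquiv.left_inv hx

lemma q_mem {x : P} (hx : x ∈ p.Φ.source) : q x ∈ p.Φ.target := by
  rw [p.eq hx]
  exact p.Φ.toPartialEquiv.map_source hx

/-- the slice chart of the image -/
def image : SliceAt (E := E) E' (q '' A.C0 x₀) (q z) where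
  φ := p.Φ.toOpenPartialHomeomorph.symm.trans p.s.φ
  mem := by
    rw [OpenPartialHomeomorph.trans_source]
    refine ⟨p.q_mem p.mem, ?_⟩
    show p.Φ.toPartialEquiv.symm (q z) ∈ p.s.φ.source
    rw [p.symm_q p.mem]
    exact p.s.mem
  smooth := by
    rw [OpenPartialHomeomorph.trans_source]
    exact p.s.smooth.comp (p.Φ.contMDiffOn_invFun.mono inter_subset_left) (fun x hx => hx.2)
  smooth_symm := by
    rw [OpenPartialHomeomorph.trans_target]
    exact p.Φ.contMDiffOn_toFun.comp (p.s.smooth_symm.mono inter_subset_left) (fun x hx => hx.2)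
  j := p.s.j
  p := p.s.p
  pj := p.s.pj
  iff := by
    intro w hw
    rw [OpenPartialHomeomorph.trans_source] at hw
    obtain ⟨hw1, hw2⟩ := hw
    have hw1' : w ∈ p.Φ.target := hw1
    have hw2' : p.Φ.toPartialEquiv.symm w ∈ p.s.φ.source := hw2
    have h1 : w ∈ q '' A.C0 x₀ ↔ p.Φ.toPartialEquiv.symm w ∈ A.C0 x₀ := by
      constructor
      · intro h
        apply p.img _ hw2'
        rw [p.q_symm hw1']
        exact h
      · intro h
        exact ⟨_, h, p.q_symm hw1'⟩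
    rw [h1]
    exact p.s.iff _ hw2'

end Pair

/-- **The image of the component is closed.** -/
lemma isClosed_image (hq : RegCover (E := E) q Γ) (hN : A.Norm Γ) (hmax : A.MaxIso x₀)
    {n : ℕ} (ι : Imm (E := E) P n) : IsClosed (q '' A.C0 x₀) := by
  rw [← closure_subset_iff_isClosed]
  intro w hw
  obtain ⟨p, rfl⟩ := hq.surj w
  obtain ⟨g⟩ := A.exists_good ι (A.rational_isoAlg p) (A.self_mem_Fix p)
  obtain ⟨U, hU, hUo, hpU⟩ := eventually_nhds_iff.1
    ((A.isoAlg_near p).and (g.φ.open_source.mem_nhds g.mem))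
  have h1 : IsOpen (q '' U) := hq.diffeo.isOpenMap U hUo
  obtain ⟨_, ⟨z', hz'U, rfl⟩, c, hc, hcz⟩ := mem_closure_iff.1 hw (q '' U) h1 ⟨p, hpU, rfl⟩
  obtain ⟨γ, hγ⟩ := (hq.fibre c z').1 hcz
  have h2 : A.isoAlg z' ≤ A.isoAlg p := (hU z' hz'U).1
  have h3 : Module.finrank ℝ (A.isoAlg z') = Module.finrank ℝ (A.isoAlg x₀) := by
    rw [← hγ, A.finrank_isoAlg_smul hq.smooth hN, A.isoAlg_eq hmax (A.C0_subset hc)]
  have h4 : A.isoAlg z' = A.isoAlg p :=
    Submodule.eq_of_le_of_finrank_le h2 (by rw [h3]; exact hmax p)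
  -- the preconnected set
  have h5 : z' ∈ A.Fix (A.isoAlg p) := A.mem_Fix_iff.2 h4.ge
  have h6 : IsPreconnected ((fun x : P => γ⁻¹ • x) '' (A.Fix (A.isoAlg p) ∩ g.φ.source)) :=
    g.conn.image _ (hq.smooth γ⁻¹).continuous.continuousOn
  have h7 : γ⁻¹ • z' = c := by rw [← hγ, inv_smul_smul]
  have h8 : ((fun x : P => γ⁻¹ • x) '' (A.Fix (A.isoAlg p) ∩ g.φ.source)) ⊆
      A.Fix (A.isoAlg x₀) := by
    rintro _ ⟨y, ⟨hy, -⟩, rfl⟩
    have h9 : A.isoAlg z' ≤ A.isoAlg y := by rw [h4]; exact A.mem_Fix_iff.1 hy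
    have h10 := A.move_iso hq.smooth hN γ⁻¹ h9
    rw [h7, A.isoAlg_eq hmax (A.C0_subset hc)] at h10
    exact A.mem_Fix_iff.2 h10
  have h9 := A.subset_C0 h6 h8 (z := c) ⟨z', ⟨h5, (hU z' hz'U).2⟩, h7⟩ hc
  exact ⟨γ⁻¹ • p, h9 ⟨p, ⟨A.self_mem_Fix p, g.mem⟩, rfl⟩, hq.proj_smul γ⁻¹ p⟩

/-- the restricted projection -/
def q' (q : P → M) (x₀ : P) (x : A.C0 x₀) : (q '' A.C0 x₀ : Set M) :=
  ⟨q x, mem_image_of_mem q x.2⟩

section

variable {E' : Type*} [NormedAddCommGroup E'] [NormedSpace ℝ E']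
  (SC : Slices (E := E) E' (A.C0 x₀)) (SM : Slices (E := E) E' (q '' A.C0 x₀))
  [csC : ChartedSpace E' (A.C0 x₀)] (hC : csC = SC.charted)
  [csM : ChartedSpace E' (q '' A.C0 x₀ : Set M)] (hM : csM = SM.charted)

include hC hM

lemma smooth_q' (hq : RegCover (E := E) q Γ) :
    ContMDiff 𝓘(ℝ, E') 𝓘(ℝ, E') ∞ (A.q' q x₀) :=
  SM.ofVal hM (hq.contMDiff.comp (SC.val hC))

open Classical in
lemma localDiffeo_q' (hq : RegCover (E := E) q Γ)
    (hp : ∀ z ∈ A.C0 x₀, Nonempty (A.Pair E' q x₀ z)) :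
    IsLocalDiffeomorph 𝓘(ℝ, E') 𝓘(ℝ, E') ∞ (A.q' q x₀) := by
  intro z
  obtain ⟨p⟩ := hp z z.2
  have hval := SC.val hC
  have hvalM := SM.val hM
  let inv : (q '' A.C0 x₀ : Set M) → A.C0 x₀ := fun w =>
    if h : p.Φ.toPartialEquiv.symm (w : M) ∈ A.C0 x₀ then ⟨_, h⟩ else z
  let tgt : Set (q '' A.C0 x₀ : Set M) :=
    {w | (w : M) ∈ p.Φ.target ∧ p.Φ.toPartialEquiv.symm (w : M) ∈ p.s.φ.source}
  have hmem : ∀ w ∈ tgt, p.Φ.toPartialEquiv.symm (w : M) ∈ A.C0 x₀ := by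
    rintro w ⟨hw1, hw2⟩
    apply p.img _ hw2
    rw [p.q_symm hw1]
    exact w.2
  have hinv : ∀ w ∈ tgt, (inv w : P) = p.Φ.toPartialEquiv.symm (w : M) := by
    intro w hw
    simp only [inv, dif_pos (hmem w hw)]
  have htgt : IsOpen tgt := by
    have h1 : IsOpen (p.Φ.target ∩ p.Φ.toPartialEquiv.symm ⁻¹' p.s.φ.source) :=
      p.Φ.contMDiffOn_invFun.continuousOn.isOpen_inter_preimage p.Φ.open_target
        p.s.φ.open_source
    exact h1.preimage continuous_subtype_val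
  refine ⟨⟨⟨A.q' q x₀, inv, {x | (x : P) ∈ p.s.φ.source}, tgt, ?_, ?_, ?_, ?_⟩, ?_, htgt, ?_, ?_⟩,
    p.s.mem, fun x _ => rfl⟩
  · intro x hx
    have hx' : (x : P) ∈ p.s.φ.source := hx
    refine ⟨p.q_mem (p.sub hx'), ?_⟩
    show p.Φ.toPartialEquiv.symm (q x) ∈ p.s.φ.source
    rw [p.symm_q (p.sub hx')]
    exact hx'
  · intro w hw
    show (inv w : P) ∈ p.s.φ.source
    rw [hinv w hw]
    exact hw.2
  · intro x hx
    have hx' : (x : P) ∈ p.s.φ.source := hx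
    apply Subtype.ext
    have h1 : (A.q' q x₀ x) ∈ tgt := by
      refine ⟨p.q_mem (p.sub hx'), ?_⟩
      show p.Φ.toPartialEquiv.symm (q x) ∈ p.s.φ.source
      rw [p.symm_q (p.sub hx')]
      exact hx'
    rw [hinv _ h1]
    exact p.symm_q (p.sub hx')
  · intro w hw
    apply Subtype.ext
    show q (inv w : P) = w
    rw [hinv w hw]
    exact p.q_symm hw.1
  · exact p.s.φ.open_source.preimage continuous_subtype_val
  · exact (A.smooth_q' SC SM hC hM hq).contMDiffOn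
  · intro w hw
    have h1 : ContMDiffAt 𝓘(ℝ, E') 𝓘(ℝ, E) ∞
        (fun w : (q '' A.C0 x₀ : Set M) => p.Φ.toPartialEquiv.symm (w : M)) w :=
      ContMDiffAt.comp w (g := p.Φ.toPartialEquiv.symm)
        (f := (Subtype.val : (q '' A.C0 x₀ : Set M) → M))
        (p.Φ.contMDiffOn_invFun.contMDiffAt (p.Φ.open_target.mem_nhds hw.1)) (hvalM w)
    have h2 : ContMDiffAt 𝓘(ℝ, E') 𝓘(ℝ, E) ∞ (fun w => (inv w : P)) w := by
      refine h1.congr_of_eventuallyEq ?_
      filter_upwards [htgt.mem_nhds hw] with v hv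
      exact hinv v hv
    exact (SC.ofValAt hC h2).contMDiffWithinAt

end

end TS

end Pool.Agent.TH607
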