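import Mathlib
import Pool.Agent.TH607.Fx.Quot

/-! The contact form restricts to a contact form on fixed point sets. -/

open scoped Topology ContDiff Manifold
open Set Metric Bundle Pool.Agent.Helper186 Pool.Agent.H826R2.Wein

noncomputable section

namespace Pool.Agent.TH607

set_option linter.unusedSectionVars false

universe u

variable {E : Type u} [NormedAddCommGroup E] [NormedSpace ℝ E] [FiniteDimensional ℝ E]
  {M : Type*} [TopologicalSpace M] [ChartedSpace E M] [IsManifold 𝓘(ℝ, E) ∞ M]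
  {P : Type*} [TopologicalSpace P] [ChartedSpace E P] [IsManifold 𝓘(ℝ, E) ∞ P]
  {β : (x : P) → TangentSpace 𝓘(ℝ, E) x →L[ℝ] ℝ} {R : (x : P) → TangentSpace 𝓘(ℝ, E) x}

namespace TS

variable {m : ℕ} (A : TS β m)

/-- averages of vectors -/
lemma exists_avg_list {n : ℕ} (ι : Imm (E := E) P n) {y : P} (L : List (Fin m → ℤ))
    (hy : ∀ k ∈ L, ∀ s : ℝ, A.act (s • rv k) y = y) (w : E) :
    ∃ w' : E, (∀ k ∈ L, ∀ s : ℝ, A.iso y (s • rv k) w' = w') ∧
      ∀ l : E →L[ℝ] ℝ, (∀ k ∈ L, ∀ (s : ℝ) (v : E), l (A.iso y (s • rv k) v) = l v) →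
        l w' = l w := by
  induction L with
  | nil => exact ⟨w, by simp, fun _ _ => rfl⟩
  | cons k L ih =>
    obtain ⟨v, hv, hvl⟩ := ih (fun k' hk' => hy k' (List.mem_cons_of_mem _ hk'))
    have hyk := hy k List.mem_cons_self
    have hcont : Continuous (fun s : ℝ => A.iso y (s • rv k) v) :=
      (A.contDiff_iso ι hyk).continuous.clm_apply continuous_const
    have hint : ∀ a b, IntervalIntegrable (fun s : ℝ => A.iso y (s • rv k) v)
        MeasureTheory.volume a b := fun a b => hcont.intervalIntegrable _ _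
    refine ⟨∫ s in (0:ℝ)..1, A.iso y (s • rv k) v, ?_, ?_⟩
    · intro k' hk' t
      rcases List.mem_cons.1 hk' with rfl | hk''
      · have h1 := (A.iso y (t • rv k')).intervalIntegral_comp_comm (hint 0 1)
        rw [← h1]
        have h2 : (fun s : ℝ => A.iso y (t • rv k') (A.iso y (s • rv k') v)) =
            fun s => (fun s : ℝ => A.iso y (s • rv k') v) (s + t) := by
          ext1 s
          show _ = A.iso y ((s + t) • rv k') v
          rw [add_comm, add_smul, A.iso_add (hyk s)]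
          rfl
        rw [h2, intervalIntegral.integral_comp_add_right (fun s : ℝ => A.iso y (s • rv k') v) t]
        have hper : Function.Periodic (fun s : ℝ => A.iso y (s • rv k') v) 1 := by
          intro s
          show A.iso y ((s + 1) • rv k') v = A.iso y (s • rv k') v
          have e1 : (s + 1) • rv k' = (fun i => ((k' i : ℤ) : ℝ)) + s • rv k' := by
            rw [add_smul, one_smul, add_comm]
            rfl
          rw [e1, A.iso_add (hyk s), A.iso_of_id (by ext1 x; exact A.period _ x)]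
          rfl
        have h3 := hper.intervalIntegral_add_eq (0 + t) 0
        rw [zero_add, zero_add] at h3
        rw [zero_add, add_comm 1 t, h3]
      · have h1 := (A.iso y (t • rv k')).intervalIntegral_comp_comm (hint 0 1)
        rw [← h1]
        congr 1
        ext1 s
        have h2 := A.iso_add (hyk s) (t • rv k')
        have h3 := A.iso_add (hy k' hk' t) (s • rv k)
        rw [add_comm, h3] at h2
        have h4 := DFunLike.congr_fun h2 v
        have h5 : A.iso y (s • rv k) (A.iso y (t • rv k') v) =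
          A.iso y (t • rv k') (A.iso y (s • rv k) v) := h4
        rw [← h5, hv k' hk'' t]
    · intro l hl
      rw [← hvl l (fun k' hk' => hl k' (List.mem_cons_of_mem _ hk'))]
      have h1 := l.intervalIntegral_comp_comm (hint 0 1)
      rw [← h1]
      have h2 : (fun s : ℝ => l (A.iso y (s • rv k) v)) = fun _ => l v := by
        ext1 s
        exact hl k List.mem_cons_self s v
      rw [h2]
      simp

lemma exists_avg {n : ℕ} (ι : Imm (E := E) P n) {S : Submodule ℝ (Fin m → ℝ)}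
    (hS : Rational S) {y : P} (hy : y ∈ A.Fix S) (w : E) :
    ∃ w' ∈ A.ES S y, ∀ l : E →L[ℝ] ℝ, (∀ θ ∈ S, ∀ v : E, l (A.iso y θ v) = l v) →
        l w' = l w := by
  obtain ⟨L, rfl⟩ := hS
  have hmem : ∀ k ∈ L, rv k ∈ Submodule.span ℝ {v : Fin m → ℝ | ∃ k ∈ L, rv k = v} :=
    fun k hk => Submodule.subset_span ⟨k, hk, rfl⟩
  obtain ⟨w', h1, h2⟩ := A.exists_avg_list ι L
    (fun k hk s => hy _ (Submodule.smul_mem _ s (hmem k hk))) w
  refine ⟨w', ?_, fun l hl => h2 l (fun k hk s v => hl _ (Submodule.smul_mem _ s (hmem k hk)) v)⟩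
  intro θ hθ
  suffices H : ∀ s : ℝ, A.iso y (s • θ) w' = w' by
    have := H 1
    rwa [one_smul] at this
  induction hθ using Submodule.span_induction with
  | mem v hv =>
    obtain ⟨k, hk, rfl⟩ := hv
    exact h1 k hk
  | zero =>
    intro s
    rw [smul_zero, A.iso_of_id (by ext1 x; exact A.zero x)]
    rfl
  | add a b ha' hb' ha hb =>
    intro s
    rw [smul_add, A.iso_add (hy _ (Submodule.smul_mem _ s hb'))]
    show A.iso y (s • a) (A.iso y (s • b) w') = w'
    rw [hb, ha]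
  | smul a b _ hb =>
    intro s
    rw [smul_smul]
    exact hb _

lemma β_isotropy {θ : Fin m → ℝ} {y : P} (hy : A.act θ y = y) (u : E) :
    β y (A.iso y θ u) = β y u := by
  have h5 := A.strict θ y u
  have h6 : ∀ z : P, z = y → ∀ a : E, β z a = β y a := by rintro _ rfl a; rfl
  exact (h6 _ hy _).symm.trans h5

/-- **Nondegeneracy on the fixed vectors.** -/
lemma nondeg_ES (c : CD β R) {n : ℕ} (ι : Imm (E := E) P n) {S : Submodule ℝ (Fin m → ℝ)}
    (hS : Rational S) {y : P} (hy : y ∈ A.Fix S) {u : E} (hu : u ∈ A.ES S y)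
    (hβu : β y u = 0)
    (h : ∀ v : E, v ∈ A.ES S y → β y v = 0 → extDer 𝓘(ℝ, E) β y u v = 0) : u = 0 := by
  apply HB_nondeg c.contact c.reeb y u
  intro w
  -- reduce to the kernel
  have hker : ∀ w : E, β y w = 0 → HB β y u w = 0 := by
    intro w hw
    obtain ⟨w', hw', hl⟩ := A.exists_avg ι hS hy w
    have h1 : β y w' = 0 := by
      have := hl (show E →L[ℝ] ℝ from β y) (fun θ hθ v => A.β_isotropy (hy θ hθ) v)
      exact this.trans hw
    have h2 := hl (show E →L[ℝ] ℝ from HB β y u) (fun θ hθ v => by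
      have h3 := A.HB_isotropy c.contact.smooth (hy θ hθ) u v
      have h4 : (mfderiv 𝓘(ℝ, E) 𝓘(ℝ, E) (A.act θ) y u : E) = u := hu θ hθ
      have h5 : HB β y (mfderiv 𝓘(ℝ, E) 𝓘(ℝ, E) (A.act θ) y u : E)
          (mfderiv 𝓘(ℝ, E) 𝓘(ℝ, E) (A.act θ) y v : E) =
          HB β y u (mfderiv 𝓘(ℝ, E) 𝓘(ℝ, E) (A.act θ) y v : E) :=
        congrArg (fun a : E => HB β y a (mfderiv 𝓘(ℝ, E) 𝓘(ℝ, E) (A.act θ) y v : E)) h4
      exact h5.symm.trans h3)
    have h3 : HB β y u w' = 0 := by
      rw [HB_apply, hβu, zero_mul, zero_add]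
      exact h w' hw' h1
    have h4 : HB β y u w' = HB β y u w := h2
    rw [← h4, h3]
  obtain ⟨r, hr⟩ : ∃ r : E, (R y : E) = r := ⟨_, rfl⟩
  have h1 : HB β y u r = 0 := by
    rw [← hr, HB_apply, hβu, zero_mul, zero_add, extDer_antisymm, c.reeb.kernel, neg_zero]
  have h2 : β y r = 1 := by rw [← hr]; exact c.reeb.unit y
  obtain ⟨w₀, hw₀⟩ : ∃ w₀ : E, (w : E) = w₀ := ⟨_, rfl⟩
  have gen : ∀ (b k : E →L[ℝ] ℝ), k (w₀ - b w₀ • r) = k w₀ - b w₀ * k r := by
    intro b k
    rw [map_sub, map_smul]; rfl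
  have h3 : HB β y u (w₀ - (β y w₀ : ℝ) • r : E) = 0 := by
    apply hker
    have h6 : β y (w₀ - (β y w₀ : ℝ) • r : E) = β y w₀ - β y w₀ * β y r :=
      gen (show E →L[ℝ] ℝ from β y) (show E →L[ℝ] ℝ from β y)
    rw [h6, h2]
    ring
  have h4 : HB β y u (w₀ - (β y w₀ : ℝ) • r : E) = HB β y u w₀ - β y w₀ * HB β y u r :=
    gen (show E →L[ℝ] ℝ from β y) (show E →L[ℝ] ℝ from HB β y u)
  rw [h4, h1] at h3
  have h5 : HB β y u w₀ = 0 := by linarith
  exact (congrArg (fun a : E => HB β y u a) hw₀).trans h5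

section

variable [T2Space P] {x₀ : P} {E' : Type*} [NormedAddCommGroup E'] [NormedSpace ℝ E']
  [FiniteDimensional ℝ E']
  (SC : Slices (E := E) E' (A.C0 x₀))
  [csC : ChartedSpace E' (A.C0 x₀)] (hC : csC = SC.charted)

include hC

/-- the derivative of the inclusion of the component -/
def Dval (z : A.C0 x₀) : E' →L[ℝ] E :=
  mfderiv 𝓘(ℝ, E') 𝓘(ℝ, E) (Subtype.val : A.C0 x₀ → P) z

lemma range_Dval {n : ℕ} (ι : Imm (E := E) P n)
    (hE' : Module.finrank ℝ E' = Module.finrank ℝ (A.ES (A.isoAlg x₀) x₀)) (z : A.C0 x₀)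
    (v : E) : v ∈ A.ES (A.isoAlg x₀) z ↔ ∃ u : E', A.Dval (E' := E') z u = v := by
  have hle : LinearMap.range (A.Dval (E' := E') z : E' →ₗ[ℝ] E) ≤ A.ES (A.isoAlg x₀) z := by
    rintro _ ⟨u, rfl⟩ θ hθ
    have hz := A.C0_subset z.2
    have h1 : HasMFDerivAt 𝓘(ℝ, E') 𝓘(ℝ, E) (Subtype.val : A.C0 x₀ → P) z
        (mfderiv 𝓘(ℝ, E') 𝓘(ℝ, E) (Subtype.val : A.C0 x₀ → P) z) :=
      ((SC.val hC).mdifferentiableAt (by simp)).hasMFDerivAt
    have h2 : HasMFDerivAt 𝓘(ℝ, E) 𝓘(ℝ, E) (A.act θ) (z : P)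
        (mfderiv 𝓘(ℝ, E) 𝓘(ℝ, E) (A.act θ) (z : P)) :=
      ((A.smooth_right θ).mdifferentiableAt (by simp)).hasMFDerivAt
    have h3 := HasMFDerivAt.comp z h2 h1
    have h4 : (A.act θ ∘ (Subtype.val : A.C0 x₀ → P)) = Subtype.val := by
      ext1 w; exact A.C0_subset w.2 θ hθ
    rw [h4] at h3
    exact DFunLike.congr_fun (hasMFDerivAt_unique h3 h1) u
  have hinj : Function.Injective (A.Dval (E' := E') z : E' →ₗ[ℝ] E) := SC.inj hC z
  have heq : LinearMap.range (A.Dval (E' := E') z : E' →ₗ[ℝ] E) = A.ES (A.isoAlg x₀) z := by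
    apply Submodule.eq_of_le_of_finrank_eq hle
    rw [LinearMap.finrank_range_of_inj hinj, hE', A.finrank_ES_const ι z.2]
  rw [← heq]
  exact Iff.rfl

end

end TS

end Pool.Agent.TH607
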