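import Mathlib
import Pool.Agent.TH607.Fx.Cont

/-! The contact structure of the image of a component of a fixed point set. -/

open scoped Topology ContDiff Manifold
open Set Metric Bundle Pool.Agent.Helper186 Pool.Agent.H826R2.Wein

noncomputable section

namespace Pool.Agent.TH607

set_option linter.unusedSectionVars false

universe u

variable {E : Type u} [NormedAddCommGroup E] [NormedSpace ℝ E] [FiniteDimensional ℝ E]
  {M : Type*} [TopologicalSpace M] [ChartedSpace E M] [IsManifold 𝓘(ℝ, E) ∞ M]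
  {P : Type*} [TopologicalSpace P] [ChartedSpace E P] [IsManifold 𝓘(ℝ, E) ∞ P]
  {Γ : Type*} [Group Γ] [MulAction Γ P] {q : P → M}
  {α : (x : M) → TangentSpace 𝓘(ℝ, E) x →L[ℝ] ℝ} {R : (x : M) → TangentSpace 𝓘(ℝ, E) x}

namespace TS

variable {m : ℕ} (A : TS (pullForm 𝓘(ℝ, E) 𝓘(ℝ, E) q α) m) [T2Space P] {x₀ : P}
  {E' : Type*} [NormedAddCommGroup E'] [NormedSpace ℝ E'] [FiniteDimensional ℝ E']
  (SC : Slices (E := E) E' (A.C0 x₀)) (SM : Slices (E := E) E' (q '' A.C0 x₀))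
  [csC : ChartedSpace E' (A.C0 x₀)] (hC : csC = SC.charted)
  [csM : ChartedSpace E' (q '' A.C0 x₀ : Set M)] (hM : csM = SM.charted)

/-- derivative of the inclusion of the image -/
def DvM (w : (q '' A.C0 x₀ : Set M)) : E' →L[ℝ] E :=
  mfderiv 𝓘(ℝ, E') 𝓘(ℝ, E) (Subtype.val : (q '' A.C0 x₀ : Set M) → M) w

/-- derivative of the restricted projection -/
def Dq' (z : A.C0 x₀) : E' →L[ℝ] E' :=
  mfderiv 𝓘(ℝ, E') 𝓘(ℝ, E') (A.q' q x₀) z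

/-- derivative of the projection -/
def Dq (q : P → M) (z : P) : E →L[ℝ] E := mfderiv 𝓘(ℝ, E) 𝓘(ℝ, E) q z

include hC hM

lemma DvM_Dq' (hq : RegCover (E := E) q Γ) (z : A.C0 x₀) (u : E') :
    A.DvM (E' := E') (A.q' q x₀ z) (A.Dq' (E' := E') z u) =
      Dq q z (A.Dval (E' := E') z u) := by
  have h1 : HasMFDerivAt 𝓘(ℝ, E') 𝓘(ℝ, E) (Subtype.val : A.C0 x₀ → P) z
      (mfderiv 𝓘(ℝ, E') 𝓘(ℝ, E) (Subtype.val : A.C0 x₀ → P) z) :=
    ((SC.val hC).mdifferentiableAt (by simp)).hasMFDerivAt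
  have h2 : HasMFDerivAt 𝓘(ℝ, E) 𝓘(ℝ, E) q (z : P) (mfderiv 𝓘(ℝ, E) 𝓘(ℝ, E) q (z : P)) :=
    (hq.mdiff _).hasMFDerivAt
  have h3 := HasMFDerivAt.comp z h2 h1
  have h4 : HasMFDerivAt 𝓘(ℝ, E') 𝓘(ℝ, E') (A.q' q x₀) z
      (mfderiv 𝓘(ℝ, E') 𝓘(ℝ, E') (A.q' q x₀) z) :=
    ((A.smooth_q' SC SM hC hM hq).mdifferentiableAt (by simp)).hasMFDerivAt
  have h5 : HasMFDerivAt 𝓘(ℝ, E') 𝓘(ℝ, E) (Subtype.val : (q '' A.C0 x₀ : Set M) → M)
      (A.q' q x₀ z)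
      (mfderiv 𝓘(ℝ, E') 𝓘(ℝ, E) (Subtype.val : (q '' A.C0 x₀ : Set M) → M) (A.q' q x₀ z)) :=
    ((SM.val hM).mdifferentiableAt (by simp)).hasMFDerivAt
  have h6 := HasMFDerivAt.comp z h5 h4
  have h7 : (Subtype.val : (q '' A.C0 x₀ : Set M) → M) ∘ (A.q' q x₀) =
      q ∘ (Subtype.val : A.C0 x₀ → P) := rfl
  rw [h7] at h6
  exact DFunLike.congr_fun (hasMFDerivAt_unique h6 h3) u

lemma surj_Dq' (hq : RegCover (E := E) q Γ)
    (hp : ∀ z ∈ A.C0 x₀, Nonempty (A.Pair E' q x₀ z)) (z : A.C0 x₀) :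
    Function.Surjective (A.Dq' (E' := E') z) := by
  have hld := A.localDiffeo_q' SC SM hC hM hq hp z
  have h2 := (IsLocalDiffeomorphAt.mfderivToContinuousLinearEquiv hld (by simp)).surjective
  intro v
  obtain ⟨u, hu⟩ := h2 v
  refine ⟨u, ?_⟩
  have h := IsLocalDiffeomorphAt.mfderivToContinuousLinearEquiv_coe hld (by simp)
  exact (DFunLike.congr_fun h u).symm.trans hu

/-- every tangent vector of the image comes from a fixed vector -/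
lemma lift_vec (hq : RegCover (E := E) q Γ)
    (hp : ∀ z ∈ A.C0 x₀, Nonempty (A.Pair E' q x₀ z)) {n : ℕ} (ι : Imm (E := E) P n)
    (hE' : Module.finrank ℝ E' = Module.finrank ℝ (A.ES (A.isoAlg x₀) x₀))
    (z : A.C0 x₀) (u : E') : ∃ a ∈ A.ES (A.isoAlg x₀) z,
      A.DvM (E' := E') (A.q' q x₀ z) u = Dq q z a ∧ (a = 0 → u = 0) := by
  obtain ⟨v, rfl⟩ := A.surj_Dq' SC SM hC hM hq hp z u
  refine ⟨A.Dval (E' := E') z v, (A.range_Dval SC hC ι hE' z _).2 ⟨v, rfl⟩,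
    A.DvM_Dq' SC SM hC hM hq z v, ?_⟩
  intro h
  have : v = 0 := SC.inj hC z (h.trans (map_zero (A.Dval (E' := E') z)).symm)
  rw [this, map_zero]

lemma push_vec (hq : RegCover (E := E) q Γ) {n : ℕ} (ι : Imm (E := E) P n)
    (hE' : Module.finrank ℝ E' = Module.finrank ℝ (A.ES (A.isoAlg x₀) x₀))
    (z : A.C0 x₀) {a : E} (ha : a ∈ A.ES (A.isoAlg x₀) z) :
    ∃ u : E', A.DvM (E' := E') (A.q' q x₀ z) u = Dq q z a := by
  obtain ⟨v, hv⟩ := (A.range_Dval SC hC ι hE' z a).1 ha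
  exact ⟨A.Dq' (E' := E') z v, by rw [A.DvM_Dq' SC SM hC hM hq z v, hv]⟩

/-- the image is a contact manifold -/
lemma contact_image (hq : RegCover (E := E) q Γ) (hα : IsContact α) (hR : IsReeb α R)
    (hp : ∀ z ∈ A.C0 x₀, Nonempty (A.Pair E' q x₀ z)) {n : ℕ} (ι : Imm (E := E) P n)
    (hE' : Module.finrank ℝ E' = Module.finrank ℝ (A.ES (A.isoAlg x₀) x₀))
    [IsManifold 𝓘(ℝ, E') ∞ (q '' A.C0 x₀ : Set M)] :
    IsContact (pullForm 𝓘(ℝ, E) 𝓘(ℝ, E') (Subtype.val : (q '' A.C0 x₀ : Set M) → M) α) := by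
  have hc : CD (pullForm 𝓘(ℝ, E) 𝓘(ℝ, E) q α) (liftField hq R) :=
    ⟨hq.isContact_pull hα, hq.isReeb_lift hα hR⟩
  have hval := SM.val hM
  have hext : ∀ (z : A.C0 x₀) (u v : E') (a b : E),
      A.DvM (E' := E') (A.q' q x₀ z) u = Dq q z a → A.DvM (E' := E') (A.q' q x₀ z) v = Dq q z b →
      extDer 𝓘(ℝ, E') (pullForm 𝓘(ℝ, E) 𝓘(ℝ, E')
        (Subtype.val : (q '' A.C0 x₀ : Set M) → M) α) (A.q' q x₀ z) u v =
      extDer 𝓘(ℝ, E) (pullForm 𝓘(ℝ, E) 𝓘(ℝ, E) q α) (z : P) a b := by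
    intro z u v a b hu hv
    rw [extDer_pull hval hα.smooth, extDer_pull hq.contMDiff hα.smooth]
    have h1 : ∀ (w w' v v' : E), w = w' → v = v' →
        extDer 𝓘(ℝ, E) α (q z) w v = extDer 𝓘(ℝ, E) α (q z) w' v' := by
      rintro _ _ _ _ rfl rfl; rfl
    exact h1 _ _ _ _ hu hv
  have hev : ∀ (z : A.C0 x₀) (u : E') (a : E), A.DvM (E' := E') (A.q' q x₀ z) u = Dq q z a →
      pullForm 𝓘(ℝ, E) 𝓘(ℝ, E') (Subtype.val : (q '' A.C0 x₀ : Set M) → M) α (A.q' q x₀ z) u =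
      pullForm 𝓘(ℝ, E) 𝓘(ℝ, E) q α (z : P) a := by
    intro z u a hu
    exact congrArg (fun w : E => α (q z) w) hu
  refine ⟨smoothForm_pull hval hα.smooth, ?_, ?_⟩
  · rintro ⟨_, z, hz, rfl⟩ h0
    have hRES : (liftField hq R z : E) ∈ A.ES (A.isoAlg x₀) z := fun θ hθ =>
      A.push_fixed_R hc (A.C0_subset hz θ hθ)
    obtain ⟨u, hu⟩ := A.push_vec SC SM hC hM hq ι hE' ⟨z, hz⟩ hRES
    have h1 := hev ⟨z, hz⟩ u _ hu
    have h2 : pullForm 𝓘(ℝ, E) 𝓘(ℝ, E) q α z (liftField hq R z) = 1 := hc.reeb.unit z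
    have h3 : pullForm 𝓘(ℝ, E) 𝓘(ℝ, E') (Subtype.val : (q '' A.C0 x₀ : Set M) → M) α
        (A.q' q x₀ ⟨z, hz⟩) u = 0 := DFunLike.congr_fun h0 u
    rw [h3] at h1
    exact zero_ne_one (h1.trans h2)
  · rintro ⟨_, z, hz, rfl⟩ u hu h
    obtain ⟨a, ha, hua, ha0⟩ := A.lift_vec SC SM hC hM hq hp ι hE' ⟨z, hz⟩ u
    apply ha0
    refine A.nondeg_ES hc ι (A.rational_isoAlg x₀) (A.C0_subset hz) ha ?_ ?_
    · exact (hev ⟨z, hz⟩ u a hua).symm.trans hu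
    · intro b hb hβb
      obtain ⟨v, hv⟩ := A.push_vec SC SM hC hM hq ι hE' ⟨z, hz⟩ hb
      have h1 := h v ((hev ⟨z, hz⟩ v b hv).trans hβb)
      exact (hext ⟨z, hz⟩ u v a b hua hv).symm.trans h1

/-- the Reeb field is tangent to the image -/
lemma exists_reeb_image (hq : RegCover (E := E) q Γ) (hα : IsContact α) (hR : IsReeb α R)
    {n : ℕ} (ι : Imm (E := E) P n)
    (hE' : Module.finrank ℝ E' = Module.finrank ℝ (A.ES (A.isoAlg x₀) x₀))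
    (w : (q '' A.C0 x₀ : Set M)) : ∃ u : E', A.DvM (E' := E') w u = R (w : M) := by
  obtain ⟨_, z, hz, rfl⟩ := w
  have hc : CD (pullForm 𝓘(ℝ, E) 𝓘(ℝ, E) q α) (liftField hq R) :=
    ⟨hq.isContact_pull hα, hq.isReeb_lift hα hR⟩
  have hRES : (liftField hq R z : E) ∈ A.ES (A.isoAlg x₀) z := fun θ hθ =>
    A.push_fixed_R hc (A.C0_subset hz θ hθ)
  obtain ⟨u, hu⟩ := A.push_vec SC SM hC hM hq ι hE' ⟨z, hz⟩ hRES
  exact ⟨u, hu.trans (hq.liftField_spec R z)⟩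

end TS

end Pool.Agent.TH607
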