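import Mathlib
import Pool.Agent.TH607.Fx.Cont2
import Pool.Agent.TH350.IntCompl
import Pool.Agent.H826R2.Wein.Bridge

/-! The stabiliser group and the quotient torus acting on a component of a fixed point set. -/

open scoped Topology ContDiff Manifold
open Set Metric Bundle Pool.Agent.Helper186 Pool.Agent.H826R2.Wein

noncomputable section

namespace Pool.Agent.TH607

set_option linter.unusedSectionVars false

universe u

lemma mapZ_mul {a b c : ℕ} (A : Matrix (Fin a) (Fin b) ℤ) (B : Matrix (Fin b) (Fin c) ℤ) :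
    (A * B).map (Int.cast : ℤ → ℝ) = A.map (Int.cast : ℤ → ℝ) * B.map (Int.cast : ℤ → ℝ) := by
  ext i j
  simp [Matrix.mul_apply]

section pullcomp

open Pool.Agent.H826R2.WStmt

variable {E : Type*} [NormedAddCommGroup E] [NormedSpace ℝ E]
  {E₁ : Type*} [NormedAddCommGroup E₁] [NormedSpace ℝ E₁]
  {E₂ : Type*} [NormedAddCommGroup E₂] [NormedSpace ℝ E₂]
  {X : Type*} [TopologicalSpace X] [ChartedSpace E X]
  {Y : Type*} [TopologicalSpace Y] [ChartedSpace E₁ Y]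
  {Z : Type*} [TopologicalSpace Z] [ChartedSpace E₂ Z]

lemma pull_comp {f : X → Y} {g : Y → Z} (hf : ContMDiff 𝓘(ℝ, E) 𝓘(ℝ, E₁) ∞ f)
    (hg : ContMDiff 𝓘(ℝ, E₁) 𝓘(ℝ, E₂) ∞ g) (α : Z → Cov E₂) :
    pull (E := E) f (pull (E := E₁) g α) = pull (E := E) (g ∘ f) α := by
  ext1 x
  have h1 : mfderiv 𝓘(ℝ, E) 𝓘(ℝ, E₂) (g ∘ f) x =
      (mfderiv 𝓘(ℝ, E₁) 𝓘(ℝ, E₂) g (f x)).comp (mfderiv 𝓘(ℝ, E) 𝓘(ℝ, E₁) f x) :=
    mfderiv_comp _ (hg.mdifferentiableAt (by simp)) (hf.mdifferentiableAt (by simp))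
  refine ContinuousLinearMap.ext fun u => ?_
  have h2 := DFunLike.congr_fun h1 u
  exact congrArg (fun w : E₂ => (show E₂ →L[ℝ] ℝ from α (g (f x))) w) h2.symm

end pullcomp

variable {E : Type u} [NormedAddCommGroup E] [NormedSpace ℝ E] [FiniteDimensional ℝ E]
  {M : Type*} [TopologicalSpace M] [ChartedSpace E M] [IsManifold 𝓘(ℝ, E) ∞ M]
  {P : Type*} [TopologicalSpace P] [ChartedSpace E P] [IsManifold 𝓘(ℝ, E) ∞ P]
  {Γ : Type*} [Group Γ] [MulAction Γ P] {q : P → M}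

namespace TS

section group

variable {β : (x : P) → TangentSpace 𝓘(ℝ, E) x →L[ℝ] ℝ} {m : ℕ} (A : TS β m)

variable (Γ) in
/-- the stabiliser of the component -/
def stabC (x₀ : P) : Subgroup Γ where
  carrier := {γ | (∀ z ∈ A.C0 x₀, γ • z ∈ A.C0 x₀) ∧ ∀ z ∈ A.C0 x₀, γ⁻¹ • z ∈ A.C0 x₀}
  mul_mem' := by
    rintro a b ⟨ha, ha'⟩ ⟨hb, hb'⟩
    refine ⟨fun z hz => ?_, fun z hz => ?_⟩
    · rw [mul_smul]
      exact ha _ (hb z hz)
    · rw [mul_inv_rev, mul_smul]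
      exact hb' _ (ha' z hz)
  one_mem' := ⟨fun z hz => by rwa [one_smul], fun z hz => by rwa [inv_one, one_smul]⟩
  inv_mem' := by
    rintro a ⟨ha, ha'⟩
    exact ⟨ha', fun z hz => by rw [inv_inv]; exact ha z hz⟩

instance actC (x₀ : P) : MulAction (A.stabC Γ x₀) (A.C0 x₀) where
  smul γ z := ⟨(γ : Γ) • (z : P), γ.2.1 z z.2⟩
  one_smul z := Subtype.ext (one_smul Γ (z : P))
  mul_smul γ γ' z := Subtype.ext (mul_smul (γ : Γ) (γ' : Γ) (z : P))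

lemma coe_smulC {x₀ : P} (γ : A.stabC Γ x₀) (z : A.C0 x₀) :
    ((γ • z : A.C0 x₀) : P) = (γ : Γ) • (z : P) := rfl

variable [T2Space P] {x₀ : P} {E' : Type*} [NormedAddCommGroup E'] [NormedSpace ℝ E']
  [FiniteDimensional ℝ E']
  (SC : Slices (E := E) E' (A.C0 x₀)) (SM : Slices (E := E) E' (q '' A.C0 x₀))
  [csC : ChartedSpace E' (A.C0 x₀)] (hC : csC = SC.charted)
  [csM : ChartedSpace E' (q '' A.C0 x₀ : Set M)] (hM : csM = SM.charted)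

include hC hM

lemma regCover_q' (hq : RegCover (E := E) q Γ) (hN : A.Norm Γ) (hmax : A.MaxIso x₀)
    (hp : ∀ z ∈ A.C0 x₀, Nonempty (A.Pair E' q x₀ z)) :
    RegCover (E := E') (A.q' q x₀) (A.stabC Γ x₀) where
  surj := by
    rintro ⟨_, z, hz, rfl⟩
    exact ⟨⟨z, hz⟩, rfl⟩
  diffeo := A.localDiffeo_q' SC SM hC hM hq hp
  smooth := by
    intro γ
    exact SC.ofVal hC ((hq.smooth (γ : Γ)).comp (SC.val hC))
  fibre := by
    intro x y
    constructor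
    · intro h
      obtain ⟨γ, hγ⟩ := (hq.fibre x y).1 (congrArg Subtype.val h)
      have h1 : γ • (x : P) ∈ A.C0 x₀ := by rw [hγ]; exact y.2
      have h2 : γ⁻¹ • (y : P) ∈ A.C0 x₀ := by rw [← hγ, inv_smul_smul]; exact x.2
      exact ⟨⟨γ, fun z hz => A.smul_mem_C0 hq.smooth hN hmax x.2 h1 hz,
        fun z hz => A.smul_mem_C0 hq.smooth hN hmax y.2 h2 hz⟩, Subtype.ext hγ⟩
    · rintro ⟨γ, hγ⟩
      apply Subtype.ext
      have h1 : (γ : Γ) • (x : P) = y := congrArg Subtype.val hγ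
      exact (hq.fibre x y).2 ⟨γ, h1⟩

end group

section torus

open Pool.Agent.H826R2.WStmt

variable {α : M → Cov E} {m : ℕ} (A : TS (pullForm 𝓘(ℝ, E) 𝓘(ℝ, E) q (toForm α)) m)
  [T2Space P] {x₀ : P} {E' : Type*} [NormedAddCommGroup E'] [NormedSpace ℝ E']
  [FiniteDimensional ℝ E']
  (SC : Slices (E := E) E' (A.C0 x₀)) (SM : Slices (E := E) E' (q '' A.C0 x₀))
  [csC : ChartedSpace E' (A.C0 x₀)] (hC : csC = SC.charted)
  [csM : ChartedSpace E' (q '' A.C0 x₀ : Set M)] (hM : csM = SM.charted)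
  {r : ℕ} (J : Matrix (Fin m) (Fin r) ℤ) (Q : Matrix (Fin r) (Fin m) ℤ)

/-- the real linear map of an integer matrix -/
def JL : (Fin r → ℝ) →L[ℝ] (Fin m → ℝ) :=
  LinearMap.toContinuousLinearMap (Matrix.mulVecLin (J.map (Int.cast : ℤ → ℝ)))

omit [T2Space P] [FiniteDimensional ℝ E'] csC csM in
lemma JL_apply (θ : Fin r → ℝ) : JL J θ = (J.map (Int.cast : ℤ → ℝ)).mulVec θ := rfl

/-- the torus action on the component -/
def actT (x₀ : P) (θ : Fin r → ℝ) (z : A.C0 x₀) : A.C0 x₀ :=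
  ⟨A.act (JL J θ) z, A.act_mem_C0 z.2 _⟩

include hC in
lemma smooth_actT : ContMDiff (𝓘(ℝ, Fin r → ℝ).prod 𝓘(ℝ, E')) 𝓘(ℝ, E') ∞
    (fun p : (Fin r → ℝ) × A.C0 x₀ => A.actT J x₀ p.1 p.2) := by
  apply SC.ofVal hC
  have h1 : ContMDiff (𝓘(ℝ, Fin r → ℝ).prod 𝓘(ℝ, E')) (𝓘(ℝ, Fin m → ℝ).prod 𝓘(ℝ, E)) ∞
      (fun p : (Fin r → ℝ) × A.C0 x₀ => (JL J p.1, (p.2 : P))) :=
    ((JL J).contMDiff.comp contMDiff_fst).prodMk ((SC.val hC).comp contMDiff_snd)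
  exact A.smooth.comp h1

include hC in
lemma free_actT (hmax : A.MaxIso x₀) (hQJ : Q * J = 1)
    (hQ : ∀ θ : Fin m → ℝ, (Q.map (Int.cast : ℤ → ℝ)).mulVec θ = 0 ↔ θ ∈ A.isoAlg x₀)
    (z : A.C0 x₀) (κ : Fin r → ℝ)
    (h : D (E' := E') (fun θ => A.actT J x₀ θ z) 0 κ = 0) : κ = 0 := by
  have h1 : HasMFDerivAt 𝓘(ℝ, Fin r → ℝ) 𝓘(ℝ, E') (fun θ => A.actT J x₀ θ z) 0
      (mfderiv 𝓘(ℝ, Fin r → ℝ) 𝓘(ℝ, E') (fun θ => A.actT J x₀ θ z) 0) := by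
    have h2 : ContMDiff 𝓘(ℝ, Fin r → ℝ) 𝓘(ℝ, E') ∞ (fun θ => A.actT J x₀ θ z) :=
      (A.smooth_actT SC hC J).comp (contMDiff_id.prodMk contMDiff_const)
    exact (h2.mdifferentiableAt (by simp)).hasMFDerivAt
  have h2 : HasMFDerivAt 𝓘(ℝ, E') 𝓘(ℝ, E) (Subtype.val : A.C0 x₀ → P) (A.actT J x₀ 0 z)
      (mfderiv 𝓘(ℝ, E') 𝓘(ℝ, E) (Subtype.val : A.C0 x₀ → P) (A.actT J x₀ 0 z)) :=
    ((SC.val hC).mdifferentiableAt (by simp)).hasMFDerivAt
  have h3 := HasMFDerivAt.comp (0 : Fin r → ℝ) h2 h1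
  have h4 : HasMFDerivAt 𝓘(ℝ, Fin r → ℝ) 𝓘(ℝ, Fin m → ℝ) (JL J) 0 (JL J) :=
    ((JL J).hasFDerivAt).hasMFDerivAt
  have h5 : HasMFDerivAt 𝓘(ℝ, Fin m → ℝ) 𝓘(ℝ, E) (fun θ => A.act θ (z : P)) (JL J 0)
      (mfderiv 𝓘(ℝ, Fin m → ℝ) 𝓘(ℝ, E) (fun θ => A.act θ (z : P)) (JL J 0)) :=
    ((A.smooth_left _).mdifferentiableAt (by simp)).hasMFDerivAt
  have h6 := HasMFDerivAt.comp (0 : Fin r → ℝ) h5 h4
  have h7 := DFunLike.congr_fun (hasMFDerivAt_unique h3 h6) κ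
  have h8 : (mfderiv 𝓘(ℝ, E') 𝓘(ℝ, E) (Subtype.val : A.C0 x₀ → P) (A.actT J x₀ 0 z)
      (mfderiv 𝓘(ℝ, Fin r → ℝ) 𝓘(ℝ, E') (fun θ => A.actT J x₀ θ z) 0 κ : E') : E) =
      (mfderiv 𝓘(ℝ, Fin m → ℝ) 𝓘(ℝ, E) (fun θ => A.act θ (z : P)) (JL J 0) (JL J κ) : E) := h7
  have h9 : (mfderiv 𝓘(ℝ, E') 𝓘(ℝ, E) (Subtype.val : A.C0 x₀ → P) (A.actT J x₀ 0 z)
      (mfderiv 𝓘(ℝ, Fin r → ℝ) 𝓘(ℝ, E') (fun θ => A.actT J x₀ θ z) 0 κ : E') : E) = 0 := by
    have h10 : (mfderiv 𝓘(ℝ, Fin r → ℝ) 𝓘(ℝ, E') (fun θ => A.actT J x₀ θ z) 0 κ : E') = 0 := h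
    exact (congrArg (fun w : E' => (mfderiv 𝓘(ℝ, E') 𝓘(ℝ, E)
      (Subtype.val : A.C0 x₀ → P) (A.actT J x₀ 0 z) w : E)) h10).trans (map_zero _)
  have h10 : ∀ η : Fin m → ℝ, η = 0 →
      (mfderiv 𝓘(ℝ, Fin m → ℝ) 𝓘(ℝ, E) (fun θ => A.act θ (z : P)) η (JL J κ) : E) =
      A.X (JL J κ) z := by
    rintro _ rfl; rfl
  have h11 : A.X (JL J κ) z = 0 := (h10 _ (map_zero (JL J))).symm.trans (h8.symm.trans h9)
  have h12 : JL J κ ∈ A.isoAlg x₀ := by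
    rw [← A.isoAlg_eq hmax (A.C0_subset z.2)]
    exact A.mem_isoAlg.2 h11
  have h13 := (hQ _).2 h12
  rw [JL_apply, Matrix.mulVec_mulVec] at h13
  have h14 : Q.map (Int.cast : ℤ → ℝ) * J.map (Int.cast : ℤ → ℝ) = 1 := by
    rw [← mapZ_mul, hQJ]
    ext i j
    simp [Matrix.one_apply]
  rw [h14, Matrix.one_mulVec] at h13
  exact h13

/-- on the component, only the class modulo the isotropy algebra acts -/
lemma act_eq_of_sub_mem {a b : Fin m → ℝ} (h : a - b ∈ A.isoAlg x₀) {z : P}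
    (hz : z ∈ A.C0 x₀) : A.act a z = A.act b z := by
  have h1 : a = b + (a - b) := by abel
  conv_lhs => rw [h1]
  rw [A.add, A.C0_subset hz _ h]

include hC hM in
/-- the torus action on the component in the sense of the statements -/
def torusC (hq : RegCover (E := E) q Γ) (hmax : A.MaxIso x₀) (hQJ : Q * J = 1)
    (hQ : ∀ θ : Fin m → ℝ, (Q.map (Int.cast : ℤ → ℝ)).mulVec θ = 0 ↔ θ ∈ A.isoAlg x₀) :
    TorusAction (pull (E := E') (A.q' q x₀)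
      (pull (E := E') (Subtype.val : (q '' A.C0 x₀ : Set M) → M) α)) r where
  act := A.actT J x₀
  smooth := A.smooth_actT SC hC J
  zero := by
    intro z
    apply Subtype.ext
    show A.act (JL J 0) z = z
    rw [map_zero, A.zero]
  add := by
    intro θ θ' z
    apply Subtype.ext
    show A.act (JL J (θ + θ')) z = A.act (JL J θ) (A.act (JL J θ') z)
    rw [map_add, A.add]
  period := by
    intro k z
    apply Subtype.ext
    show A.act (JL J (fun i => (k i : ℝ))) z = z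
    have h1 : JL J (fun i => (k i : ℝ)) = fun i => ((J.mulVec k i : ℤ) : ℝ) := by
      ext i
      simp [JL_apply, Matrix.mulVec, dotProduct]
    rw [h1, A.period]
  strict := by
    intro θ
    have hvC := SC.val hC
    have hvM := SM.val hM
    have hq' := A.smooth_q' SC SM hC hM hq
    have ha : ContMDiff 𝓘(ℝ, E') 𝓘(ℝ, E') ∞ (A.actT J x₀ θ) :=
      (A.smooth_actT SC hC J).comp (contMDiff_const.prodMk contMDiff_id)
    have hβ : pull (E := E') (A.q' q x₀)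
        (pull (E := E') (Subtype.val : (q '' A.C0 x₀ : Set M) → M) α) =
        pull (E := E') (Subtype.val : A.C0 x₀ → P) (pull (E := E) q α) := by
      rw [pull_comp hq' hvM, pull_comp hvC hq.contMDiff]
      rfl
    have hstrict : pull (E := E) (A.act (JL J θ)) (pull (E := E) q α) = pull (E := E) q α := by
      ext1 x
      exact ContinuousLinearMap.ext fun u => A.strict (JL J θ) x u
    rw [hβ, pull_comp ha hvC]
    have h1 : (Subtype.val : A.C0 x₀ → P) ∘ A.actT J x₀ θ =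
      A.act (JL J θ) ∘ (Subtype.val : A.C0 x₀ → P) := rfl
    rw [h1, ← pull_comp hvC (A.smooth_right _), hstrict]
  free := fun z κ h => A.free_actT SC hC J Q hmax hQJ hQ z κ h

omit [FiniteDimensional ℝ E'] csC csM in
lemma normalises_actT (hN : A.Norm Γ) (hQJ : Q * J = 1)
    (hQ : ∀ θ : Fin m → ℝ, (Q.map (Int.cast : ℤ → ℝ)).mulVec θ = 0 ↔ θ ∈ A.isoAlg x₀) :
    Normalises (A.stabC Γ x₀) (A.actT J x₀) := by
  intro γ
  obtain ⟨B, hB⟩ := hN.norm (γ : Γ)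
  refine ⟨Q * B * J, fun θ z => ?_⟩
  apply Subtype.ext
  show (γ : Γ) • A.act (JL J θ) z = A.act (JL J (fun i => ∑ j, ((Q * B * J) i j : ℝ) * θ j))
    ((γ : Γ) • (z : P))
  rw [hB]
  apply A.act_eq_of_sub_mem _ (γ.2.1 z z.2)
  rw [← hQ]
  have h1 : (fun i => ∑ j, (((Q * B * J) i j : ℤ) : ℝ) * θ j) =
      ((Q * B * J).map (Int.cast : ℤ → ℝ)).mulVec θ := by
    ext i
    simp [Matrix.mulVec, dotProduct]
  have h14 : Q.map (Int.cast : ℤ → ℝ) * J.map (Int.cast : ℤ → ℝ) = 1 := by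
    rw [← mapZ_mul, hQJ]
    ext i j
    simp [Matrix.one_apply]
  rw [h1, JL_apply, JL_apply, mapZ_mul, mapZ_mul, Matrix.mulVec_sub,
    Matrix.mulVec_mulVec, Matrix.mulVec_mulVec, Matrix.mulVec_mulVec]
  rw [h14, Matrix.one_mulVec, sub_self]

end torus

end TS

end Pool.Agent.TH607
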