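import Mathlib
import Pool.Agent.H826R2.Wein.Stmt

/-! Definitions for statements about torus symmetries which need not be locally free. -/

open scoped Topology ContDiff Manifold
open Set Pool.Agent.H826R2.WStmt

noncomputable section

namespace Pool.Agent.TH607.FxStmt

variable {E : Type*} [NormedAddCommGroup E] [NormedSpace ℝ E]
  {P : Type*} [TopologicalSpace P] [ChartedSpace E P]

/-- A smooth action of the torus `(ℝ/ℤ)^m` (that is, an action of `ℝ^m` in which `ℤ^m` acts
trivially) on `P` preserving the one-form `β`. It need be neither locally free nor effective. -/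
structure TorusSymmetry (β : P → Cov E) (m : ℕ) where
  act : (Fin m → ℝ) → P → P
  smooth : SmoothAct E act
  zero : ∀ x, act 0 x = x
  add : ∀ θ θ' x, act (θ + θ') x = act θ (act θ' x)
  period : ∀ (k : Fin m → ℤ) x, act (fun i => (k i : ℝ)) x = x
  strict : ∀ θ, pull (act θ) β = β

/-- The dimension of the orbit of `x`: the rank of the infinitesimal action at `x`. -/
def orbitDim (E : Type*) [NormedAddCommGroup E] [NormedSpace ℝ E]
    {P : Type*} [TopologicalSpace P] [ChartedSpace E P] {m : ℕ}
    (act : (Fin m → ℝ) → P → P) (x : P) : ℕ :=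
  Module.finrank ℝ (LinearMap.range
    (D (E := Fin m → ℝ) (E' := E) (fun θ : Fin m → ℝ => act θ x) 0).toLinearMap)

end Pool.Agent.TH607.FxStmt
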