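import Mathlib
import Pool.Agent.TH193.Weight.Weight

/-! Weights of torus representations. -/

namespace Pool.Agent.TH607

theorem exists_weight {E : Type*} [NormedAddCommGroup E] [NormedSpace ℝ E] [FiniteDimensional ℝ E]
    {m : ℕ} (ρ : (Fin m → ℝ) → E →L[ℝ] E) (hc : Continuous ρ)
    (h0 : ρ 0 = ContinuousLinearMap.id ℝ E)
    (hadd : ∀ θ θ', ρ (θ + θ') = (ρ θ).comp (ρ θ'))
    (hper : ∀ k : Fin m → ℤ, ρ (fun i => (k i : ℝ)) = ContinuousLinearMap.id ℝ E)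
    (hne : ∃ θ, ρ θ ≠ ContinuousLinearMap.id ℝ E) :
    ∃ (w : Fin m → ℤ) (v : E), w ≠ 0 ∧ (∀ θ, ∑ i, (w i : ℝ) * θ i = 0 → ρ θ v = v) ∧
      ∃ θ, ρ θ v ≠ v :=
  Pool.Agent.TH193.Weight.exists_weight ρ hc h0 hadd hper hne

end Pool.Agent.TH607
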