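import Mathlib
import Pool.Agent.TH607.Fx.Conn
import Pool.Agent.TH607.Fx.Stmt
import Pool.Agent.TH607.Fx.Weight
import Pool.Agent.H826R2.Wein.Bridge

/-! Closed Reeb orbits from torus orbits of dimension at most one. -/

open scoped Topology ContDiff Manifold
open Set Metric Bundle Pool.Agent.Helper186 Pool.Agent.H826R2.Wein

noncomputable section

namespace Pool.Agent.TH607

set_option linter.unusedSectionVars false

universe u

variable {E : Type u} [NormedAddCommGroup E] [NormedSpace ℝ E] [FiniteDimensional ℝ E]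
  {P : Type*} [TopologicalSpace P] [ChartedSpace E P] [IsManifold 𝓘(ℝ, E) ∞ P]
  {β : (x : P) → TangentSpace 𝓘(ℝ, E) x →L[ℝ] ℝ} {R : (x : P) → TangentSpace 𝓘(ℝ, E) x}

namespace TS

variable {m : ℕ} (A : TS β m) {Γ : Type*} [Group Γ] [MulAction Γ P]

/-- Near a fixed point of a nontrivial action there is a one-dimensional orbit. -/
lemma exists_circle_of_fixed [T2Space P] [ConnectedSpace P] (c : CD β R) {n : ℕ}
    (ι : Imm (E := E) P n) {y : P} (hy : ∀ θ, A.act θ y = y) (hne : ∃ θ z, A.act θ z ≠ z) :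
    ∃ (w : Fin m → ℤ) (z : P), w ≠ 0 ∧ z ∈ A.Fix (kerS w) ∧ A.X (rv w) z ≠ 0 := by
  obtain ⟨θ₀, u₀, hu₀⟩ := A.exists_isotropy_ne ι hy hne
  obtain ⟨w, v, hw, hv, θ', hθ'⟩ := exists_weight (A.iso y) (A.continuous_iso ι hy)
    (A.iso_of_id (by ext1 x; exact A.zero x))
    (fun θ θ' => A.iso_add (hy θ') θ)
    (fun k => A.iso_of_id (by ext1 x; exact A.period k x))
    ⟨θ₀, fun h => hu₀ (by
      have := DFunLike.congr_fun h u₀
      exact this)⟩
  obtain ⟨z, hz, hzm⟩ := A.exists_moved c ι (rational_kerS hw) (y := y) (fun θ _ => hy θ) (v := v)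
    (fun θ hθ => hv θ hθ) (θ' := θ') hθ'
  refine ⟨w, z, hw, hz, fun h0 => hzm ?_⟩
  have h1 : A.X θ' z = 0 := by
    rw [A.X_on_fix hw hz θ', h0, smul_zero]
  have h2 := A.fam_eq_of_X_eq_zero h1 1
  simp only [fam, one_smul] at h2
  exact h2

/-- **Closed orbits from torus orbits of dimension at most one.** -/
theorem closed_of_small [T2Space P] [ConnectedSpace P] {n : ℕ} {ι : Imm (E := E) P n}
    (c : CD β R) (𝒟 : Deck ι Γ) (hN : A.Norm Γ) (x : P)
    (hx : Module.finrank ℝ (LinearMap.range (A.XL x)) ≤ 1) (hne : ∃ θ z, A.act θ z ≠ z) :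
    ∃ (c : ℝ → P) (T : ℝ), 0 < T ∧ IsMIntegralCurve (I := 𝓘(ℝ, E)) c R ∧
      ∀ t, c (t + T) = c t := by
  rcases hx.lt_or_eq with h | h
  · have h0 : Module.finrank ℝ (LinearMap.range (A.XL x)) = 0 := by omega
    have h1 : LinearMap.range (A.XL x) = ⊥ := Submodule.finrank_eq_zero.1 h0
    have h2 : ∀ θ, A.act θ x = x := by
      intro θ
      have h3 : A.XL x θ ∈ LinearMap.range (A.XL x) := LinearMap.mem_range_self _ _
      rw [h1, Submodule.mem_bot] at h3
      exact A.ker_le_stab x h3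
    obtain ⟨w, z, hw, hz, hX⟩ := A.exists_circle_of_fixed c ι h2 hne
    exact A.closed_of_circle c 𝒟 hN hw hz hX
  · obtain ⟨ρ, hρ, hxρ, hX⟩ := A.exists_covector x h
    exact A.closed_of_circle c 𝒟 hN hρ hxρ hX

end TS

end Pool.Agent.TH607
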