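import Mathlib
import Pool.Agent.TH607.Fx.Small

/-! From the definitions of the statements to the working definitions. -/

open scoped Topology ContDiff Manifold
open Set Pool.Agent.Helper186 Pool.Agent.H826R2.WStmt

noncomputable section

set_option linter.unusedSectionVars false

namespace Pool.Agent.TH607.FxStmt

universe u

variable {E : Type u} [NormedAddCommGroup E] [NormedSpace ℝ E] [FiniteDimensional ℝ E]
  {M : Type*} [TopologicalSpace M] [ChartedSpace E M] [IsManifold 𝓘(ℝ, E) ∞ M]
  {P : Type*} [TopologicalSpace P] [ChartedSpace E P] [IsManifold 𝓘(ℝ, E) ∞ P]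

/-- conversion of actions -/
def TorusSymmetry.toTS {β : P → Cov E} {m : ℕ} (A : TorusSymmetry β m) :
    TS (toForm β) m where
  act := A.act
  smooth := A.smooth
  zero := A.zero
  add := A.add
  period := A.period
  strict := fun θ x u => by
    have h := congrFun (A.strict θ) x
    have h2 := congrArg (fun a : Cov E => ev a (u : E)) h
    exact h2

theorem exists_periodic_small [T2Space M] [CompactSpace M]
    (α : M → Cov E) (hα : IsContact α) (R : M → E) (hR : IsReeb α R)
    [T2Space P] [SigmaCompactSpace P] [ConnectedSpace P]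
    {Γ : Type*} [Group Γ] [MulAction Γ P] (q : P → M) (hq : IsQuotientMap E q Γ)
    {m : ℕ} (A : TorusSymmetry (pull (E := E) q α) m) (hA : Normalises Γ A.act)
    (hne : ∃ θ y, A.act θ y ≠ y) (x : P) (hx : orbitDim E A.act x ≤ 1) :
    ∃ (c : ℝ → M) (T : ℝ), IsPeriodicOrbit R c T := by
  have hq' := hq.toWein
  obtain ⟨n, ι, ⟨𝒟⟩⟩ := hq'.exists_deck
  have hN : A.toTS.Norm Γ := ⟨hq'.strict _, hA⟩
  have hcP := hq'.isContact_pull hα.toWein
  have hRP := hq'.isReeb_lift hα.toWein hR.toWein
  obtain ⟨c, T, h1, h2, h3⟩ := hq'.closed_proj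
    (A.toTS.closed_of_small ⟨hcP, hRP⟩ 𝒟 hN x hx hne)
  exact ⟨c, T, h1, h2, h3⟩

end Pool.Agent.TH607.FxStmt
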