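import Mathlib
import Pool.Agent.TH607.Fx.Act2
import Pool.Agent.TH607.Fx.Main1

/-! Reduction of torus symmetries to locally free ones on closed contact submanifolds. -/

open scoped Topology ContDiff Manifold
open Set Metric Pool.Agent.Helper186 Pool.Agent.H826R2.WStmt

noncomputable section

namespace Pool.Agent.TH607.FxStmt

set_option linter.unusedSectionVars false

universe u v w x

variable {E : Type u} [NormedAddCommGroup E] [NormedSpace ℝ E] [FiniteDimensional ℝ E]
  {M : Type v} [TopologicalSpace M] [ChartedSpace E M] [IsManifold 𝓘(ℝ, E) ∞ M]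
  {P : Type w} [TopologicalSpace P] [ChartedSpace E P] [IsManifold 𝓘(ℝ, E) ∞ P]
  {Γ : Type x} [Group Γ] [MulAction Γ P]

/-- **Reduction theorem.** If all closed contact manifolds with a locally free local torus
symmetry, of the rank and dimension of the smallest orbits and their fixed vectors, have a periodic
orbit then so has `M`. -/
theorem reduction [T2Space M] [CompactSpace M]
    (α : M → Cov E) (hα : IsContact α) (R : M → E) (hR : IsReeb α R)
    [T2Space P] [SigmaCompactSpace P]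
    (q : P → M) (hq : IsQuotientMap E q Γ)
    {m : ℕ} (A : TorusSymmetry (pull (E := E) q α) m) (hA : Normalises Γ A.act)
    (x₀ : P) (hmax : A.toTS.MaxIso x₀)
    (hW : ∀ (E' : Type u) [NormedAddCommGroup E'] [NormedSpace ℝ E'] [FiniteDimensional ℝ E']
      (M' : Type v) [TopologicalSpace M'] [ChartedSpace E' M'] [IsManifold 𝓘(ℝ, E') ∞ M']
      (P' : Type w) [TopologicalSpace P'] [ChartedSpace E' P'] [IsManifold 𝓘(ℝ, E') ∞ P']
      [T2Space M'] [CompactSpace M'] [T2Space P'] [SigmaCompactSpace P'] [ConnectedSpace P']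
      (Γ' : Type x) [Group Γ'] [MulAction Γ' P']
      (α' : M' → Cov E') (_ : IsContact α') (R' : M' → E') (_ : IsReeb α' R')
      (q' : P' → M') (_ : IsQuotientMap E' q' Γ')
      (A' : TorusAction (pull (E := E') q' α') (orbitDim E A.act x₀)) (_ : Normalises Γ' A'.act),
      Module.finrank ℝ E' = Module.finrank ℝ (A.toTS.ES (A.toTS.isoAlg x₀) x₀) →
      ∃ (c : ℝ → M') (T : ℝ), IsPeriodicOrbit R' c T) :
    ∃ (c : ℝ → M) (T : ℝ), IsPeriodicOrbit R c T := by
  let B : TS (pullForm 𝓘(ℝ, E) 𝓘(ℝ, E) q (toForm α)) m := A.toTS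
  have hq' : H826R2.Wein.RegCover (E := E) q Γ := hq.toWein
  obtain ⟨n, ι, ⟨𝒟⟩⟩ := hq'.exists_deck
  have hN : B.Norm Γ := ⟨hq'.strict _, hA⟩
  -- the model space
  let E' : Type u := B.ES (B.isoAlg x₀) x₀
  have hE' : Module.finrank ℝ E' = Module.finrank ℝ (B.ES (B.isoAlg x₀) x₀) := rfl
  have hp : ∀ z ∈ B.C0 x₀, Nonempty (B.Pair E' q x₀ z) := fun z hz =>
    B.exists_pair hq' hN hmax ι E' hE' hz
  let SC : Slices (E := E) E' (B.C0 x₀) := ⟨fun z => (hp z z.2).some.s⟩
  have hMs : ∀ w : (q '' B.C0 x₀ : Set M), Nonempty (SliceAt (E := E) E' (q '' B.C0 x₀) (w : M)) := by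
    rintro ⟨_, z, hz, rfl⟩
    exact ⟨(hp z hz).some.image⟩
  let SM : Slices (E := E) E' (q '' B.C0 x₀) := ⟨fun w => (hMs w).some⟩
  let csC : ChartedSpace E' (B.C0 x₀) := SC.charted
  let csM : ChartedSpace E' (q '' B.C0 x₀ : Set M) := SM.charted
  have : IsManifold 𝓘(ℝ, E') ∞ (B.C0 x₀) := SC.isManifold
  have : IsManifold 𝓘(ℝ, E') ∞ (q '' B.C0 x₀ : Set M) := SM.isManifold
  have : CompactSpace (q '' B.C0 x₀ : Set M) :=
    isCompact_iff_compactSpace.1 (B.isClosed_image hq' hN hmax ι).isCompact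
  have : SigmaCompactSpace (B.C0 x₀) :=
    B.isClosed_C0.isClosedEmbedding_subtypeVal.sigmaCompactSpace
  have : ConnectedSpace (B.C0 x₀) :=
    isConnected_iff_connectedSpace.1 ⟨⟨x₀, B.self_mem_C0 x₀⟩, B.isPreconnected_C0⟩
  -- the contact form and its Reeb field
  set α' : (q '' B.C0 x₀ : Set M) → Cov E' :=
    pull (E := E') (Subtype.val : (q '' B.C0 x₀ : Set M) → M) α with hα'
  have hcon := B.contact_image SC SM rfl rfl hq' hα.toWein hR.toWein hp ι hE'
  have hcon' : IsContact α' := by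
    refine ⟨hcon.smooth, ?_, fun x u hu hv => hcon.nondeg x u hu hv⟩
    intro x
    by_contra hno
    push Not at hno
    apply hcon.ne_zero x
    exact ContinuousLinearMap.ext fun v => hno v
  choose R' hR' using fun w => B.exists_reeb_image SC SM rfl rfl hq' hα.toWein hR.toWein ι hE' w
  have hvM := SM.val rfl
  have hreeb : IsReeb α' R' := by
    constructor
    · intro w
      have h1 : ev (α' w) (R' w) = ev (α (w : M)) (R (w : M)) :=
        congrArg (fun v : E => ev (α (w : M)) v) (hR' w)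
      rw [h1, hR.unit]
    · intro w v
      have h1 := extDer_pull hvM hα.toWein.smooth w (R' w) v
      have h2 : extDer α' w (R' w) v =
          extDer α (w : M) (B.DvM (E' := E') w (R' w)) (B.DvM (E' := E') w v) := h1
      rw [h2, hR' w, hR.kernel]
  -- the quotient torus
  obtain ⟨L, hL⟩ := B.rational_isoAlg x₀
  obtain ⟨r, J, Q, hQJ, hQ⟩ := Pool.Agent.TH350.IntCompl.exists_complement L
  have hQ' : ∀ θ : Fin m → ℝ, (Q.map (Int.cast : ℤ → ℝ)).mulVec θ = 0 ↔ θ ∈ B.isoAlg x₀ := by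
    intro θ
    rw [hQ, hL]
    rfl
  have hr : r = orbitDim E A.act x₀ := by
    have h1 := LinearMap.finrank_range_add_finrank_ker (B.XL x₀)
    have h2 := LinearMap.finrank_range_add_finrank_ker
      (Matrix.mulVecLin (Q.map (Int.cast : ℤ → ℝ)))
    have h3 : LinearMap.ker (Matrix.mulVecLin (Q.map (Int.cast : ℤ → ℝ))) =
        LinearMap.ker (B.XL x₀) := by
      ext θ
      exact hQ' θ
    have h4 : LinearMap.range (Matrix.mulVecLin (Q.map (Int.cast : ℤ → ℝ))) = ⊤ := by
      rw [LinearMap.range_eq_top]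
      intro v
      refine ⟨(J.map (Int.cast : ℤ → ℝ)).mulVec v, ?_⟩
      show (Q.map (Int.cast : ℤ → ℝ)).mulVec _ = v
      rw [Matrix.mulVec_mulVec, ← mapZ_mul, hQJ]
      have : (1 : Matrix (Fin r) (Fin r) ℤ).map (Int.cast : ℤ → ℝ) = 1 := by
        ext i j
        simp [Matrix.one_apply]
      rw [this, Matrix.one_mulVec]
    rw [h3, h4, finrank_top, Module.finrank_fin_fun] at h2
    have h5 : orbitDim E A.act x₀ = Module.finrank ℝ (LinearMap.range (B.XL x₀)) := rfl
    omega
  subst hr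
  obtain ⟨c, T, hT, hc, hper⟩ := hW E' (q '' B.C0 x₀ : Set M) (B.C0 x₀) (B.stabC Γ x₀) α' hcon'
    R' hreeb (B.q' q x₀) (by
      have h := B.regCover_q' SC SM rfl rfl hq' hN hmax hp
      exact ⟨h.surj, h.diffeo, h.smooth, h.fibre⟩)
    (B.torusC SC SM rfl rfl J Q hq' hmax hQJ hQ')
    (B.normalises_actT J Q hN hQJ hQ') hE'
  refine ⟨fun t => (c t : M), T, hT, ?_, fun t => congrArg Subtype.val (hper t)⟩
  intro t
  have h2 := HasMFDerivAt.comp t (g := (Subtype.val : (q '' B.C0 x₀ : Set M) → M)) (f := c)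
    ((hvM.mdifferentiableAt (by simp)).hasMFDerivAt) (hc t)
  refine h2.congr_mfderiv ?_
  refine ContinuousLinearMap.ext fun (r : ℝ) => ?_
  show B.DvM (E' := E') (c t) (r • R' (c t)) = r • R (c t : M)
  rw [map_smul, hR' (c t)]

end Pool.Agent.TH607.FxStmt
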