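import Mathlib
import Pool.Agent.TH607.Fx.Red
import Pool.Agent.TH607.Main
import Pool.Agent.H826R2.Wein.Main2

/-! Periodic orbits for torus symmetries which need not be locally free. -/

open scoped Topology ContDiff Manifold
open Set Metric Pool.Agent.Helper186 Pool.Agent.H826R2.WStmt

noncomputable section

namespace Pool.Agent.TH607

set_option linter.unusedSectionVars false

universe u

/-- a nondegenerate alternating form lives in even dimension -/
lemma even_of_alternating {V : Type*} [AddCommGroup V] [Module ℝ V] [FiniteDimensional ℝ V]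
    (wf : V →ₗ[ℝ] V →ₗ[ℝ] ℝ) (halt : ∀ u v, wf u v = - wf v u)
    (hnd : ∀ u, (∀ v, wf u v = 0) → u = 0) : Even (Module.finrank ℝ V) := by
  let n := Module.finrank ℝ V
  let b := Module.finBasis ℝ V
  let Ω : Matrix (Fin n) (Fin n) ℝ := fun i j => wf (b i) (b j)
  have h1 : Ω.transpose = -Ω := by
    ext i j
    exact halt _ _
  have h2 : Ω.det ≠ 0 := by
    intro h0
    obtain ⟨v, hv, hvz⟩ := Matrix.exists_vecMul_eq_zero_iff.2 h0
    apply hv
    have h3 : (∑ i, v i • b i) = 0 := by
      apply hnd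
      intro w
      have h4 : ∀ j, wf (∑ i, v i • b i) (b j) = 0 := by
        intro j
        have h5 := congrFun hvz j
        simp only [Matrix.vecMul, dotProduct, Pi.zero_apply] at h5
        rw [map_sum, LinearMap.sum_apply]
        simpa [Ω] using h5
      have h6 : wf (∑ i, v i • b i) = 0 := b.ext (fun j => h4 j)
      rw [h6]
      rfl
    have h4 := b.linearIndependent
    rw [Fintype.linearIndependent_iff] at h4
    ext i
    exact h4 v h3 i
  have h3 : Ω.det = (-1) ^ n * Ω.det := by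
    conv_lhs => rw [← Matrix.det_transpose, h1, Matrix.det_neg, Fintype.card_fin]
  have h4 : ((-1 : ℝ)) ^ n = 1 := by
    have h5 : (1 - (-1 : ℝ) ^ n) * Ω.det = 0 := by linarith
    rcases mul_eq_zero.1 h5 with h | h
    · linarith
    · exact absurd h h2
  rcases Nat.even_or_odd n with h | h
  · exact h
  · rw [h.neg_one_pow] at h4
    norm_num at h4

end Pool.Agent.TH607

namespace Pool.Agent.TH607.FxStmt

set_option linter.unusedSectionVars false

universe u v w x

section parity

variable {E : Type u} [NormedAddCommGroup E] [NormedSpace ℝ E] [FiniteDimensional ℝ E]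
  {M : Type*} [TopologicalSpace M] [ChartedSpace E M] [IsManifold 𝓘(ℝ, E) ∞ M]

/-- contact manifolds are odd-dimensional -/
lemma odd_of_contact {α : M → Cov E} (hα : IsContact α) (y : M) :
    Odd (Module.finrank ℝ E) := by
  let b : E →ₗ[ℝ] ℝ := (show E →L[ℝ] ℝ from α y)
  let K := LinearMap.ker b
  have hb : b ≠ 0 := by
    intro h0
    obtain ⟨v, hv⟩ := hα.ne_zero y
    exact hv (DFunLike.congr_fun h0 v)
  have hrange : LinearMap.range b = ⊤ := LinearMap.range_eq_top.2 (LinearMap.surjective hb)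
  have h1 := LinearMap.finrank_range_add_finrank_ker b
  rw [hrange, finrank_top, Module.finrank_self] at h1
  let Ω : E →L[ℝ] E →L[ℝ] ℝ := extDerL 𝓘(ℝ, E) (toForm α) y
  have hΩ : ∀ u v : E, Ω u v = extDer α y u v := fun u v => extDerL_apply _ _ _ _
  let wf : K →ₗ[ℝ] K →ₗ[ℝ] ℝ := LinearMap.mk₂ ℝ (fun u v => Ω (u : E) (v : E))
    (fun a b c => by simp) (fun a b c => by simp) (fun a b c => by simp) (fun a b c => by simp)
  have h2 : Even (Module.finrank ℝ K) := by
    apply even_of_alternating wf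
    · intro u v
      show Ω (u : E) (v : E) = - Ω (v : E) (u : E)
      rw [hΩ, hΩ]
      unfold H826R2.WStmt.extDer
      ring
    · intro u hu
      apply Subtype.ext
      apply hα.nondeg y (u : E) u.2
      intro v hv
      rw [← hΩ]
      exact hu ⟨v, hv⟩
  rw [← h1, add_comm]
  exact h2.add_one

end parity

variable {E : Type u} [NormedAddCommGroup E] [NormedSpace ℝ E] [FiniteDimensional ℝ E]
  {M : Type v} [TopologicalSpace M] [ChartedSpace E M] [IsManifold 𝓘(ℝ, E) ∞ M]
  {P : Type w} [TopologicalSpace P] [ChartedSpace E P] [IsManifold 𝓘(ℝ, E) ∞ P]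
  {Γ : Type x} [Group Γ] [MulAction Γ P]

section

variable {β : P → Cov E} {m : ℕ} (A : TorusSymmetry β m)

lemma orbitDim_eq (x : P) :
    orbitDim E A.act x + Module.finrank ℝ (A.toTS.isoAlg x) = m := by
  have h1 := LinearMap.finrank_range_add_finrank_ker (A.toTS.XL x)
  rw [Module.finrank_fin_fun] at h1
  exact h1

lemma exists_maxIso [Nonempty P] : ∃ x₀, A.toTS.MaxIso x₀ := by
  let S : Set ℕ := range (fun z => Module.finrank ℝ (A.toTS.isoAlg z))
  have hne : S.Nonempty := range_nonempty _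
  have hbd : BddAbove S := ⟨m, by
    rintro _ ⟨z, rfl⟩
    have := orbitDim_eq A z
    show Module.finrank ℝ (A.toTS.isoAlg z) ≤ m
    omega⟩
  obtain ⟨x₀, hx₀⟩ := Nat.sSup_mem hne hbd
  exact ⟨x₀, fun z => by
    have := le_csSup hbd (mem_range_self z)
    rw [← hx₀] at this
    exact this⟩

lemma orbitDim_le {x₀ : P} (h : A.toTS.MaxIso x₀) (x : P) :
    orbitDim E A.act x₀ ≤ orbitDim E A.act x := by
  have h1 := orbitDim_eq A x
  have h2 := orbitDim_eq A x₀
  have h3 := h x
  omega

/-- if all tangent vectors are fixed by the isotropy then the orbit dimension is constant -/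
lemma const_of_ES_top [T2Space P] [ConnectedSpace P] {n : ℕ}
    (ι : H826R2.Wein.Imm (E := E) P n) {x₀ : P} (h : A.toTS.MaxIso x₀)
    (hES : Module.finrank ℝ (A.toTS.ES (A.toTS.isoAlg x₀) x₀) = Module.finrank ℝ E) (x : P) :
    orbitDim E A.act x = orbitDim E A.act x₀ := by
  set B := A.toTS
  have hopen : IsOpen (B.C0 x₀) := by
    rw [isOpen_iff_mem_nhds]
    intro z hz
    obtain ⟨g⟩ := B.exists_good ι (B.rational_isoAlg x₀) (B.C0_subset hz)
    have h1 : B.ES (B.isoAlg x₀) z = ⊤ :=
      Submodule.eq_top_of_finrank_eq (by rw [B.finrank_ES_const ι hz, hES])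
    have h2 : g.φ.source ⊆ B.Fix (B.isoAlg x₀) := by
      intro y hy
      rw [g.iff y hy, h1]
      exact Submodule.mem_top
    have h3 : B.Fix (B.isoAlg x₀) ∩ g.φ.source = g.φ.source := inter_eq_right.2 h2
    have h4 := g.conn
    rw [h3] at h4
    exact Filter.mem_of_superset (g.φ.open_source.mem_nhds g.mem)
      (B.subset_C0 h4 h2 g.mem hz)
  have huniv : B.C0 x₀ = univ :=
    IsClopen.eq_univ ⟨B.isClosed_C0, hopen⟩ ⟨x₀, B.self_mem_C0 x₀⟩
  have h1 : x ∈ B.Fix (B.isoAlg x₀) := B.C0_subset (by rw [huniv]; exact mem_univ x)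
  have h2 := B.isoAlg_eq h h1
  have h3 := orbitDim_eq A x
  have h4 := orbitDim_eq A x₀
  have h5 : Module.finrank ℝ (A.toTS.isoAlg x) = Module.finrank ℝ (A.toTS.isoAlg x₀) := by
    show Module.finrank ℝ (B.isoAlg x) = Module.finrank ℝ (B.isoAlg x₀)
    rw [h2]
  omega

end

/-- rank two, with the rank as a variable -/
theorem rank_two' [T2Space M] [CompactSpace M]
    (α : M → Cov E) (hα : IsContact α) (R : M → E) (hR : IsReeb α R)
    [T2Space P] [SigmaCompactSpace P] [ConnectedSpace P]
    (q : P → M) (hq : IsQuotientMap E q Γ) {r : ℕ} (hr : r = 2)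
    (A : TorusAction (pull (E := E) q α) r) (hA : Normalises Γ A.act) :
    ∃ (c : ℝ → M) (T : ℝ), IsPeriodicOrbit R c T := by
  subst hr
  exact exists_periodic_rank_two α hα R hR q hq A hA

/-- the rank of a locally free symmetry -/
lemma rank_bound [T2Space M] [CompactSpace M]
    (α : M → Cov E) (hα : IsContact α) (R : M → E) (hR : IsReeb α R)
    (q : P → M) (hq : IsQuotientMap E q Γ) {r : ℕ} (x : P)
    (A : TorusAction (pull (E := E) q α) r) : 2 * r ≤ Module.finrank ℝ E + 1 := by
  have hq' : H826R2.Wein.RegCover (E := E) q Γ := hq.toWein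
  exact rank_le A.toWein (hq'.isContact_pull hα.toWein) (hq'.isReeb_lift hα.toWein hR.toWein) x

/-- **Orbits of dimension at most two.** -/
theorem exists_periodic_of_small [T2Space M] [CompactSpace M]
    (α : M → Cov E) (hα : IsContact α) (R : M → E) (hR : IsReeb α R)
    [T2Space P] [SigmaCompactSpace P] [ConnectedSpace P]
    (q : P → M) (hq : IsQuotientMap E q Γ)
    {m : ℕ} (A : TorusSymmetry (pull (E := E) q α) m) (hA : Normalises Γ A.act)
    (hne : ∃ θ y, A.act θ y ≠ y) (x : P) (hx : orbitDim E A.act x ≤ 2) :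
    ∃ (c : ℝ → M) (T : ℝ), IsPeriodicOrbit R c T := by
  obtain ⟨x₀, hx₀⟩ := exists_maxIso A
  have h0 := (orbitDim_le A hx₀ x).trans hx
  rcases Nat.lt_or_ge (orbitDim E A.act x₀) 2 with h1 | h1
  · exact exists_periodic_small α hα R hR q hq A hA hne x₀ (by omega)
  · have h2 : orbitDim E A.act x₀ = 2 := by omega
    exact reduction α hα R hR q hq A hA x₀ hx₀
      (fun E' _ _ _ M' _ _ _ P' _ _ _ _ _ _ _ _ Γ' _ _ α' hα' R' hR' q' hq' A' hA' _ =>
        rank_two' α' hα' R' hR' q' hq' h2 A' hA')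

/-- **Dimension five.** -/
theorem exists_periodic_five_all [T2Space M] [CompactSpace M] (hd : Module.finrank ℝ E ≤ 5)
    (α : M → Cov E) (hα : IsContact α) (R : M → E) (hR : IsReeb α R)
    [T2Space P] [SigmaCompactSpace P] [ConnectedSpace P]
    (q : P → M) (hq : IsQuotientMap E q Γ)
    {m : ℕ} (A : TorusSymmetry (pull (E := E) q α) m) (hA : Normalises Γ A.act)
    (hne : ∃ θ y, A.act θ y ≠ y) :
    ∃ (c : ℝ → M) (T : ℝ), IsPeriodicOrbit R c T := by
  obtain ⟨x₀, hx₀⟩ := exists_maxIso A
  rcases Nat.lt_or_ge 2 (orbitDim E A.act x₀) with h1 | h1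
  · refine reduction α hα R hR q hq A hA x₀ hx₀
      (fun E' _ _ _ M' _ _ _ P' _ _ _ _ _ _ _ _ Γ' _ _ α' hα' R' hR' q' hq' A' hA' hE' => ?_)
    have h2 : Module.finrank ℝ E' ≤ 5 := by
      rw [hE']
      exact (Submodule.finrank_le _).trans hd
    obtain ⟨y⟩ : Nonempty P' := inferInstance
    have h3 := rank_bound α' hα' R' hR' q' hq' y A'
    have h4 : Module.finrank ℝ E' = 5 := by omega
    exact exists_periodic_five h4 α' hα' R' hR' q' hq' (by omega) A' hA'
  · exact exists_periodic_of_small α hα R hR q hq A hA hne x₀ h1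

/-- **Dimension seven.** -/
theorem exists_periodic_seven [T2Space M] [CompactSpace M] (hd : Module.finrank ℝ E ≤ 7)
    (α : M → Cov E) (hα : IsContact α) (R : M → E) (hR : IsReeb α R)
    [T2Space P] [SigmaCompactSpace P] [ConnectedSpace P]
    (q : P → M) (hq : IsQuotientMap E q Γ)
    {m : ℕ} (A : TorusSymmetry (pull (E := E) q α) m) (hA : Normalises Γ A.act)
    (x y : P) (hxy : orbitDim E A.act x ≠ orbitDim E A.act y) :
    ∃ (c : ℝ → M) (T : ℝ), IsPeriodicOrbit R c T := by
  have hne : ∃ θ y, A.act θ y ≠ y := by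
    by_contra hno
    push Not at hno
    have h1 : ∀ z, orbitDim E A.act z = 0 := by
      intro z
      have h2 : A.toTS.XL z = 0 := A.toTS.XL_eq_zero_of_stab (fun θ => hno θ z)
      show Module.finrank ℝ (LinearMap.range (A.toTS.XL z)) = 0
      rw [h2, LinearMap.range_zero, finrank_bot]
    exact hxy (by rw [h1, h1])
  obtain ⟨x₀, hx₀⟩ := exists_maxIso A
  have hq' : H826R2.Wein.RegCover (E := E) q Γ := hq.toWein
  obtain ⟨n, ι, ⟨𝒟⟩⟩ := hq'.exists_deck
  rcases Nat.lt_or_ge 2 (orbitDim E A.act x₀) with h1 | h1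
  · refine reduction α hα R hR q hq A hA x₀ hx₀
      (fun E' _ _ _ M' _ _ _ P' _ _ _ _ _ _ _ _ Γ' _ _ α' hα' R' hR' q' hq' A' hA' hE' => ?_)
    have h2 : Module.finrank ℝ E' < Module.finrank ℝ E := by
      rw [hE']
      refine lt_of_le_of_ne (Submodule.finrank_le _) (fun h => hxy ?_)
      rw [const_of_ES_top A ι hx₀ h x, const_of_ES_top A ι hx₀ h y]
    obtain ⟨z⟩ : Nonempty P' := inferInstance
    have h3 := rank_bound α' hα' R' hR' q' hq' z A'
    obtain ⟨k, hk⟩ := odd_of_contact hα' (q' z)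
    have h4 : Module.finrank ℝ E' = 5 := by omega
    exact exists_periodic_five h4 α' hα' R' hR' q' hq' (by omega) A' hA'
  · exact exists_periodic_of_small α hα R hR q hq A hA hne x₀ h1

end Pool.Agent.TH607.FxStmt
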