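import Mathlib

/-! Linear actions of vector groups and isotropic subspaces. -/

open Set Metric

noncomputable section

namespace Pool.Agent.TH607

/-- an isotropic subspace orthogonal to a nondegenerate one -/
lemma isotropic_bound {V : Type*} [AddCommGroup V] [Module ℝ V] [FiniteDimensional ℝ V]
    (b : V →ₗ[ℝ] V →ₗ[ℝ] ℝ) (hb : ∀ u, (∀ v, b u v = 0) → u = 0) (I F : Submodule ℝ V)
    (hF : ∀ u ∈ F, (∀ v ∈ F, b u v = 0) → u = 0) (hII : ∀ u ∈ I, ∀ v ∈ I, b u v = 0)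
    (hIF : ∀ u ∈ I, ∀ v ∈ F, b u v = 0) :
    Module.finrank ℝ F + 2 * Module.finrank ℝ I ≤ Module.finrank ℝ V := by
  have hinj : Function.Injective b := by
    rw [← LinearMap.ker_eq_bot, LinearMap.ker_eq_bot']
    intro u hu
    exact hb u (fun v => by rw [hu]; rfl)
  have h1 : Module.finrank ℝ (I.map b) = Module.finrank ℝ I :=
    (Submodule.equivMapOfInjective b hinj I).finrank_eq.symm
  have h2 : I.map b ≤ (I ⊔ F).dualAnnihilator := by
    rintro _ ⟨u, hu, rfl⟩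
    rw [Submodule.mem_dualAnnihilator]
    intro w hw
    obtain ⟨v, hv, v', hv', rfl⟩ := Submodule.mem_sup.1 hw
    rw [map_add, hII u hu v hv, hIF u hu v' hv', add_zero]
  have h3 := Submodule.finrank_mono h2
  have h4 := Subspace.finrank_add_finrank_dualAnnihilator_eq (I ⊔ F)
  have h3' := h3.trans (Nat.sub_eq_of_eq_add (h4.symm.trans (add_comm _ _))).ge
  have h5 : I ⊓ F = ⊥ := by
    rw [eq_bot_iff]
    rintro u ⟨hu, hu'⟩
    exact hF u hu' (fun v hv => hIF u hu v hv)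
  have h6 := Submodule.finrank_sup_add_finrank_inf_eq I F
  rw [h5, finrank_bot] at h6
  omega

section action

variable {E : Type*} [NormedAddCommGroup E] [NormedSpace ℝ E]
  {W : Type*} [AddCommGroup W] [Module ℝ W]
  {ρ : W → E →L[ℝ] E} (h0 : ρ 0 = ContinuousLinearMap.id ℝ E)
  (hadd : ∀ θ θ', ρ (θ + θ') = (ρ θ).comp (ρ θ'))
  (hd : ∀ κ, DifferentiableAt ℝ (fun s : ℝ => ρ (s • κ)) 0)

include h0 hadd hd

/-- the infinitesimal action -/
def Nop (_h0 : ρ 0 = ContinuousLinearMap.id ℝ E)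
    (_hadd : ∀ θ θ', ρ (θ + θ') = (ρ θ).comp (ρ θ'))
    (_hd : ∀ κ, DifferentiableAt ℝ (fun s : ℝ => ρ (s • κ)) 0) (κ : W) : E →L[ℝ] E :=
  deriv (fun s : ℝ => ρ (s • κ)) 0

lemma hasDerivAt_Nop (κ : W) : HasDerivAt (fun s : ℝ => ρ (s • κ)) (Nop h0 hadd hd κ) 0 :=
  (hd κ).hasDerivAt

lemma Nop_add (κ κ' : W) : Nop h0 hadd hd (κ + κ') = Nop h0 hadd hd κ + Nop h0 hadd hd κ' := by
  have h1 := (hasDerivAt_Nop h0 hadd hd κ).clm_comp (hasDerivAt_Nop h0 hadd hd κ')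
  have h2 : (fun s : ℝ => (ρ (s • κ)).comp (ρ (s • κ'))) = fun s : ℝ => ρ (s • (κ + κ')) := by
    ext1 s
    rw [smul_add, hadd]
  rw [h2] at h1
  have h3 := (hasDerivAt_Nop h0 hadd hd (κ + κ')).unique h1
  rw [h3, zero_smul, zero_smul, h0]
  rfl

lemma Nop_smul (c : ℝ) (κ : W) : Nop h0 hadd hd (c • κ) = c • Nop h0 hadd hd κ := by
  have h1 : HasDerivAt (fun s : ℝ => s * c) c 0 := by
    simpa using (hasDerivAt_id (0:ℝ)).mul_const c
  have h2 : HasDerivAt (fun s : ℝ => ρ (s • κ)) (Nop h0 hadd hd κ) ((0:ℝ) * c) := by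
    rw [zero_mul]; exact hasDerivAt_Nop h0 hadd hd κ
  have h3 := h2.scomp (0:ℝ) h1
  have h4 : ((fun s : ℝ => ρ (s • κ)) ∘ fun s : ℝ => s * c) = fun s : ℝ => ρ (s • c • κ) := by
    ext1 s
    show ρ ((s * c) • κ) = _
    rw [mul_smul]
  rw [h4] at h3
  exact (hasDerivAt_Nop h0 hadd hd (c • κ)).unique h3

lemma Nop_comm_act (κ θ : W) : (Nop h0 hadd hd κ).comp (ρ θ) = (ρ θ).comp (Nop h0 hadd hd κ) := by
  have h1 := (hasDerivAt_Nop h0 hadd hd κ).clm_comp (hasDerivAt_const (0:ℝ) (ρ θ))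
  have h2 := (hasDerivAt_const (0:ℝ) (ρ θ)).clm_comp (hasDerivAt_Nop h0 hadd hd κ)
  have h3 : (fun s : ℝ => (ρ (s • κ)).comp (ρ θ)) = fun s : ℝ => (ρ θ).comp (ρ (s • κ)) := by
    ext1 s
    rw [← hadd, ← hadd, add_comm]
  rw [h3] at h1
  have h4 := h1.unique h2
  simpa using h4

lemma Nop_comm (κ κ' : W) : (Nop h0 hadd hd κ).comp (Nop h0 hadd hd κ') =
    (Nop h0 hadd hd κ').comp (Nop h0 hadd hd κ) := by
  have h1 := (hasDerivAt_const (0:ℝ) (Nop h0 hadd hd κ)).clm_comp (hasDerivAt_Nop h0 hadd hd κ')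
  have h2 := (hasDerivAt_Nop h0 hadd hd κ').clm_comp (hasDerivAt_const (0:ℝ) (Nop h0 hadd hd κ))
  have h3 : (fun s : ℝ => (Nop h0 hadd hd κ).comp (ρ (s • κ'))) =
      fun s : ℝ => (ρ (s • κ')).comp (Nop h0 hadd hd κ) := by
    ext1 s
    exact Nop_comm_act h0 hadd hd κ _
  rw [h3] at h1
  have h4 := h1.unique h2
  simpa using h4

lemma hasDerivAt_act (κ : W) (w : E) (t : ℝ) :
    HasDerivAt (fun s : ℝ => ρ (s • κ) w) (ρ (t • κ) (Nop h0 hadd hd κ w)) t := by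
  have h1 : HasDerivAt (fun s : ℝ => ρ (s • κ)) (Nop h0 hadd hd κ)
      ((fun s : ℝ => s - t) t) := by
    show HasDerivAt _ _ (t - t)
    rw [sub_self]; exact hasDerivAt_Nop h0 hadd hd κ
  have h2 : HasDerivAt (fun s : ℝ => s - t) 1 t := (hasDerivAt_id t).sub_const t
  have h3 := HasDerivAt.scomp (h := fun s : ℝ => s - t) t h1 h2
  rw [one_smul] at h3
  have h4 := (hasDerivAt_const t (ρ (t • κ))).clm_comp h3
  have h5 : (fun s : ℝ => (ρ (t • κ)).comp (((fun s : ℝ => ρ (s • κ)) ∘ fun s : ℝ => s - t) s)) =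
      fun s : ℝ => ρ (s • κ) := by
    ext1 s
    show (ρ (t • κ)).comp (ρ ((s - t) • κ)) = _
    rw [← hadd, ← add_smul, add_sub_cancel]
  rw [h5] at h4
  have h6 := h4.clm_apply (hasDerivAt_const t w)
  simpa using h6

/-- vectors killed infinitesimally are fixed -/
lemma fixed_of_Nop {κ : W} {w : E} (hw : Nop h0 hadd hd κ w = 0) (s : ℝ) : ρ (s • κ) w = w := by
  have h1 : ∀ t : ℝ, HasDerivAt (fun s : ℝ => ρ (s • κ) w) 0 t := by
    intro t
    have := hasDerivAt_act h0 hadd hd κ w t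
    rwa [hw, map_zero] at this
  have h2 := is_const_of_deriv_eq_zero (fun t => (h1 t).differentiableAt)
    (fun t => (h1 t).deriv) s 0
  simpa [h0] using h2

lemma Nop_of_fixed {κ : W} {w : E} (hw : ∀ s : ℝ, ρ (s • κ) w = w) :
    Nop h0 hadd hd κ w = 0 := by
  have h1 := hasDerivAt_act h0 hadd hd κ w 0
  rw [zero_smul, h0] at h1
  have h2 : (fun s : ℝ => ρ (s • κ) w) = fun _ => w := funext hw
  rw [h2] at h1
  exact h1.unique (hasDerivAt_const (0:ℝ) w)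

lemma Nop_form (b : E →L[ℝ] E →L[ℝ] ℝ) (hb : ∀ θ u v, b (ρ θ u) (ρ θ v) = b u v) (κ : W)
    (u v : E) : b (Nop h0 hadd hd κ u) v + b u (Nop h0 hadd hd κ v) = 0 := by
  have h1 := hasDerivAt_act h0 hadd hd κ u 0
  have h2 := hasDerivAt_act h0 hadd hd κ v 0
  rw [zero_smul, h0] at h1 h2
  have h3 := (b.hasFDerivAt.comp_hasDerivAt (0:ℝ) h1).clm_apply h2
  have h4 : (fun s : ℝ => (b ∘ fun s : ℝ => ρ (s • κ) u) s (ρ (s • κ) v)) = fun _ => b u v := by
    ext1 s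
    exact hb _ u v
  rw [h4] at h3
  have h5 := (hasDerivAt_const (0:ℝ) (b u v)).unique h3
  simpa [h0] using h5.symm

lemma Nop_functional (l : E →L[ℝ] ℝ) (hl : ∀ θ u, l (ρ θ u) = l u) (κ : W) (u : E) :
    l (Nop h0 hadd hd κ u) = 0 := by
  have h1 := hasDerivAt_act h0 hadd hd κ u 0
  rw [zero_smul, h0] at h1
  have h3 := l.hasFDerivAt.comp_hasDerivAt (0:ℝ) h1
  have h4 : (l ∘ fun s : ℝ => ρ (s • κ) u) = fun _ => l u := by
    ext1 s
    exact hl _ u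
  rw [h4] at h3
  exact h3.unique (hasDerivAt_const (0:ℝ) (l u))

/-- the infinitesimal action on a vector, as a linear map -/
def Lop (w : E) : W →ₗ[ℝ] E where
  toFun κ := Nop h0 hadd hd κ w
  map_add' a b := by rw [Nop_add]; rfl
  map_smul' c a := by rw [Nop_smul]; rfl

end action

end Pool.Agent.TH607
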