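import Mathlib
import Pool.Agent.TH607.Fx.Fin
import Pool.Agent.TH607.Fx.Lin

/-! Generic isotropy and the dimension of fixed vectors. -/

open scoped Topology ContDiff Manifold
open Set Metric Bundle Pool.Agent.Helper186 Pool.Agent.H826R2.Wein

noncomputable section

namespace Pool.Agent.TH607

set_option linter.unusedSectionVars false

/-- a finite-dimensional space is not a countable union of proper subspaces -/
lemma exists_avoid {E : Type*} [NormedAddCommGroup E] [NormedSpace ℝ E] [FiniteDimensional ℝ E]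
    {I : Type*} [Countable I] (F : I → Submodule ℝ E) (hF : ∀ i, F i ≠ ⊤) :
    ∃ w, ∀ i, w ∉ F i := by
  borelize E
  by_contra hno
  push Not at hno
  have h1 : (⋃ i, (F i : Set E)) = univ := by
    ext w
    simp only [mem_iUnion, mem_univ, iff_true]
    exact hno w
  have h2 : MeasureTheory.Measure.addHaar (⋃ i, (F i : Set E)) = 0 :=
    MeasureTheory.measure_iUnion_null fun i =>
      MeasureTheory.Measure.addHaar_submodule _ (F i) (hF i)
  rw [h1] at h2
  have h3 : (0 : ENNReal) < MeasureTheory.Measure.addHaar (univ : Set E) :=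
    isOpen_univ.measure_pos _ ⟨0, mem_univ _⟩
  exact absurd h2 h3.ne'

universe u

variable {E : Type u} [NormedAddCommGroup E] [NormedSpace ℝ E] [FiniteDimensional ℝ E]
  {P : Type*} [TopologicalSpace P] [ChartedSpace E P] [IsManifold 𝓘(ℝ, E) ∞ P]
  {β : (x : P) → TangentSpace 𝓘(ℝ, E) x →L[ℝ] ℝ} {R : (x : P) → TangentSpace 𝓘(ℝ, E) x}

namespace TS

variable {m : ℕ} (A : TS β m)

/-- the kernel of the infinitesimal action -/
def Ker : Submodule ℝ (Fin m → ℝ) := ⨅ z : P, A.isoAlg z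

lemma Ker_le (z : P) : A.Ker ≤ A.isoAlg z := iInf_le _ z

/-- a rational algebra whose isotropy representation is trivial somewhere acts trivially -/
lemma le_Ker_of_top [T2Space P] [ConnectedSpace P] {n : ℕ} (ι : Imm (E := E) P n)
    {S : Submodule ℝ (Fin m → ℝ)} (hS : Rational S) {y : P} (hy : y ∈ A.Fix S)
    (htop : A.ES S y = ⊤) : S ≤ A.Ker := by
  set O : Set P := {z | z ∈ A.Fix S ∧ A.ES S z = ⊤} with hO
  have hopen : IsOpen O := by
    rw [isOpen_iff_mem_nhds]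
    rintro z ⟨hz1, hz2⟩
    obtain ⟨g⟩ := A.exists_good ι hS hz1
    refine Filter.mem_of_superset (g.φ.open_source.mem_nhds g.mem) fun w hw => ?_
    have h1 : w ∈ A.Fix S := by
      rw [g.iff w hw, hz2]; exact Submodule.mem_top
    refine ⟨h1, ?_⟩
    apply Submodule.eq_top_of_finrank_eq
    rw [g.dim w hw h1, hz2, finrank_top]
  have hclosed : IsClosed O := by
    rw [← closure_subset_iff_isClosed]
    intro z hz
    have h1 : z ∈ A.Fix S := by
      have h2 : O ⊆ A.Fix S := fun w hw => hw.1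
      exact (A.isClosed_Fix S).closure_subset_iff.2 h2 hz
    obtain ⟨g⟩ := A.exists_good ι hS h1
    obtain ⟨w, hw1, hw2⟩ := mem_closure_iff.1 hz _ g.φ.open_source g.mem
    refine ⟨h1, ?_⟩
    apply Submodule.eq_top_of_finrank_eq
    rw [← g.dim w hw1 hw2.1, hw2.2, finrank_top]
  have huniv : O = univ := IsClopen.eq_univ ⟨hclosed, hopen⟩ ⟨y, hy, htop⟩
  refine le_iInf fun z => ?_
  have h1 : z ∈ O := by rw [huniv]; exact mem_univ z
  exact A.mem_Fix_iff.1 h1.1

/-- an equivariant local parametrisation -/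
lemma exists_param [T2Space P] {n : ℕ} (ι : Imm (E := E) P n) {S : Submodule ℝ (Fin m → ℝ)}
    (hS : Rational S) {y : P} (hy : y ∈ A.Fix S) :
    ∃ (ψ : P → E) (σ : E → P), (∀ θ ∈ S, ∀ z, ψ (A.act θ z) = A.iso y θ (ψ z)) ∧
      ContinuousAt σ 0 ∧ σ 0 = y ∧
      ∀ᶠ w in 𝓝 (0:E), ψ (σ w) = w ∧ ∀ θ ∈ S, A.iso y θ w = w → A.act θ (σ w) = σ w := by
  obtain ⟨ψ, hψ, hψ0, hd, heq⟩ := A.exists_equivariant ι hS hy
  obtain ⟨φ, hyφ, hφψ, hsm, hsm'⟩ := exists_local_diffeo hψ hd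
  have hK : IsCompact (Icc (0 : Fin m → ℝ) 1 ∩ (A.stab y : Set (Fin m → ℝ))) :=
    isCompact_Icc.inter_right (A.isClosed_stab y)
  have hcont : Continuous (fun p : (Fin m → ℝ) × P => A.act p.1 p.2) := A.smooth.continuous
  have h1 : ∀ᶠ z in 𝓝 y, ∀ θ ∈ Icc (0 : Fin m → ℝ) 1 ∩ (A.stab y : Set (Fin m → ℝ)),
      A.act θ z ∈ φ.source := by
    apply hK.eventually_forall_of_forall_eventually
    intro θ hθ
    have h2 : (fun p : P × (Fin m → ℝ) => A.act p.2 p.1) ⁻¹' φ.source ∈ 𝓝 (y, θ) := by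
      apply (hcont.comp (continuous_snd.prodMk continuous_fst)).continuousAt.preimage_mem_nhds
      show φ.source ∈ 𝓝 (A.act θ y)
      rw [A.mem_stab.1 hθ.2]
      exact φ.open_source.mem_nhds hyφ
    exact h2
  have h2 : ∀ᶠ z in 𝓝 y, z ∈ φ.source ∧ ∀ θ ∈ S, A.act θ z ∈ φ.source := by
    filter_upwards [h1, φ.open_source.mem_nhds hyφ] with z hz hz'
    refine ⟨hz', fun θ hθ => ?_⟩
    rw [A.act_fract]
    apply hz
    refine ⟨⟨fun i => Int.fract_nonneg _, fun i => (Int.fract_lt_one _).le⟩, ?_⟩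
    show A.act _ y = y
    rw [← A.act_fract]
    exact hy θ hθ
  have hφy : φ y = 0 := by rw [hφψ y hyφ, hψ0]
  have h0t : (0:E) ∈ φ.target := by rw [← hφy]; exact φ.map_source hyφ
  have hc : ContinuousAt φ.symm 0 := φ.symm.continuousAt h0t
  have hs0 : φ.symm 0 = y := by rw [← hφy, φ.left_inv hyφ]
  refine ⟨ψ, φ.symm, heq, hc, hs0, ?_⟩
  have h3 : ∀ᶠ w in 𝓝 (0:E), φ.symm w ∈ φ.source ∧ ∀ θ ∈ S, A.act θ (φ.symm w) ∈ φ.source := by
    refine Filter.Tendsto.eventually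
      (p := fun z => z ∈ φ.source ∧ ∀ θ ∈ S, A.act θ z ∈ φ.source) hc ?_
    rw [hs0]
    exact h2
  filter_upwards [h3, φ.open_target.mem_nhds h0t] with w hw hwt
  have h4 : ψ (φ.symm w) = w := by rw [← hφψ _ hw.1, φ.right_inv hwt]
  refine ⟨h4, fun θ hθ hfix => ?_⟩
  apply φ.injOn (hw.2 θ hθ) hw.1
  rw [hφψ _ (hw.2 θ hθ), hφψ _ hw.1, heq θ hθ, h4, hfix]

section rep

variable {S : Submodule ℝ (Fin m → ℝ)} {y : P}

/-- the isotropy representation of an algebra fixing `y` -/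
def rep (y : P) (S : Submodule ℝ (Fin m → ℝ)) (θ : S) : E →L[ℝ] E := A.iso y θ

lemma rep_zero : A.rep y S 0 = ContinuousLinearMap.id ℝ E :=
  A.iso_of_id (by ext1 x; exact A.zero x)

lemma rep_add (hy : y ∈ A.Fix S) (θ θ' : S) :
    A.rep y S (θ + θ') = (A.rep y S θ).comp (A.rep y S θ') :=
  A.iso_add (hy θ' θ'.2) (θ : Fin m → ℝ)

lemma rep_diff {n : ℕ} (ι : Imm (E := E) P n) (hy : y ∈ A.Fix S) (κ : S) :
    DifferentiableAt ℝ (fun s : ℝ => A.rep y S (s • κ)) 0 := by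
  have h := A.contDiff_iso ι (y := y) (κ := (κ : Fin m → ℝ))
    (fun s => hy _ (S.smul_mem s κ.2))
  exact (h.differentiable (by simp)) 0

end rep

/-- **Generic vectors.** There is a vector whose infinitesimal isotropy is the kernel of the
action. -/
lemma exists_generic [T2Space P] [ConnectedSpace P] {n : ℕ} (ι : Imm (E := E) P n) (y : P) :
    ∃ w : E, ∀ κ ∈ A.isoAlg y, (∀ s : ℝ, A.iso y (s • κ) w = w) → κ ∈ A.Ker := by
  set S := A.isoAlg y with hS
  have hrat : Rational S := A.rational_isoAlg y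
  have hyS : y ∈ A.Fix S := A.mem_Fix_iff.2 le_rfl
  let sp : List (Fin m → ℤ) → Submodule ℝ (Fin m → ℝ) := fun L =>
    Submodule.span ℝ {v : Fin m → ℝ | ∃ k ∈ L, rv k = v}
  let I := {L : List (Fin m → ℤ) // sp L ≤ S ∧ ¬ sp L ≤ A.Ker}
  obtain ⟨w, hw⟩ := exists_avoid (fun L : I => A.ES (sp L) y) (fun L htop => L.2.2 (by
    refine A.le_Ker_of_top ι ⟨L.1, rfl⟩ (fun θ hθ => hyS θ (L.2.1 hθ)) htop))
  obtain ⟨ψ, σ, heq, hc, hs0, hev⟩ := A.exists_param ι hrat hyS
  have h1 : ∀ᶠ w in 𝓝 (0:E), A.isoAlg (σ w) ≤ S := by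
    refine Filter.Tendsto.eventually (p := fun z => A.isoAlg z ≤ S) hc ?_
    rw [hs0]
    exact A.isoAlg_near y
  have h2 : Filter.Tendsto (fun t : ℝ => t • w) (𝓝[≠] 0) (𝓝 0) := by
    have h3 : Filter.Tendsto (fun t : ℝ => t • w) (𝓝 0) (𝓝 ((0:ℝ) • w)) :=
      (continuous_id.smul continuous_const).tendsto 0
    rw [zero_smul] at h3
    exact h3.mono_left nhdsWithin_le_nhds
  obtain ⟨t, ⟨⟨hψt, hfix⟩, hiso⟩, ht⟩ :=
    ((h2.eventually (hev.and h1)).and self_mem_nhdsWithin).exists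
  have ht0 : t ≠ 0 := ht
  have hK : A.isoAlg (σ (t • w)) ≤ A.Ker := by
    obtain ⟨L, hL⟩ := A.rational_isoAlg (σ (t • w))
    by_contra hno
    have hL' : A.isoAlg (σ (t • w)) = sp L := hL
    rw [hL'] at hno hiso
    apply hw ⟨L, hiso, hno⟩
    intro θ hθ
    have h3 : A.act θ (σ (t • w)) = σ (t • w) := by
      have h4 : σ (t • w) ∈ A.Fix (sp L) := A.mem_Fix_iff.2 hL'.ge
      exact h4 θ hθ
    have h5 := heq θ (hiso hθ) (σ (t • w))
    rw [h3, hψt, map_smul] at h5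
    have h6 := congrArg (fun v => t⁻¹ • v) h5
    simp only [smul_smul, inv_mul_cancel₀ ht0, one_smul] at h6
    exact h6.symm
  refine ⟨w, fun κ hκ hall => hK ?_⟩
  rw [A.mem_isoAlg_iff]
  intro s
  apply hfix _ (S.smul_mem s hκ)
  rw [map_smul, hall s]

/-- **The dimension inequality.** -/
lemma finrank_ES_bound [T2Space P] [ConnectedSpace P] (c : CD β R) {n : ℕ}
    (ι : Imm (E := E) P n) (y : P) :
    Module.finrank ℝ (A.ES (A.isoAlg y) y) +
      2 * (Module.finrank ℝ (A.isoAlg y) - Module.finrank ℝ A.Ker) ≤ Module.finrank ℝ E := by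
  set S := A.isoAlg y with hS
  have hrat : Rational S := A.rational_isoAlg y
  have hyS : y ∈ A.Fix S := A.mem_Fix_iff.2 le_rfl
  obtain ⟨w, hw⟩ := A.exists_generic ι y
  have a0 := A.rep_zero (y := y) (S := S)
  have a1 := A.rep_add hyS
  have a2 := A.rep_diff ι hyS
  let L := Lop a0 a1 a2 w
  have hLk : ∀ κ : S, L κ = 0 → (κ : Fin m → ℝ) ∈ A.Ker := by
    intro κ hκ
    exact hw κ κ.2 (fun s => fixed_of_Nop a0 a1 a2 hκ s)
  have h1 : Module.finrank ℝ S - Module.finrank ℝ A.Ker ≤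
      Module.finrank ℝ (LinearMap.range L) := by
    have h2 := LinearMap.finrank_range_add_finrank_ker L
    have h3 : Module.finrank ℝ (LinearMap.ker L) ≤ Module.finrank ℝ A.Ker := by
      let f : LinearMap.ker L →ₗ[ℝ] A.Ker :=
        ((S.subtype).comp (LinearMap.ker L).subtype).codRestrict A.Ker
          (fun κ => hLk κ.1 κ.2)
      apply LinearMap.finrank_le_finrank_of_injective (f := f)
      intro a b hab
      apply Subtype.ext
      apply Subtype.ext
      exact congrArg (fun v : A.Ker => (v : Fin m → ℝ)) hab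
    omega
  let hb : E →L[ℝ] E →L[ℝ] ℝ := HB β y
  have hbinv : ∀ (θ : S) (u v : E), hb (A.rep y S θ u) (A.rep y S θ v) = hb u v := fun θ u v =>
    A.HB_isotropy c.contact.smooth (hyS θ θ.2) u v
  have hbeta : ∀ (θ : S) (u : E), (show E →L[ℝ] ℝ from β y) (A.rep y S θ u) =
      (show E →L[ℝ] ℝ from β y) u := fun θ u => A.β_isotropy (hyS θ θ.2) u
  let be : E →L[ℝ] ℝ := β y
  have hsym : ∀ u v : E, hb u v = be u * be v + extDer 𝓘(ℝ, E) β y u v := fun u v =>
    HB_apply y u v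
  have hI0 : ∀ (κ : S) (u : E), be (Nop a0 a1 a2 κ u) = 0 := fun κ u =>
    Nop_functional a0 a1 a2 be hbeta κ u
  have hform := Nop_form a0 a1 a2 hb hbinv
  have hext : ∀ (κ : S) (u v : E), hb (Nop a0 a1 a2 κ u) v = - hb v (Nop a0 a1 a2 κ u) := by
    intro κ u v
    rw [hsym, hsym, hI0, zero_mul, mul_zero, zero_add, zero_add]
    exact extDer_antisymm _ _ _
  let b' : E →ₗ[ℝ] E →ₗ[ℝ] ℝ := LinearMap.mk₂ ℝ (fun u v => hb u v)
    (fun a b c => by simp) (fun a b c => by simp) (fun a b c => by simp) (fun a b c => by simp)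
  have h4 := isotropic_bound b' (fun u hu => HB_nondeg c.contact c.reeb y u hu)
    (LinearMap.range L) (A.ES S y) ?_ ?_ ?_
  · omega
  · intro u hu hv
    have hRm : (R y : E) ∈ A.ES S y := fun θ hθ => A.push_fixed_R c (hyS θ hθ)
    have h5 : be u = 0 := by
      have h6 : hb u (R y : E) = 0 := hv _ hRm
      have h7 := hsym u (R y : E)
      have h8 : be (R y : E) = 1 := c.reeb.unit y
      have h9 : extDer 𝓘(ℝ, E) β y u (R y : E) = 0 := by
        rw [extDer_antisymm, c.reeb.kernel, neg_zero]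
      rw [h6, h8, mul_one] at h7
      linarith
    apply A.nondeg_ES c ι hrat hyS hu h5
    intro v hv' hβv
    have h6 : hb u v = 0 := hv v hv'
    have h7 := hsym u v
    rw [h6, h5, zero_mul, zero_add] at h7
    exact h7.symm
  · rintro _ ⟨κ, rfl⟩ _ ⟨κ', rfl⟩
    show hb (Nop a0 a1 a2 κ w) (Nop a0 a1 a2 κ' w) = 0
    have e1 := hform κ w (Nop a0 a1 a2 κ' w)
    have e2 := hform κ' w (Nop a0 a1 a2 κ w)
    have e3 := hext κ w (Nop a0 a1 a2 κ' w)
    have e4 : Nop a0 a1 a2 κ (Nop a0 a1 a2 κ' w) = Nop a0 a1 a2 κ' (Nop a0 a1 a2 κ w) :=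
      DFunLike.congr_fun (Nop_comm a0 a1 a2 κ κ') w
    rw [e4] at e1
    linarith
  · rintro _ ⟨κ, rfl⟩ v hv
    show hb (Nop a0 a1 a2 κ w) v = 0
    have e1 := hform κ w v
    have e2 : Nop a0 a1 a2 κ v = 0 := Nop_of_fixed a0 a1 a2 (fun s =>
      hv _ (S.smul_mem s κ.2))
    rw [e2, map_zero, add_zero] at e1
    exact e1

end TS

end Pool.Agent.TH607
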