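import Mathlib
import Pool.Agent.TH607.Fx.Gen

/-! Periodic orbits for toric symmetries with an orbit of dimension at most three. -/

open scoped Topology ContDiff Manifold
open Set Metric Pool.Agent.Helper186 Pool.Agent.H826R2.WStmt

noncomputable section

namespace Pool.Agent.TH607.FxStmt

set_option linter.unusedSectionVars false

universe u v w x

variable {E : Type u} [NormedAddCommGroup E] [NormedSpace ℝ E] [FiniteDimensional ℝ E]
  {M : Type v} [TopologicalSpace M] [ChartedSpace E M] [IsManifold 𝓘(ℝ, E) ∞ M]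
  {P : Type w} [TopologicalSpace P] [ChartedSpace E P] [IsManifold 𝓘(ℝ, E) ∞ P]
  {Γ : Type x} [Group Γ] [MulAction Γ P]

/-- the dimension of the fixed vectors in terms of orbit dimensions -/
lemma finrank_ES_le [T2Space M] [CompactSpace M]
    (α : M → Cov E) (hα : IsContact α) (R : M → E) (hR : IsReeb α R)
    [T2Space P] [SigmaCompactSpace P] [ConnectedSpace P]
    (q : P → M) (hq : IsQuotientMap E q Γ)
    {m : ℕ} (A : TorusSymmetry (pull (E := E) q α) m) (x y : P) :
    Module.finrank ℝ (A.toTS.ES (A.toTS.isoAlg x) x) +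
      2 * (orbitDim E A.act y - orbitDim E A.act x) ≤ Module.finrank ℝ E := by
  have hq' : H826R2.Wein.RegCover (E := E) q Γ := hq.toWein
  obtain ⟨n, ι, ⟨𝒟⟩⟩ := hq'.exists_deck
  have h1 := A.toTS.finrank_ES_bound
    ⟨hq'.isContact_pull hα.toWein, hq'.isReeb_lift hα.toWein hR.toWein⟩ ι x
  have h2 := orbitDim_eq A x
  have h3 := orbitDim_eq A y
  have h4 : Module.finrank ℝ A.toTS.Ker ≤ Module.finrank ℝ (A.toTS.isoAlg y) :=
    Submodule.finrank_mono (A.toTS.Ker_le y)
  have h5 : Module.finrank ℝ A.toTS.Ker ≤ Module.finrank ℝ (A.toTS.isoAlg x) :=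
    Submodule.finrank_mono (A.toTS.Ker_le x)
  omega

/-- **Toric symmetries.** -/
theorem exists_periodic_toric [T2Space M] [CompactSpace M]
    (α : M → Cov E) (hα : IsContact α) (R : M → E) (hR : IsReeb α R)
    [T2Space P] [SigmaCompactSpace P] [ConnectedSpace P]
    (q : P → M) (hq : IsQuotientMap E q Γ)
    {m : ℕ} (A : TorusSymmetry (pull (E := E) q α) m) (hA : Normalises Γ A.act)
    (x y : P) (hx : orbitDim E A.act x ≤ 3)
    (hy : Module.finrank ℝ E + 1 ≤ 2 * orbitDim E A.act y) :
    ∃ (c : ℝ → M) (T : ℝ), IsPeriodicOrbit R c T := by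
  have hne : ∃ θ y, A.act θ y ≠ y := by
    by_contra hno
    push Not at hno
    have h2 : A.toTS.XL y = 0 := A.toTS.XL_eq_zero_of_stab (fun θ => hno θ y)
    have h3 : orbitDim E A.act y = 0 := by
      show Module.finrank ℝ (LinearMap.range (A.toTS.XL y)) = 0
      rw [h2, LinearMap.range_zero, finrank_bot]
    omega
  obtain ⟨x₀, hx₀⟩ := exists_maxIso A
  rcases Nat.lt_or_ge 2 (orbitDim E A.act x₀) with h1 | h1
  · have h5 := orbitDim_le A hx₀ x
    have h6 := finrank_ES_le α hα R hR q hq A x₀ y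
    have h7 := orbitDim_le A hx₀ y
    refine reduction α hα R hR q hq A hA x₀ hx₀
      (fun E' _ _ _ M' _ _ _ P' _ _ _ _ _ _ _ _ Γ' _ _ α' hα' R' hR' q' hq' A' hA' hE' => ?_)
    obtain ⟨z⟩ : Nonempty P' := inferInstance
    have h3 := rank_bound α' hα' R' hR' q' hq' z A'
    have h4 : Module.finrank ℝ E' = 5 := by omega
    exact exists_periodic_five h4 α' hα' R' hR' q' hq' (by omega) A' hA'
  · exact exists_periodic_of_small α hα R hR q hq A hA hne x₀ h1

end Pool.Agent.TH607.FxStmt
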